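import Pool.Agent.Lib.MP_70d3b5_lc.Noise

/-!
# Approximation of monotone computations
-/

open Finset

namespace Pool.Agent.Lib.MP_70d3b5_lc

variable {U V : Type} [Fintype V] [DecidableEq V]

/-- Union of `b` independent random sets. -/
def ZZ {b N : ℕ} (ω : Fin b → V → Fin N) : Finset V := univ.biUnion fun i => Z (ω i)

theorem Z_subset_ZZ {b N : ℕ} (ω : Fin b → V → Fin N) (i : Fin b) : Z (ω i) ⊆ ZZ ω :=
  subset_biUnion_of_mem (fun i => Z (ω i)) (mem_univ i)

/-- Boosting by independent repetition. -/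
theorem pr_miss_le {b N : ℕ} (hN : 0 < N) (T : Finset U) (A : U → Finset V) {c : ℝ}
    (hc : c ≤ pr (fun ω : V → Fin N => ∃ u ∈ T, A u ⊆ Z ω)) :
    pr (fun ω : Fin b → V → Fin N => ¬ ∃ u ∈ T, A u ⊆ ZZ ω) ≤ (1 - c) ^ b := by
  have : Nonempty (Fin N) := ⟨⟨0, hN⟩⟩
  have h1 : pr (fun ω : Fin b → V → Fin N => ¬ ∃ u ∈ T, A u ⊆ ZZ ω) ≤
      pr (fun ω : Fin b → V → Fin N => ∀ i, ¬ ∃ u ∈ T, A u ⊆ Z (ω i)) := by
    refine pr_mono fun ω h i => ?_
    rintro ⟨u, hu, hA⟩
    exact h ⟨u, hu, hA.trans (Z_subset_ZZ ω i)⟩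
  refine h1.trans ?_
  rw [pr_pi_forall b (fun ω : V → Fin N => ¬ ∃ u ∈ T, A u ⊆ Z ω), pr_compl]
  refine pow_le_pow_left₀ ?_ (by linarith) b
  linarith [pr_le_one (fun ω : V → Fin N => ∃ u ∈ T, A u ⊆ Z ω)]

/-- `#{u | B ⊆ S u} * q ^ |B| ≤ |U|` for all sets `B` with at most `L` elements. -/
def Spread [Fintype U] (S : U → Finset V) (q : ℝ) (L : ℕ) : Prop :=
  ∀ B : Finset V, B.card ≤ L →
    ((univ.filter fun u => B ⊆ S u).card : ℝ) * q ^ B.card ≤ Fintype.card U

theorem pow_exp_bound {N L : ℕ} {κ y : ℝ} (hκ : 0 < κ) (h : L * N ≤ y * κ) :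
    (1 + (N : ℝ) / κ) ^ L ≤ Real.exp y := by
  have h1 : 1 + (N : ℝ) / κ ≤ Real.exp (N / κ) := by
    have := Real.add_one_le_exp ((N : ℝ) / κ)
    linarith
  calc (1 + (N : ℝ) / κ) ^ L ≤ Real.exp (N / κ) ^ L := pow_le_pow_left₀ (by positivity) h1 L
    _ = Real.exp (L * (N / κ)) := by rw [← Real.exp_nat_mul]
    _ ≤ Real.exp y := by
      refine Real.exp_le_exp.2 ?_
      rw [mul_div_assoc', div_le_iff₀ hκ]
      exact h

/-- The core lemma. -/
theorem exists_core [Fintype U] {S : U → Finset V} {q κ : ℝ} {L N b : ℕ} (hN : 0 < N)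
    (hκ : 0 < κ) (hκL : L * N ≤ κ) (hq : 0 < q) (hS : Spread S q L) (T : Finset U)
    (hT : T.Nonempty) (A : U → Finset V) (hAS : ∀ u ∈ T, A u ⊆ S u)
    (hL : ∀ u ∈ T, (A u).card ≤ L) :
    ∃ K : Finset V, ∃ u₀ ∈ T, K ⊆ A u₀ ∧
      (T.card : ℝ) * q ^ K.card ≤ Fintype.card U * κ ^ K.card ∧
      pr (fun ω : Fin b → V → Fin N => ¬ ∃ u ∈ T, A u ⊆ K ∪ ZZ ω) ≤ (2 / 3) ^ b := by
  classical
  have hT0 : (0 : ℝ) < T.card := by exact_mod_cast hT.card_pos
  -- a heavy set of maximal size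
  let G : Finset (Finset V) := univ.filter fun K =>
    (T.card : ℝ) ≤ ((T.filter fun u => K ⊆ A u).card : ℝ) * κ ^ K.card
  have hG : G.Nonempty := ⟨∅, by simp [G]⟩
  obtain ⟨K, hK, hmax⟩ := G.exists_max_image card hG
  have hK' : (T.card : ℝ) ≤ ((T.filter fun u => K ⊆ A u).card : ℝ) * κ ^ K.card := by
    simpa [G] using hK
  set T' := T.filter fun u => K ⊆ A u with hT'
  have hT'0 : (0 : ℝ) < T'.card := by
    by_contra hc
    have : (T'.card : ℝ) = 0 := le_antisymm (not_lt.1 hc) (by positivity)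
    rw [this, zero_mul] at hK'
    linarith
  have hT'ne : T'.Nonempty := by
    rw [← card_pos]
    exact_mod_cast hT'0
  obtain ⟨u₀, hu₀⟩ := hT'ne
  obtain ⟨hu₀T, hKu₀⟩ := mem_filter.1 hu₀
  refine ⟨K, u₀, hu₀T, hKu₀, ?_, ?_⟩
  · have hKL : K.card ≤ L := (card_le_card hKu₀).trans (hL u₀ hu₀T)
    have h1 : (T'.card : ℝ) ≤ ((univ.filter fun u => K ⊆ S u).card : ℝ) := by
      have : T' ⊆ univ.filter fun u => K ⊆ S u := by
        intro u hu
        obtain ⟨h1, h2⟩ := mem_filter.1 hu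
        exact mem_filter.2 ⟨mem_univ _, h2.trans (hAS u h1)⟩
      exact_mod_cast card_le_card this
    calc (T.card : ℝ) * q ^ K.card ≤ (T'.card * κ ^ K.card) * q ^ K.card := by gcongr
      _ = (T'.card * q ^ K.card) * κ ^ K.card := by ring
      _ ≤ (((univ.filter fun u => K ⊆ S u).card : ℝ) * q ^ K.card) * κ ^ K.card := by gcongr
      _ ≤ Fintype.card U * κ ^ K.card := by
        have := hS K hKL
        gcongr
  · -- the links of `K` are spread
    have hs : ∀ B : Finset V, B.Nonempty →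
        ((T'.filter fun u => B ⊆ A u \ K).card : ℝ) * κ ^ B.card ≤ 1 * T'.card := by
      intro B hB
      rw [one_mul]
      by_cases hd : Disjoint B K
      · have hc : K.card < (K ∪ B).card := by
          rw [card_union_of_disjoint hd.symm]
          have := hB.card_pos
          omega
        have hn : K ∪ B ∉ G := fun h => absurd (hmax _ h) (not_le.2 hc)
        have hn' : ((T.filter fun u => K ∪ B ⊆ A u).card : ℝ) * κ ^ (K ∪ B).card < T.card := by
          simpa [G] using hn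
        have he : T'.filter (fun u => B ⊆ A u \ K) = T.filter fun u => K ∪ B ⊆ A u := by
          ext u
          simp only [hT', mem_filter, union_subset_iff, subset_sdiff, and_assoc]
          tauto
        rw [he]
        rw [card_union_of_disjoint hd.symm, pow_add] at hn'
        have h2 : (((T.filter fun u => K ∪ B ⊆ A u).card : ℝ) * κ ^ B.card) * κ ^ K.card ≤
            T'.card * κ ^ K.card := by
          calc _ = ((T.filter fun u => K ∪ B ⊆ A u).card : ℝ) * (κ ^ K.card * κ ^ B.card) := by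
                ring
            _ ≤ T'.card * κ ^ K.card := hn'.le.trans hK'
        exact le_of_mul_le_mul_right h2 (by positivity)
      · have he : T'.filter (fun u => B ⊆ A u \ K) = ∅ := by
          refine filter_false_of_mem fun u _ h => hd ?_
          exact sdiff_disjoint.mono_left h
        rw [he]
        simp only [card_empty, Nat.cast_zero, zero_mul]
        positivity
    have h1 := hit_prob T' (fun u => A u \ K) ⟨u₀, hu₀⟩ hN hκ zero_le_one (L := L)
      (fun u hu => (card_le_card sdiff_subset).trans (hL u (mem_filter.1 hu).1)) hs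
    have h2 : (1 + (N : ℝ) / κ) ^ L ≤ 3 := by
      refine (pow_exp_bound (y := 1) hκ (by linarith)).trans ?_
      linarith [Real.exp_one_lt_d9]
    have h3 : 1 / 3 ≤ pr (fun ω : V → Fin N => ∃ u ∈ T', A u \ K ⊆ Z ω) := by
      have h4 := pr_nonneg (fun ω : V → Fin N => ∃ u ∈ T', A u \ K ⊆ Z ω)
      have h5 : 1 + 1 * ((1 + (N : ℝ) / κ) ^ L - 1) ≤ 3 := by linarith
      have h6 := h1.trans (mul_le_mul_of_nonneg_left h5 h4)
      linarith
    have h4 := pr_miss_le (b := b) hN T' (fun u => A u \ K) h3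
    have h5 : (1 - 1 / 3 : ℝ) = 2 / 3 := by norm_num
    rw [h5] at h4
    refine (pr_mono fun ω h => ?_).trans h4
    rintro ⟨u, hu, hA⟩
    refine h ⟨u, (mem_filter.1 hu).1, ?_⟩
    intro v hv
    by_cases hvK : v ∈ K
    · exact mem_union_left _ hvK
    · exact mem_union_right _ (hA (mem_sdiff.2 ⟨hv, hvK⟩))

/-- Monotone properties of sets. -/
def Mono (f : Finset V → Prop) : Prop := ∀ X Y, X ⊆ Y → f X → f Y

/-- The property `f` is generated by sets with at most `w` elements. -/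
def Small (w : ℕ) (f : Finset V → Prop) : Prop := ∀ X, f X → ∃ A ⊆ X, A.card ≤ w ∧ f A

/-- The number of sets with at most `L` elements. -/
def numSets (V : Type) [Fintype V] [DecidableEq V] (L : ℕ) : ℕ :=
  (univ.filter fun A : Finset V => A.card ≤ L).card

/-- Approximate closure. -/
theorem exists_closure {Ω : Type} [Fintype Ω] (R : Ω → Finset V) (f : Finset V → Prop)
    (hf : Mono f) {δ : ℝ} (hδ : 0 ≤ δ) (L : ℕ) :
    ∃ g : Finset V → Prop, Mono g ∧ (∀ X, f X → g X) ∧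
      (∀ K : Finset V, K.card ≤ L → pr (fun ω => ¬ g (K ∪ R ω)) ≤ δ → g K) ∧
      pr (fun ω => g (R ω) ∧ ¬ f (R ω)) ≤ numSets V L * δ := by
  classical
  let c : (Finset V → Prop) → ℕ := fun g => (univ.filter fun A : Finset V => A.card ≤ L ∧ g A).card
  let G : Finset (Finset V → Prop) := univ.filter fun g => Mono g ∧ (∀ X, f X → g X) ∧
    pr (fun ω => g (R ω) ∧ ¬ f (R ω)) ≤ (c g - c f) * δ
  have hG : f ∈ G := by
    refine mem_filter.2 ⟨mem_univ _, hf, fun _ h => h, ?_⟩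
    rw [sub_self, zero_mul]
    refine le_of_eq ?_
    rw [pr_def]
    simp
  obtain ⟨g, hg, hmax⟩ := G.exists_max_image c ⟨f, hG⟩
  obtain ⟨hg1, hg2, hg3⟩ := (mem_filter.1 hg).2
  refine ⟨g, hg1, hg2, ?_, ?_⟩
  · intro K hK hp
    by_contra hgK
    obtain ⟨g', hg'd⟩ : ∃ g' : Finset V → Prop, ∀ X, g' X ↔ g X ∨ K ⊆ X :=
      ⟨fun X => g X ∨ K ⊆ X, fun _ => Iff.rfl⟩
    have hc : c g < c g' := by
      refine card_lt_card ((ssubset_iff_of_subset ?_).2 ⟨K, ?_, ?_⟩)
      · intro A hA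
        obtain ⟨h1, h2⟩ := (mem_filter.1 hA).2
        exact mem_filter.2 ⟨mem_univ _, h1, (hg'd _).2 (Or.inl h2)⟩
      · exact mem_filter.2 ⟨mem_univ _, hK, (hg'd _).2 (Or.inr (Subset.refl _))⟩
      · intro hA
        exact hgK (mem_filter.1 hA).2.2
    have hg' : g' ∈ G := by
      refine mem_filter.2 ⟨mem_univ _, ?_, fun X h => (hg'd _).2 (Or.inl (hg2 X h)), ?_⟩
      · intro X Y hXY h
        rcases (hg'd X).1 h with h | h
        · exact (hg'd _).2 (Or.inl (hg1 X Y hXY h))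
        · exact (hg'd _).2 (Or.inr (h.trans hXY))
      · have h1 : pr (fun ω => g' (R ω) ∧ ¬ f (R ω)) ≤
            pr (fun ω => g (R ω) ∧ ¬ f (R ω)) + pr (fun ω => ¬ g (K ∪ R ω)) := by
          refine (pr_mono ?_).trans (pr_or_le _ _)
          rintro ω ⟨h1, h2⟩
          rcases (hg'd _).1 h1 with h1 | h1
          · exact Or.inl ⟨h1, h2⟩
          · by_cases h3 : g (R ω)
            · exact Or.inl ⟨h3, h2⟩
            · refine Or.inr ?_
              rwa [union_eq_right.2 h1]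
        have h2 : (c g : ℝ) + 1 ≤ c g' := by exact_mod_cast hc
        have h3 : ((c g - c f) + 1) * δ ≤ (c g' - c f) * δ :=
          mul_le_mul_of_nonneg_right (by linarith) hδ
        linarith [h1, hg3]
    exact absurd (hmax g' hg') (not_le.2 hc)
  · refine hg3.trans ?_
    refine mul_le_mul_of_nonneg_right ?_ hδ
    have h1 : (c g : ℝ) ≤ numSets V L := by
      have : c g ≤ numSets V L := card_le_card (monotone_filter_right _ fun A _ h => h.1)
      exact_mod_cast this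
    have h2 : (0 : ℝ) ≤ c f := by positivity
    linarith

/-- Monotone computations with `s` conjunctions: each function in the list is a variable, a
constant, or obtained from two functions further down the list. -/
inductive MC : ℕ → List (Finset V → Prop) → Prop
  | nil : MC 0 []
  | var {s F} (v : V) : MC s F → MC s ((fun X => v ∈ X) :: F)
  | tt {s F} : MC s F → MC s ((fun _ => True) :: F)
  | ff {s F} : MC s F → MC s ((fun _ => False) :: F)
  | or {s F f g} : MC s F → f ∈ F → g ∈ F → MC s ((fun X => f X ∨ g X) :: F)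
  | and {s F f g} : MC s F → f ∈ F → g ∈ F → MC (s + 1) ((fun X => f X ∧ g X) :: F)

omit [Fintype V] [DecidableEq V] in
theorem MC.mono {s : ℕ} {F : List (Finset V → Prop)} (h : MC s F) : ∀ f ∈ F, Mono f := by
  induction h with
  | nil => intro f hf; simp at hf
  | var v _ ih =>
    intro f hf
    rcases List.mem_cons.1 hf with rfl | hf
    · exact fun X Y hXY h => hXY h
    · exact ih f hf
  | tt _ ih =>
    intro f hf
    rcases List.mem_cons.1 hf with rfl | hf
    · exact fun X Y hXY h => h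
    · exact ih f hf
  | ff _ ih =>
    intro f hf
    rcases List.mem_cons.1 hf with rfl | hf
    · exact fun X Y hXY h => h
    · exact ih f hf
  | or _ hf₁ hf₂ ih =>
    intro f hf
    rcases List.mem_cons.1 hf with rfl | hf
    · exact fun X Y hXY h => h.imp (ih _ hf₁ X Y hXY) (ih _ hf₂ X Y hXY)
    · exact ih f hf
  | and _ hf₁ hf₂ ih =>
    intro f hf
    rcases List.mem_cons.1 hf with rfl | hf
    · exact fun X Y hXY h => ⟨ih _ hf₁ X Y hXY h.1, ih _ hf₂ X Y hXY h.2⟩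
    · exact ih f hf

section approx

variable [Fintype U] [Nonempty U]

/-- The error on the positive side at a conjunction. -/
theorem trim_error {S : U → Finset V} {q κ : ℝ} {w N b : ℕ} (hN : 0 < N) (hκ : 0 < κ)
    (hκL : ((2 * w : ℕ) : ℝ) * N ≤ κ) (hκq : κ ≤ q) (hS : Spread S q (2 * w))
    {g h₀ : Finset V → Prop} (hg : Mono g) (hg0 : ∀ X, h₀ X → g X) (hh0 : Small (2 * w) h₀)
    (hcl : ∀ K : Finset V, K.card ≤ 2 * w →
      pr (fun ω : Fin b → V → Fin N => ¬ g (K ∪ ZZ ω)) ≤ (2 / 3) ^ b → g K) :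
    pr (fun u => h₀ (S u) ∧ ¬ ∃ A ⊆ S u, A.card ≤ w ∧ g A) ≤ (κ / q) ^ (w + 1) := by
  classical
  have hq : 0 < q := hκ.trans_le hκq
  have hU : (0 : ℝ) < Fintype.card U := by
    have : 0 < Fintype.card U := Fintype.card_pos
    exact_mod_cast this
  set T : Finset U := univ.filter fun u => h₀ (S u) ∧ ¬ ∃ A ⊆ S u, A.card ≤ w ∧ g A with hT
  by_cases hTe : T.Nonempty
  swap
  · have : (pr fun u => h₀ (S u) ∧ ¬ ∃ A ⊆ S u, A.card ≤ w ∧ g A) = 0 := by
      rw [pr_def, ← hT, not_nonempty_iff_eq_empty.1 hTe]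
      simp
    rw [this]
    positivity
  -- minimal accepted subsets
  have hex : ∀ u ∈ T, ∃ A ⊆ S u, g A ∧ A.card ≤ 2 * w ∧ ∀ A' ⊆ S u, g A' → A.card ≤ A'.card := by
    intro u hu
    have hu' := (mem_filter.1 hu).2
    obtain ⟨A₀, hA₀, hc₀, hh⟩ := hh0 _ hu'.1
    have hne : ((S u).powerset.filter g).Nonempty :=
      ⟨A₀, mem_filter.2 ⟨mem_powerset.2 hA₀, hg0 _ hh⟩⟩
    obtain ⟨A, hA, hmin⟩ := exists_min_image _ card hne
    obtain ⟨hA1, hA2⟩ := mem_filter.1 hA
    refine ⟨A, mem_powerset.1 hA1, hA2, ?_, fun A' h1 h2 =>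
      hmin A' (mem_filter.2 ⟨mem_powerset.2 h1, h2⟩)⟩
    exact (hmin A₀ (mem_filter.2 ⟨mem_powerset.2 hA₀, hg0 _ hh⟩)).trans hc₀
  choose! A hA1 hA2 hA3 hA4 using hex
  obtain ⟨K, u₀, hu₀, hK, hcount, hmiss⟩ := exists_core (b := b) hN hκ hκL hq hS T hTe A hA1 hA3
  have hgK : g K := by
    refine hcl K ((card_le_card hK).trans (hA3 u₀ hu₀)) ((pr_mono fun ω h => ?_).trans hmiss)
    rintro ⟨u, hu, hsub⟩
    exact h (hg _ _ hsub (hA2 u hu))
  have hKc : w + 1 ≤ K.card := by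
    by_contra hlt
    exact (mem_filter.1 hu₀).2.2 ⟨K, hK.trans (hA1 u₀ hu₀), by omega, hgK⟩
  rw [pr_def, ← hT]
  have h1 : (T.card : ℝ) / Fintype.card U ≤ (κ / q) ^ K.card := by
    rw [div_pow, div_le_div_iff₀ hU (by positivity)]
    linarith
  refine h1.trans ?_
  exact pow_le_pow_of_le_one (by positivity) ((div_le_one hq).2 hκq) hKc

/-- Approximation of monotone computations. -/
theorem MC.approx {S : U → Finset V} {q κ : ℝ} {w N b : ℕ} (hN : 0 < N) (hw : 1 ≤ w) (hκ : 0 < κ)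
    (hκL : ((2 * w : ℕ) : ℝ) * N ≤ κ) (hκq : κ ≤ q) (hS : Spread S q (2 * w))
    {s : ℕ} {F : List (Finset V → Prop)} (hF : MC s F) :
    ∃ (BY : U → Prop) (BN : (Fin b → V → Fin N) → Prop),
      pr BY ≤ s * (κ / q) ^ (w + 1) ∧ pr BN ≤ s * (numSets V (2 * w) * (2 / 3) ^ b) ∧
      ∀ f ∈ F, ∃ h : Finset V → Prop, Mono h ∧ Small w h ∧
        (∀ u, ¬ BY u → f (S u) → h (S u)) ∧ (∀ ω, ¬ BN ω → h (ZZ ω) → f (ZZ ω)) := by
  induction hF with
  | nil => exact ⟨fun _ => False, fun _ => False, by simp [pr], by simp [pr], by simp⟩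
  | @var s F v _ ih =>
    obtain ⟨BY, BN, h1, h2, h3⟩ := ih
    refine ⟨BY, BN, h1, h2, fun f hf => ?_⟩
    rcases List.mem_cons.1 hf with rfl | hf
    · refine ⟨_, fun X Y hXY h => hXY h, fun X h => ⟨{v}, ?_, ?_, ?_⟩, fun _ _ h => h,
        fun _ _ h => h⟩
      · simpa using h
      · simpa using hw
      · simp
    · exact h3 f hf
  | @tt s F _ ih =>
    obtain ⟨BY, BN, h1, h2, h3⟩ := ih
    refine ⟨BY, BN, h1, h2, fun f hf => ?_⟩
    rcases List.mem_cons.1 hf with rfl | hf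
    · exact ⟨fun _ => True, fun X Y hXY h => h, fun X h => ⟨∅, by simp, by simp, trivial⟩,
        fun _ _ h => h, fun _ _ h => h⟩
    · exact h3 f hf
  | @ff s F _ ih =>
    obtain ⟨BY, BN, h1, h2, h3⟩ := ih
    refine ⟨BY, BN, h1, h2, fun f hf => ?_⟩
    rcases List.mem_cons.1 hf with rfl | hf
    · exact ⟨fun _ => False, fun X Y hXY h => h, fun X h => h.elim, fun _ _ h => h,
        fun _ _ h => h⟩
    · exact h3 f hf
  | @or s F f₁ f₂ _ hf₁ hf₂ ih =>
    obtain ⟨BY, BN, h1, h2, h3⟩ := ih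
    refine ⟨BY, BN, h1, h2, fun f hf => ?_⟩
    rcases List.mem_cons.1 hf with rfl | hf
    · obtain ⟨g₁, a1, a2, a3, a4⟩ := h3 f₁ hf₁
      obtain ⟨g₂, b1, b2, b3, b4⟩ := h3 f₂ hf₂
      refine ⟨fun X => g₁ X ∨ g₂ X, fun X Y hXY h => h.imp (a1 X Y hXY) (b1 X Y hXY), ?_,
        fun u hu h => h.imp (a3 u hu) (b3 u hu), fun ω hω h => h.imp (a4 ω hω) (b4 ω hω)⟩
      rintro X (h | h)
      · obtain ⟨A, c1, c2, c3⟩ := a2 X h
        exact ⟨A, c1, c2, Or.inl c3⟩
      · obtain ⟨A, c1, c2, c3⟩ := b2 X h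
        exact ⟨A, c1, c2, Or.inr c3⟩
    · exact h3 f hf
  | @and s F f₁ f₂ _ hf₁ hf₂ ih =>
    obtain ⟨BY, BN, h1, h2, h3⟩ := ih
    obtain ⟨g₁, a1, a2, a3, a4⟩ := h3 f₁ hf₁
    obtain ⟨g₂, b1, b2, b3, b4⟩ := h3 f₂ hf₂
    set h₀ : Finset V → Prop := fun X => g₁ X ∧ g₂ X with hh₀
    have m0 : Mono h₀ := fun X Y hXY h => ⟨a1 X Y hXY h.1, b1 X Y hXY h.2⟩
    have s0 : Small (2 * w) h₀ := by
      rintro X ⟨x1, x2⟩
      obtain ⟨A, c1, c2, c3⟩ := a2 X x1
      obtain ⟨B, d1, d2, d3⟩ := b2 X x2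
      refine ⟨A ∪ B, union_subset c1 d1, ?_, a1 _ _ subset_union_left c3,
        b1 _ _ subset_union_right d3⟩
      exact (card_union_le A B).trans (by omega)
    obtain ⟨g, g1, g2, g3, g4⟩ := exists_closure (ZZ : (Fin b → V → Fin N) → Finset V) h₀ m0
      (δ := (2 / 3) ^ b) (by positivity) (2 * w)
    have t1 := trim_error hN hκ hκL hκq hS g1 g2 s0 g3
    refine ⟨fun u => BY u ∨ (h₀ (S u) ∧ ¬ ∃ A ⊆ S u, A.card ≤ w ∧ g A),
      fun ω => BN ω ∨ (g (ZZ ω) ∧ ¬ h₀ (ZZ ω)), ?_, ?_, fun f hf => ?_⟩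
    · refine (pr_or_le _ _).trans ?_
      push_cast
      linarith
    · refine (pr_or_le _ _).trans ?_
      push_cast
      linarith
    · rcases List.mem_cons.1 hf with rfl | hf
      · refine ⟨fun X => ∃ A ⊆ X, A.card ≤ w ∧ g A, ?_, ?_, ?_, ?_⟩
        · rintro X Y hXY ⟨A, x1, x2, x3⟩
          exact ⟨A, x1.trans hXY, x2, x3⟩
        · rintro X ⟨A, x1, x2, x3⟩
          exact ⟨A, x1, x2, A, Subset.refl _, x2, x3⟩
        · intro u hu h
          rw [not_or] at hu
          by_contra hc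
          exact hu.2 ⟨⟨a3 u hu.1 h.1, b3 u hu.1 h.2⟩, hc⟩
        · rintro ω hω ⟨A, x1, x2, x3⟩
          rw [not_or] at hω
          have x4 : g (ZZ ω) := g1 _ _ x1 x3
          have x5 : h₀ (ZZ ω) := by
            by_contra hc
            exact hω.2 ⟨x4, hc⟩
          exact ⟨a4 ω hω.1 x5.1, b4 ω hω.1 x5.2⟩
      · obtain ⟨h, y1, y2, y3, y4⟩ := h3 f hf
        exact ⟨h, y1, y2, fun u hu => y3 u (not_or.1 hu).1, fun ω hω => y4 ω (not_or.1 hω).1⟩

theorem num_ineq {x : ℝ} (h0 : 0 < x) (h1 : x ≤ 1) {b : ℕ} (hb : 2 ≤ b) :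
    (1 / (1 + 2 * x)) ^ b ≤ 1 - x + (2 / 3) ^ b := by
  rcases le_total x (1 / 2) with h | h
  · have h2 : (1 / (1 + 2 * x)) ^ b ≤ (1 / (1 + 2 * x)) ^ 2 := by
      refine pow_le_pow_of_le_one (by positivity) ?_ hb
      rw [div_le_one (by positivity)]
      linarith
    have h3 : (1 / (1 + 2 * x)) ^ 2 ≤ 1 - x := by
      rw [div_pow, one_pow, div_le_iff₀ (by positivity)]
      have h4 : x ^ 2 ≤ 1 / 4 := by nlinarith
      nlinarith [mul_nonneg h0.le (sub_nonneg.2 h4)]
    have h4 : (0 : ℝ) ≤ (2 / 3) ^ b := by positivity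
    linarith
  · have h2 : (1 / (1 + 2 * x)) ^ b ≤ (2 / 3) ^ b := by
      refine pow_le_pow_left₀ (by positivity) ?_ b
      rw [div_le_div_iff₀ (by positivity) (by norm_num)]
      linarith
    linarith

/-- Small monotone properties: the sets `S u` are dominated by the random set. -/
theorem small_compare {S : U → Finset V} {q : ℝ} {w N b : ℕ} (hN : 0 < N) (hb : 2 ≤ b)
    (hq : 0 < q) (hqL : 4 * ((2 * w : ℕ) : ℝ) * N ≤ q) (hS : Spread S q (2 * w))
    {h : Finset V → Prop} (hm : Mono h) (hs : Small w h) :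
    pr (fun u => h (S u)) ≤ pr (fun ω : Fin b → V → Fin N => h (ZZ ω)) + (2 / 3) ^ b := by
  classical
  have hU : (0 : ℝ) < Fintype.card U := by
    have : 0 < Fintype.card U := Fintype.card_pos
    exact_mod_cast this
  have hne : Nonempty (Fin N) := ⟨⟨0, hN⟩⟩
  set T : Finset U := univ.filter fun u => h (S u) with hT
  set x := pr (fun u => h (S u)) with hx
  have hxT : x = T.card / Fintype.card U := by rw [hx, pr_def]
  by_cases hTe : T.Nonempty
  swap
  · have : x = 0 := by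
      rw [hxT, not_nonempty_iff_eq_empty.1 hTe]
      simp
    rw [this]
    have := pr_nonneg (fun ω : Fin b → V → Fin N => h (ZZ ω))
    positivity
  have hT0 : (0 : ℝ) < T.card := by exact_mod_cast hTe.card_pos
  have hx0 : 0 < x := by rw [hxT]; positivity
  have hx1 : x ≤ 1 := pr_le_one _
  have hex : ∀ u ∈ T, ∃ A ⊆ S u, A.card ≤ w ∧ h A := fun u hu => hs _ (mem_filter.1 hu).2
  choose! A hA1 hA2 hA3 using hex
  have hcount : ∀ B : Finset V, B.Nonempty →
      ((T.filter fun u => B ⊆ A u).card : ℝ) * q ^ B.card ≤ (1 / x) * T.card := by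
    intro B _
    have e : 1 / x * T.card = Fintype.card U := by
      rw [hxT]; field_simp
    rw [e]
    by_cases hB : B.card ≤ 2 * w
    · refine le_trans ?_ (hS B hB)
      have : (T.filter fun u => B ⊆ A u).card ≤ (univ.filter fun u => B ⊆ S u).card := by
        refine card_le_card fun u hu => ?_
        obtain ⟨h1, h2⟩ := mem_filter.1 hu
        exact mem_filter.2 ⟨mem_univ _, h2.trans (hA1 u h1)⟩
      have : ((T.filter fun u => B ⊆ A u).card : ℝ) ≤ (univ.filter fun u => B ⊆ S u).card := by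
        exact_mod_cast this
      gcongr
    · have : T.filter (fun u => B ⊆ A u) = ∅ := by
        refine filter_false_of_mem fun u hu h => hB ?_
        have h1 := (card_le_card h).trans (hA2 u hu)
        omega
      rw [this]
      simp only [card_empty, Nat.cast_zero, zero_mul]
      positivity
  have h1 := hit_prob T A hTe hN hq (C := 1 / x) (by positivity) (L := 2 * w)
    (fun u hu => (hA2 u hu).trans (by omega)) hcount
  have h2 : (1 + (N : ℝ) / q) ^ (2 * w) ≤ 3 / 2 := by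
    refine (pow_exp_bound (y := 1 / 4) hq (by linarith)).trans ?_
    have h3 : Real.exp (1 / 4) ≤ 1 / (1 - 1 / 4) := by
      have := Real.one_sub_le_exp_neg (1 / 4)
      rw [Real.exp_neg] at this
      rw [le_div_iff₀ (by norm_num)]
      have h4 := Real.exp_pos (1 / 4)
      calc Real.exp (1 / 4) * (1 - 1 / 4) ≤ Real.exp (1 / 4) * (Real.exp (1 / 4))⁻¹ := by gcongr
        _ = 1 := mul_inv_cancel₀ h4.ne'
    linarith
  set p := pr (fun ω : V → Fin N => ∃ u ∈ T, A u ⊆ Z ω) with hp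
  have hp0 : 0 ≤ p := pr_nonneg _
  have h3 : 2 * x / (1 + 2 * x) ≤ p := by
    rw [div_le_iff₀ (by positivity)]
    have h4 : 1 + 1 / x * ((1 + (N : ℝ) / q) ^ (2 * w) - 1) ≤ 1 + 1 / x * (1 / 2) := by
      have : (1 + (N : ℝ) / q) ^ (2 * w) - 1 ≤ 1 / 2 := by linarith
      gcongr
    have h5 := h1.trans (mul_le_mul_of_nonneg_left h4 hp0)
    have h6 := mul_le_mul_of_nonneg_right h5 (by positivity : 0 ≤ 2 * x)
    have h7 : p * (1 + 1 / x * (1 / 2)) * (2 * x) = p * (1 + 2 * x) := by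
      field_simp
      ring
    linarith
  have h4 := pr_miss_le (b := b) hN T A h3
  have h5 : (1 - 2 * x / (1 + 2 * x)) = 1 / (1 + 2 * x) := by
    field_simp
    ring
  rw [h5] at h4
  have h6 : pr (fun ω : Fin b → V → Fin N => ¬ h (ZZ ω)) ≤ (1 / (1 + 2 * x)) ^ b := by
    refine (pr_mono fun ω hω => ?_).trans h4
    rintro ⟨u, hu, hsub⟩
    exact hω (hm _ _ hsub (hA3 u hu))
  rw [pr_compl (fun ω : Fin b → V → Fin N => h (ZZ ω))] at h6
  have h7 := num_ineq hx0 hx1 hb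
  linarith

/-- The main comparison: for a function computed by a monotone computation with `s`
conjunctions, the sets `S u` are accepted with at most the probability with which the random set
is accepted, up to a small error. -/
theorem MC.compare {S : U → Finset V} {q κ : ℝ} {w N b : ℕ} (hN : 0 < N) (hw : 1 ≤ w)
    (hb : 2 ≤ b) (hκ : 0 < κ) (hκL : ((2 * w : ℕ) : ℝ) * N ≤ κ) (hκq : 4 * κ ≤ q)
    (hS : Spread S q (2 * w)) {s : ℕ} {F : List (Finset V → Prop)} (hF : MC s F)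
    {f : Finset V → Prop} (hf : f ∈ F) :
    pr (fun u => f (S u)) ≤ pr (fun ω : Fin b → V → Fin N => f (ZZ ω)) +
      (s * ((κ / q) ^ (w + 1) + numSets V (2 * w) * (2 / 3) ^ b) + (2 / 3) ^ b) := by
  obtain ⟨BY, BN, h1, h2, h3⟩ := hF.approx (b := b) hN hw hκ hκL (by linarith) hS
  obtain ⟨h, y1, y2, y3, y4⟩ := h3 f hf
  have a1 : pr (fun u => f (S u)) ≤ pr (fun u => h (S u)) + pr BY := by
    refine (pr_mono fun u hu => ?_).trans (pr_or_le _ _)
    by_cases hB : BY u
    · exact Or.inr hB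
    · exact Or.inl (y3 u hB hu)
  have a2 : pr (fun ω : Fin b → V → Fin N => h (ZZ ω)) ≤
      pr (fun ω : Fin b → V → Fin N => f (ZZ ω)) + pr BN := by
    refine (pr_mono fun ω hω => ?_).trans (pr_or_le _ _)
    by_cases hB : BN ω
    · exact Or.inr hB
    · exact Or.inl (y4 ω hB hω)
  have a3 := small_compare (b := b) hN hb (by linarith) (q := q) (by linarith) hS y1 y2
  linarith

end approx

end Pool.Agent.Lib.MP_70d3b5_lc
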