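import Pool.Agent.Lib.MP_70d3b5_lc.Verifier

/-!
# Choice of the parameters
-/

open Finset

namespace Pool.Agent.Lib.MP_70d3b5_lc

/-- The input strings used in the lower bound belong to the language iff the set contains the
graph of a polynomial. -/
theorem enc_mem {n w : ℕ} (hw : w < n / 2) (hq : (qq n w).Prime)
    (X : Finset (Fin (kk n w) × ZMod (qq n w))) :
    enc (n / 2) w n X ∈ Lang ↔ ∃ c : Fin (2 * w) → ZMod (qq n w), graph (kk n w) c ⊆ X := by
  have : NeZero (qq n w) := ⟨hq.ne_zero⟩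
  have hle : n / 2 + kk n w * qq n w ≤ n := by
    have := kk_mul_qq n w
    omega
  have hlen : (enc (n / 2) w n X).length = n := length_enc _ _ _ X
  have hInL : InL n w (enc (n / 2) w n X) ↔
      ∃ c : Fin (2 * w) → ZMod (qq n w), graph (kk n w) c ⊆ X := by
    unfold InL
    rw [and_iff_right hq]
    refine exists_congr fun c => ?_
    have key : ∀ i (hi : i < kk n w),
        (enc (n / 2) w n X).getD (n / 2 + i * qq n w +
          (peval c (i : ZMod (qq n w))).val) false = true ↔
        ((⟨i, hi⟩ : Fin (kk n w)), peval c (i : ZMod (qq n w))) ∈ X := by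
      intro i hi
      have h2 : n / 2 + i * qq n w + (peval c (i : ZMod (qq n w))).val =
          pos (n / 2) (((⟨i, hi⟩ : Fin (kk n w)), peval c (i : ZMod (qq n w))) :
            Fin (kk n w) × ZMod (qq n w)) := rfl
      rw [h2, getD_enc X (pos_lt hle _)]
      constructor
      · rintro (h3 | ⟨v, hv, h3⟩)
        · exfalso
          rw [← h2] at h3
          omega
        · rwa [← pos_inj _ h3]
      · intro h3
        exact Or.inr ⟨_, h3, rfl⟩
    constructor
    · intro h v hv
      rw [mem_graph] at hv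
      have h1 := (key v.1 v.1.2).1 (h v.1 v.1.2)
      rwa [hv] at h1
    · intro h i hi
      refine (key i hi).2 (h ?_)
      rw [mem_graph]
  rw [← hInL]
  constructor
  · rintro ⟨w', h1, h2, h3⟩
    rw [hlen] at h1 h3
    rw [getD_enc X (by omega)] at h2
    rcases h2 with h2 | ⟨v, _, h2⟩
    · rwa [h2] at h3
    · exfalso
      unfold pos at h2
      omega
  · intro h
    refine ⟨w, by rwa [hlen], ?_, by rwa [hlen]⟩
    rw [getD_enc X (by omega)]
    exact Or.inl rfl

/-- The number of small subsets. -/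
theorem numSets_le (V : Type) [Fintype V] [DecidableEq V] (L : ℕ) :
    numSets V L ≤ (Fintype.card V + 1) ^ L := by
  classical
  unfold numSets
  -- each set with at most `L` elements is the image of a function from `Fin L` to `Option V`
  have h : (univ.filter fun A : Finset V => A.card ≤ L) ⊆
      (univ : Finset (Fin L → Option V)).image fun f =>
        univ.filter fun v => ∃ i, f i = some v := by
    intro A hA
    rw [mem_filter] at hA
    rw [mem_image]
    have e := A.equivFin
    refine ⟨fun i => if h : (i : ℕ) < A.card then some (e.symm ⟨i, h⟩ : A).1 else none,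
      mem_univ _, ?_⟩
    ext v
    simp only [mem_filter, mem_univ, true_and]
    constructor
    · rintro ⟨i, hi⟩
      by_cases h : (i : ℕ) < A.card
      · rw [dif_pos h] at hi
        rw [← Option.some.inj hi]
        exact (e.symm ⟨i, h⟩).2
      · rw [dif_neg h] at hi
        exact absurd hi (by simp)
    · intro hv
      refine ⟨⟨(e ⟨v, hv⟩ : Fin A.card), (e ⟨v, hv⟩).2.trans_le hA.2⟩, ?_⟩
      rw [dif_pos (e ⟨v, hv⟩).2]
      simp
  refine (card_le_card h).trans (card_image_le.trans ?_)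
  rw [card_univ, Fintype.card_fun, Fintype.card_option, Fintype.card_fin]

/-- Bertrand: the prime `qq n w` is large. -/
theorem lt_qq {n w : ℕ} (h : 2 * kk n w ≤ n / 2) :
    (qq n w).Prime ∧ n < 4 * (kk n w * qq n w) := by
  have hk : 0 < kk n w := by unfold kk; omega
  set Q := n / 2 / kk n w with hQ
  have hQ2 : 2 ≤ Q := (Nat.le_div_iff_mul_le hk).2 h
  obtain ⟨p, hp, h1, h2⟩ := Nat.exists_prime_lt_and_le_two_mul (Q / 2) (by omega)
  have hpQ : p ≤ Q := by omega
  have hq : (qq n w).Prime := Nat.findGreatest_spec hpQ hp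
  have hpq : p ≤ qq n w := Nat.le_findGreatest hpQ hp
  refine ⟨hq, ?_⟩
  have h3 : Q < 2 * qq n w := by omega
  have h4 : n / 2 < kk n w * (Q + 1) := by
    rw [mul_comm]
    exact Nat.lt_mul_of_div_lt (Nat.lt_succ_self Q) hk
  have h5 : kk n w * (Q + 1) ≤ kk n w * (2 * qq n w) := Nat.mul_le_mul_left _ h3
  have h6 : kk n w * (2 * qq n w) = 2 * (kk n w * qq n w) := by ring
  omega

/-- The trade-off between the number of NOT patterns and the number of AND gates. -/
theorem tradeoff {n w : ℕ} {gs : List Gate} {out : ℕ} (hD : Decides Lang n gs out)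
    (hw : 1 ≤ w) (haw : Nat.log 2 n ≤ w)
    (hT : 23040 * (patterns n gs).card * w ^ 3 * (Nat.log 2 n + 1) ^ 2 ≤ n) :
    2 ^ w ≤ ands gs := by
  classical
  by_contra hs
  push Not at hs
  set a := Nat.log 2 n with ha
  set T := (patterns n gs).card with hTdef
  have hT1 : 1 ≤ T := by
    rw [hTdef, Nat.one_le_iff_ne_zero, Finset.card_ne_zero]
    exact (univ_nonempty (α := Fin n → Bool)).image _
  -- integer inequalities
  have i1 : 1 ≤ w * (a + 1) := Nat.one_le_iff_ne_zero.2 (by positivity)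
  have hk5 : kk n w ≤ 5 * (w * (a + 1)) := by
    unfold kk
    rw [← ha]
    have : 2 * w * (a + 1) = 2 * (w * (a + 1)) := by ring
    omega
  have i2 : 23040 * (T * (w * (w * (a + 1))) * (w * (a + 1))) ≤ n := by
    refine le_trans (le_of_eq ?_) hT
    ring
  have i3 : 1 ≤ T * (w * (w * (a + 1))) := Nat.one_le_iff_ne_zero.2 (by positivity)
  have i4 : w * (a + 1) ≤ T * (w * (w * (a + 1))) * (w * (a + 1)) :=
    Nat.le_mul_of_pos_left _ i3
  have h4k : 4 * kk n w ≤ n := by omega
  have hwk : w < kk n w := by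
    unfold kk
    nlinarith [Nat.zero_le (w * Nat.log 2 n)]
  obtain ⟨hq, hn⟩ := lt_qq (n := n) (w := w) (by omega)
  have hwn : w < n / 2 := by omega
  set q := qq n w with hqdef
  set k := kk n w with hkdef
  have i5 : 1152 * (T * (w * (w * (a + 1)))) < q := by
    by_contra hcon
    push Not at hcon
    have j1 : k * q ≤ (5 * (w * (a + 1))) * (1152 * (T * (w * (w * (a + 1))))) :=
      Nat.mul_le_mul hk5 hcon
    have j2 : (5 * (w * (a + 1))) * (1152 * (T * (w * (w * (a + 1))))) =
        5760 * (T * (w * (w * (a + 1))) * (w * (a + 1))) := by ring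
    omega
  set b := 4 * (w * (a + 2)) + 4 with hb
  set m := 6 * T with hm
  have hb12 : b ≤ 12 * (w * (a + 1)) := by
    have : w * (a + 2) = w * (a + 1) + w := by ring
    have : w ≤ w * (a + 1) := Nat.le_mul_of_pos_right _ (Nat.succ_pos a)
    omega
  have hN : 4 * (2 * w * (2 * b * m)) ≤ q := by
    have j1 : 4 * (2 * w * (2 * b * m)) = 96 * (T * (w * b)) := by
      rw [hm]; ring
    have j2 : T * (w * b) ≤ T * (w * (12 * (w * (a + 1)))) :=
      Nat.mul_le_mul_left _ (Nat.mul_le_mul_left _ hb12)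
    have j3 : T * (w * (12 * (w * (a + 1)))) = 12 * (T * (w * (w * (a + 1)))) := by ring
    omega
  have hwb : b ≤ q := by
    have j1 : b ≤ 2 * w * (2 * b * m) := by
      have : 2 * w * (2 * b * m) = b * (4 * w * m) := by ring
      rw [this]
      exact Nat.le_mul_of_pos_right _ (by positivity)
    omega
  have hkb : k ≤ b := by
    rw [hkdef, hb]
    unfold kk
    rw [← ha]
    have : w * (a + 2) = w * (a + 1) + w := by ring
    have : 2 * w * (a + 1) = 2 * (w * (a + 1)) := by ring
    omega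
  have hkq : k ≤ q := hkb.trans hwb
  have h2wk : 2 * w ≤ k := by
    rw [hkdef]
    unfold kk
    nlinarith [Nat.zero_le (w * Nat.log 2 n)]
  -- sizes
  have hn0 : 0 < n := by omega
  have hnlt : n < 2 ^ (a + 1) := Nat.lt_pow_succ_log_self (by norm_num) n
  have hkqn : k * q ≤ n / 2 := kk_mul_qq n w
  have hqn : q ≤ 2 ^ (a + 1) := by
    have : q ≤ k * q := Nat.le_mul_of_pos_left _ (by omega)
    omega
  have hF : Fact q.Prime := ⟨hq⟩
  have hns : numSets (Fin k × ZMod q) (2 * w) ≤ 2 ^ (2 * w * (a + 1)) := by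
    refine (numSets_le _ _).trans ?_
    have e : 2 ^ (2 * w * (a + 1)) = (2 ^ (a + 1)) ^ (2 * w) := by
      rw [← pow_mul, mul_comm (a + 1)]
    rw [Fintype.card_prod, Fintype.card_fin, ZMod.card, e]
    exact Nat.pow_le_pow_left (by omega) _
  refine no_circuit (h := n / 2) (s := w) (n := n) (k := k) (q := q) (w := w) (b := b) (m := m)
    (N := 2 * b * m) hkq (h2wk.trans hkq) hw (by omega) (by omega) le_rfl hN gs out
    (fun X => ?_) (patterns n gs) (fun X => ?_) ?_
  · rw [hD _ (length_enc _ _ _ X)]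
    exact enc_mem hwn hq X
  · unfold patterns
    refine mem_image.2 ⟨fun i => (enc (n / 2) w n X).get (i.cast (length_enc _ _ _ X).symm),
      mem_univ _, ?_⟩
    congr 1
    refine List.ext_get (by simp [length_enc]) fun i h1 h2 => ?_
    simp
  · -- the real inequality
    have hTR : (1 : ℝ) ≤ T := by exact_mod_cast hT1
    have hnsR : (numSets (Fin k × ZMod q) (2 * w) : ℝ) ≤ 2 ^ (2 * w * (a + 1)) := by
      exact_mod_cast hns
    have hδ : ((2 : ℝ) / 3) ^ b ≤ (1 / 2) ^ (2 * w * (a + 1)) * (1 / 4) ^ (w + 1) := by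
      have e1 : b = 2 * (2 * w * (a + 1) + 2 * (w + 1)) := by rw [hb]; ring
      rw [e1, pow_mul]
      have e2 : ((1 : ℝ) / 4) ^ (w + 1) = (1 / 2) ^ (2 * (w + 1)) := by
        rw [pow_mul]
        norm_num
      rw [e2, ← pow_add]
      exact pow_le_pow_left₀ (by norm_num) (by norm_num) _
    have hε' : (numSets (Fin k × ZMod q) (2 * w) : ℝ) * (2 / 3) ^ b ≤ (1 / 4) ^ (w + 1) := by
      calc (numSets (Fin k × ZMod q) (2 * w) : ℝ) * (2 / 3) ^ b
          ≤ 2 ^ (2 * w * (a + 1)) * ((1 / 2) ^ (2 * w * (a + 1)) * (1 / 4) ^ (w + 1)) := by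
            gcongr
        _ = (1 / 4) ^ (w + 1) := by
            rw [← mul_assoc, ← mul_pow]
            norm_num
    have hδ' : ((2 : ℝ) / 3) ^ b ≤ (1 / 4) ^ (w + 1) := by
      refine hδ.trans ?_
      have : ((1 : ℝ) / 2) ^ (2 * w * (a + 1)) ≤ 1 := pow_le_one₀ (by norm_num) (by norm_num)
      have h4 : (0 : ℝ) ≤ (1 / 4) ^ (w + 1) := by positivity
      nlinarith
    have hη : (q : ℝ) ^ (2 * w) * (1 / 2) ^ k ≤ 1 / 8 := by
      have hqR : (q : ℝ) ≤ 2 ^ (a + 1) := by exact_mod_cast hqn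
      have e1 : k = 2 * w * (a + 1) + 3 := rfl
      calc (q : ℝ) ^ (2 * w) * (1 / 2) ^ k
          ≤ (2 ^ (a + 1)) ^ (2 * w) * (1 / 2) ^ k := by gcongr
        _ = 1 / 8 := by
            rw [← pow_mul, mul_comm (a + 1), e1, pow_add, ← mul_assoc, ← mul_pow]
            norm_num
    have hsR : (ands gs : ℝ) ≤ 2 ^ w := by exact_mod_cast hs.le
    have hE : (ands gs : ℝ) * ((1 / 4) ^ (w + 1) +
        numSets (Fin k × ZMod q) (2 * w) * (2 / 3) ^ b) + (2 / 3) ^ b ≤ (1 / 2) ^ w := by
      have h1 : (ands gs : ℝ) * ((1 / 4) ^ (w + 1) +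
          numSets (Fin k × ZMod q) (2 * w) * (2 / 3) ^ b) ≤
          2 ^ w * ((1 / 4) ^ (w + 1) + (1 / 4) ^ (w + 1)) := by gcongr
      have h2 : (2 : ℝ) ^ w * ((1 / 4) ^ (w + 1) + (1 / 4) ^ (w + 1)) = (1 / 2) ^ w / 2 := by
        have : ((1 : ℝ) / 4) ^ w = (1 / 2) ^ w * (1 / 2) ^ w := by
          rw [← mul_pow]; norm_num
        have h3 : (2 : ℝ) ^ w * (1 / 2) ^ w = 1 := by
          rw [← mul_pow]; norm_num
        rw [pow_succ, this]
        linear_combination (1 / 2 : ℝ) * (1 / 2) ^ w * h3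
      have h5 : ((1 : ℝ) / 4) ^ (w + 1) ≤ (1 / 2) ^ w / 2 := by
        have : ((1 : ℝ) / 4) ^ w ≤ (1 / 2) ^ w := pow_le_pow_left₀ (by norm_num) (by norm_num) _
        have h0 : (0 : ℝ) < (1 / 2) ^ w := by positivity
        rw [pow_succ]
        linarith
      linarith
    have h2w : (8 * m : ℝ) ≤ 2 ^ w := by
      have j1 : n < 2 * 2 ^ w := by
        refine hnlt.trans_le ?_
        rw [pow_succ, mul_comm]
        exact Nat.mul_le_mul_left _ (Nat.pow_le_pow_right (by norm_num) haw)
      have j2 : T ≤ T * (w * (w * (a + 1))) * (w * (a + 1)) := by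
        have : T ≤ T * (w * (w * (a + 1))) :=
          Nat.le_mul_of_pos_right _ (by positivity)
        exact this.trans (Nat.le_mul_of_pos_right _ i1)
      have j3 : 8 * m ≤ 2 ^ w := by omega
      exact_mod_cast j3
    have hmE : (m : ℝ) * (ands gs * ((1 / 4) ^ (w + 1) +
        numSets (Fin k × ZMod q) (2 * w) * (2 / 3) ^ b) + (2 / 3) ^ b) ≤ 1 / 8 := by
      have h0 : (0 : ℝ) < (1 / 2) ^ w := by positivity
      have h3 : (2 : ℝ) ^ w * (1 / 2) ^ w = 1 := by
        rw [← mul_pow]; norm_num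
      have h4 : (m : ℝ) * (ands gs * ((1 / 4) ^ (w + 1) +
          numSets (Fin k × ZMod q) (2 * w) * (2 / 3) ^ b) + (2 / 3) ^ b) ≤ m * (1 / 2) ^ w := by
        gcongr
      nlinarith
    have hmR : (m : ℝ) = 6 * T := by rw [hm]; push_cast; ring
    have h2T : ((2 * T : ℕ) : ℝ) = 2 * T := by push_cast; ring
    rw [h2T]
    have h6 : (2 * (T : ℝ)) * (1 + m * (ands gs * ((1 / 4) ^ (w + 1) +
        numSets (Fin k × ZMod q) (2 * w) * (2 / 3) ^ b) + (2 / 3) ^ b)) ≤
        (2 * (T : ℝ)) * (1 + 1 / 8) := by gcongr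
    have h7 : (m : ℝ) * ((q : ℝ) ^ (2 * w) * (1 / 2) ^ k) ≤ m * (1 / 8) := by gcongr
    rw [hmR] at h7 ⊢
    rw [hmR] at h6
    linarith

end Pool.Agent.Lib.MP_70d3b5_lc
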