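import Pool.Agent.Lib.MP_70d3b5_lc.Feas

/-!
# Closure properties of the class of feasible functions
-/

open Pool.Agent.Lib.PolyTM

namespace Pool.Agent.Lib.MP_70d3b5_lc

variable {A : Type} {r : ℕ}

theorem Feas.congr {f g : List A → (Fin r → ℕ) → ℕ} (hf : Feas f) (h : ∀ x v, g x v = f x v) :
    Feas g := by
  have : g = f := funext fun x => funext fun v => h x v
  rwa [this]

theorem Feas.comp1 {F : ℕ → ℕ} (hF : Feas (fun (_ : List A) (v : Fin 1 → ℕ) => F (v 0)))
    {g : List A → (Fin r → ℕ) → ℕ} (hg : Feas g) : Feas (fun x v => F (g x v)) :=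
  Feas.comp hF (g := fun _ => g) fun _ => hg

theorem Feas.comp2 {F : ℕ → ℕ → ℕ} (hF : Feas (fun (_ : List A) (v : Fin 2 → ℕ) => F (v 0) (v 1)))
    {g h : List A → (Fin r → ℕ) → ℕ} (hg : Feas g) (hh : Feas h) :
    Feas (fun x v => F (g x v) (h x v)) := by
  refine (Feas.comp hF (g := fun i => if i = 0 then g else h) fun i => ?_).congr fun x v => ?_
  · split_ifs
    · exact hg
    · exact hh
  · simp

/-- Substitution of variables. -/
theorem Feas.subst {s : ℕ} {f : List A → (Fin r → ℕ) → ℕ} (hf : Feas f) (σ : Fin r → Fin s) :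
    Feas (fun x (u : Fin s → ℕ) => f x fun i => u (σ i)) :=
  Feas.comp hf (g := fun i _ u => u (σ i)) fun i => Feas.proj (σ i)

/-- Primitive recursion in which the step depends on the accumulator and the parameters. -/
theorem Feas.rec' {a n B : List A → (Fin r → ℕ) → ℕ}
    {G : List A → ℕ → ℕ → (Fin r → ℕ) → ℕ} (ha : Feas a) (hn : Feas n)
    (hG : Feas (fun x (u : Fin (r + 2) → ℕ) => G x (u 0) (u 1) (fun i => u i.succ.succ)))
    (hB : Feas B)
    (hb : ∀ x v, ∀ k ≤ n x v, Nat.rec (a x v) (fun i acc => G x i acc v) k ≤ B x v) :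
    Feas (fun x v => Nat.rec (a x v) (fun i acc => G x i acc v) (n x v)) := by
  refine Feas.rec ha hn hG ?_
  obtain ⟨_, P, hP⟩ := hB
  exact ⟨P, fun x v k hk => (hb x v k hk).trans (hP x v)⟩

theorem Feas.succ' {f : List A → (Fin r → ℕ) → ℕ} (hf : Feas f) : Feas (fun x v => f x v + 1) :=
  Feas.comp1 (F := fun n => n + 1) (Feas.succ 0) hf

theorem rec_add (a k : ℕ) : Nat.rec (motive := fun _ => ℕ) a (fun _ acc => acc + 1) k = a + k := by
  induction k with
  | zero => rfl
  | succ k ih => simp only [ih]; rfl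

theorem Feas.add {f g : List A → (Fin r → ℕ) → ℕ} (hf : Feas f) (hg : Feas g) :
    Feas (fun x v => f x v + g x v) := by
  refine Feas.comp2 (F := fun a b => a + b) ?_ hf hg
  refine (Feas.rec (a := fun _ v => v 0) (n := fun _ v => v 1) (G := fun _ _ acc _ => acc + 1)
    (Feas.proj 0) (Feas.proj 1) (Feas.succ 1) ⟨Polynomial.X, fun x v k hk => ?_⟩).congr
    fun x v => ?_
  · rw [rec_add, Polynomial.eval_X]
    unfold sz
    rw [Fin.sum_univ_two]
    omega
  · rw [rec_add]

theorem rec_mul (a k : ℕ) :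
    Nat.rec (motive := fun _ => ℕ) 0 (fun _ acc => acc + a) k = a * k := by
  induction k with
  | zero => rfl
  | succ k ih => simp only [ih]; ring

theorem Feas.mul {f g : List A → (Fin r → ℕ) → ℕ} (hf : Feas f) (hg : Feas g) :
    Feas (fun x v => f x v * g x v) := by
  refine Feas.comp2 (F := fun a b => a * b) ?_ hf hg
  refine (Feas.rec (a := fun _ v => 0) (n := fun _ v => v 1) (G := fun _ _ acc v => acc + v 0)
    (Feas.const 0) (Feas.proj 1) ((Feas.proj 1).add (Feas.proj 2))
    ⟨Polynomial.X * Polynomial.X, fun x v k hk => ?_⟩).congr fun x v => ?_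
  · rw [rec_mul, Polynomial.eval_mul, Polynomial.eval_X]
    exact Nat.mul_le_mul (le_sz x v 0) (hk.trans (le_sz x v 1))
  · rw [rec_mul]

theorem rec_pred (k : ℕ) : Nat.rec (motive := fun _ => ℕ) 0 (fun i _ => i) k = k - 1 := by
  cases k <;> rfl

theorem Feas.pred {f : List A → (Fin r → ℕ) → ℕ} (hf : Feas f) : Feas (fun x v => f x v - 1) := by
  refine Feas.comp1 (F := fun n => n - 1) ?_ hf
  refine (Feas.rec (a := fun _ v => 0) (n := fun _ v => v 0) (G := fun _ i _ _ => i)
    (Feas.const 0) (Feas.proj 0) (Feas.proj 0) ⟨Polynomial.X, fun x v k hk => ?_⟩).congr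
    fun x v => ?_
  · rw [rec_pred, Polynomial.eval_X]
    have := le_sz x v 0
    omega
  · rw [rec_pred]

theorem rec_sub (a k : ℕ) :
    Nat.rec (motive := fun _ => ℕ) a (fun _ acc => acc - 1) k = a - k := by
  induction k with
  | zero => rfl
  | succ k ih => simp only [ih]; omega

theorem Feas.sub {f g : List A → (Fin r → ℕ) → ℕ} (hf : Feas f) (hg : Feas g) :
    Feas (fun x v => f x v - g x v) := by
  refine Feas.comp2 (F := fun a b => a - b) ?_ hf hg
  refine (Feas.rec (a := fun _ v => v 0) (n := fun _ v => v 1) (G := fun _ _ acc _ => acc - 1)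
    (Feas.proj 0) (Feas.proj 1) (Feas.pred (Feas.proj 1)) ⟨Polynomial.X, fun x v k hk => ?_⟩).congr
    fun x v => ?_
  · rw [rec_sub, Polynomial.eval_X]
    have := le_sz x v 0
    omega
  · rw [rec_sub]

theorem rec_ite (a b k : ℕ) :
    Nat.rec (motive := fun _ => ℕ) a (fun _ _ => b) k = if k = 0 then a else b := by
  cases k <;> rfl

theorem Feas.ite0 {c f g : List A → (Fin r → ℕ) → ℕ} (hc : Feas c) (hf : Feas f) (hg : Feas g) :
    Feas (fun x v => if c x v = 0 then f x v else g x v) := by
  refine (Feas.rec' (G := fun x _ _ v => g x v) hf hc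
    (hg.subst fun i => i.succ.succ) (hf.add hg) (fun x v k _ => ?_)).congr fun x v => ?_
  · rw [rec_ite]
    split_ifs <;> omega
  · rw [rec_ite]

open Classical in
/-- Feasible predicates. -/
def FeasP (p : List A → (Fin r → ℕ) → Prop) : Prop := Feas fun x v => if p x v then 1 else 0

open Classical in
theorem FeasP.congr {p q : List A → (Fin r → ℕ) → Prop} (hp : FeasP p)
    (h : ∀ x v, q x v ↔ p x v) : FeasP q :=
  Feas.congr hp fun x v => by simp only [h]

theorem Feas.ite {p : List A → (Fin r → ℕ) → Prop} [∀ x v, Decidable (p x v)]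
    {f g : List A → (Fin r → ℕ) → ℕ} (hp : FeasP p) (hf : Feas f) (hg : Feas g) :
    Feas (fun x v => if p x v then f x v else g x v) := by
  refine (Feas.ite0 hp hg hf).congr fun x v => ?_
  by_cases h : p x v <;> simp [h]

theorem FeasP.feas {p : List A → (Fin r → ℕ) → Prop} [∀ x v, Decidable (p x v)] (hp : FeasP p) :
    Feas fun x v => if p x v then 1 else 0 :=
  Feas.ite hp (Feas.const 1) (Feas.const 0)

theorem FeasP.of {p : List A → (Fin r → ℕ) → Prop} [∀ x v, Decidable (p x v)]
    (hp : Feas fun x v => if p x v then 1 else 0) : FeasP p :=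
  hp.congr fun x v => by
    by_cases h : p x v <;> simp [h]

theorem FeasP.not {p : List A → (Fin r → ℕ) → Prop} (hp : FeasP p) : FeasP fun x v => ¬ p x v := by
  classical
  refine (Feas.ite hp (Feas.const 0) (Feas.const 1)).congr fun x v => ?_
  by_cases h : p x v <;> simp [h]

theorem FeasP.and {p q : List A → (Fin r → ℕ) → Prop} (hp : FeasP p) (hq : FeasP q) :
    FeasP fun x v => p x v ∧ q x v := by
  classical
  refine (Feas.ite hp hq (Feas.const 0)).congr fun x v => ?_
  by_cases h : p x v <;> simp [h]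

theorem FeasP.or {p q : List A → (Fin r → ℕ) → Prop} (hp : FeasP p) (hq : FeasP q) :
    FeasP fun x v => p x v ∨ q x v :=
  (hp.not.and hq.not).not.congr fun x v => by tauto

theorem FeasP.imp {p q : List A → (Fin r → ℕ) → Prop} (hp : FeasP p) (hq : FeasP q) :
    FeasP fun x v => p x v → q x v :=
  (hp.and hq.not).not.congr fun x v => by tauto

theorem FeasP.eq0 {f : List A → (Fin r → ℕ) → ℕ} (hf : Feas f) : FeasP fun x v => f x v = 0 :=
  FeasP.of (Feas.ite0 hf (Feas.const 1) (Feas.const 0))

theorem FeasP.le {f g : List A → (Fin r → ℕ) → ℕ} (hf : Feas f) (hg : Feas g) :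
    FeasP fun x v => f x v ≤ g x v :=
  (FeasP.eq0 (hf.sub hg)).congr fun x v => by omega

theorem FeasP.lt {f g : List A → (Fin r → ℕ) → ℕ} (hf : Feas f) (hg : Feas g) :
    FeasP fun x v => f x v < g x v :=
  (FeasP.le hg hf).not.congr fun x v => by omega

theorem FeasP.eq {f g : List A → (Fin r → ℕ) → ℕ} (hf : Feas f) (hg : Feas g) :
    FeasP fun x v => f x v = g x v :=
  ((FeasP.le hf hg).and (FeasP.le hg hf)).congr fun x v => by omega

/-- Tests on the input string. -/
theorem FeasP.sym {f : List A → (Fin r → ℕ) → ℕ} (hf : Feas f) (s : Option A) :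
    FeasP fun x v => x[f x v]? = s := by
  classical
  exact FeasP.of ((Feas.comp (Feas.sym (A := A) (r := 1) 0 s) (g := fun _ => f) fun _ => hf).congr
    fun x v => by congr)

theorem FeasP.subst {s : ℕ} {p : List A → (Fin r → ℕ) → Prop} (hp : FeasP p) (σ : Fin r → Fin s) :
    FeasP (fun x (u : Fin s → ℕ) => p x fun i => u (σ i)) :=
  Feas.subst hp σ

/-- From one additional variable to two. -/
def skip2 : Fin (r + 1) → Fin (r + 2) := Fin.cons 0 fun i => i.succ.succ

theorem Feas.skip2 {f : List A → ℕ → (Fin r → ℕ) → ℕ}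
    (hf : Feas (fun x (w : Fin (r + 1) → ℕ) => f x (w 0) (fun i => w i.succ))) :
    Feas (fun x (u : Fin (r + 2) → ℕ) => f x (u 0) (fun i => u i.succ.succ)) :=
  (hf.subst MP_70d3b5_lc.skip2).congr fun _ _ => rfl

theorem FeasP.skip2 {p : List A → ℕ → (Fin r → ℕ) → Prop}
    (hp : FeasP (fun x (w : Fin (r + 1) → ℕ) => p x (w 0) (fun i => w i.succ))) :
    FeasP (fun x (u : Fin (r + 2) → ℕ) => p x (u 0) (fun i => u i.succ.succ)) := by
  classical
  exact Feas.skip2 (f := fun x i v => if p x i v then 1 else 0) hp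

open Classical in
theorem rec_ball (p : ℕ → Prop) (k : ℕ) :
    Nat.rec (motive := fun _ => ℕ) 1 (fun i acc => if p i then acc else 0) k =
      if ∀ i < k, p i then 1 else 0 := by
  induction k with
  | zero => simp
  | succ k ih =>
    simp only [ih]
    by_cases h : p k
    · rw [if_pos h]
      have : (∀ i < k + 1, p i) ↔ ∀ i < k, p i := by
        constructor
        · intro h' i hi; exact h' i (by omega)
        · intro h' i hi
          rcases Nat.lt_succ_iff_lt_or_eq.1 hi with h1 | rfl
          · exact h' i h1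
          · exact h
      simp only [this]
    · rw [if_neg h, if_neg]
      intro h'
      exact h (h' k (Nat.lt_succ_self k))

/-- Bounded universal quantification. -/
theorem FeasP.ball {p : List A → ℕ → (Fin r → ℕ) → Prop} {n : List A → (Fin r → ℕ) → ℕ}
    (hn : Feas n)
    (hp : FeasP (fun x (w : Fin (r + 1) → ℕ) => p x (w 0) (fun i => w i.succ))) :
    FeasP fun x v => ∀ i < n x v, p x i v := by
  classical
  have h1 : FeasP (fun x (u : Fin (r + 2) → ℕ) => p x (u 0) (fun i => u i.succ.succ)) :=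
    FeasP.skip2 hp
  refine (Feas.rec' (a := fun _ _ => 1) (B := fun _ _ => 1)
    (G := fun x i acc v => if p x i v then acc else 0) (Feas.const 1) hn
    (Feas.ite h1 (Feas.proj 1) (Feas.const 0)) (Feas.const 1) (fun x v k _ => ?_)).congr
    fun x v => ?_
  · rw [rec_ball (fun i => p x i v)]
    split_ifs <;> omega
  · rw [rec_ball (fun i => p x i v)]
    beta_reduce
    congr

theorem rec_findGreatest (p : ℕ → Prop) [DecidablePred p] (k : ℕ) :
    Nat.rec (motive := fun _ => ℕ) 0 (fun i acc => if p (i + 1) then i + 1 else acc) k =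
      Nat.findGreatest p k := by
  induction k with
  | zero => simp
  | succ k ih =>
    simp only [ih]
    rw [Nat.findGreatest_succ]

/-- The greatest number up to a bound with a given property. -/
theorem Feas.findGreatest {p : List A → ℕ → (Fin r → ℕ) → Prop} {n : List A → (Fin r → ℕ) → ℕ}
    [∀ x i v, Decidable (p x i v)] (hn : Feas n)
    (hp : FeasP (fun x (w : Fin (r + 1) → ℕ) => p x (w 0) (fun i => w i.succ))) :
    Feas fun x v => Nat.findGreatest (fun i => p x i v) (n x v) := by
  have h0 : FeasP (fun x (w : Fin (r + 1) → ℕ) => p x (w 0 + 1) (fun i => w i.succ)) := by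
    refine FeasP.of ((Feas.comp (FeasP.feas hp)
      (g := Fin.cons (fun _ w => w 0 + 1) (fun i _ w => w i.succ)) fun i => ?_).congr
        fun x v => ?_)
    · refine Fin.cases ?_ (fun i => ?_) i
      · simp only [Fin.cons_zero]
        exact Feas.succ 0
      · simp only [Fin.cons_succ]
        exact Feas.proj _
    · simp only [Fin.cons_zero, Fin.cons_succ]
  have h1 : FeasP (fun x (u : Fin (r + 2) → ℕ) => p x (u 0 + 1) (fun i => u i.succ.succ)) :=
    FeasP.skip2 (p := fun x i v => p x (i + 1) v) h0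
  refine (Feas.rec' (a := fun _ _ => 0) (B := n)
    (G := fun x i acc v => if p x (i + 1) v then i + 1 else acc) (Feas.const 0) hn
    (Feas.ite h1 (Feas.succ 0) (Feas.proj 1)) hn (fun x v k hk => ?_)).congr
    fun x v => ?_
  · rw [rec_findGreatest (fun i => p x i v)]
    exact (Nat.findGreatest_le k).trans hk
  · rw [rec_findGreatest (fun i => p x i v)]

theorem rec_count (p : ℕ → Prop) [DecidablePred p] (k : ℕ) :
    Nat.rec (motive := fun _ => ℕ) 0 (fun i acc => if p i then acc + 1 else acc) k =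
      ((Finset.range k).filter p).card := by
  induction k with
  | zero => simp
  | succ k ih =>
    simp only [ih]
    rw [Finset.range_add_one, Finset.filter_insert]
    split_ifs with h
    · rw [Finset.card_insert_of_notMem (by simp)]
    · rfl

/-- The number of numbers below a bound with a given property. -/
theorem Feas.count {p : List A → ℕ → (Fin r → ℕ) → Prop} {n : List A → (Fin r → ℕ) → ℕ}
    [∀ x i v, Decidable (p x i v)] (hn : Feas n)
    (hp : FeasP (fun x (w : Fin (r + 1) → ℕ) => p x (w 0) (fun i => w i.succ))) :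
    Feas fun x v => ((Finset.range (n x v)).filter fun i => p x i v).card := by
  have h1 : FeasP (fun x (u : Fin (r + 2) → ℕ) => p x (u 0) (fun i => u i.succ.succ)) :=
    FeasP.skip2 hp
  refine (Feas.rec' (a := fun _ _ => 0) (B := n)
    (G := fun x i acc v => if p x i v then acc + 1 else acc) (Feas.const 0) hn
    (Feas.ite h1 (Feas.succ 1) (Feas.proj 1)) hn (fun x v k hk => ?_)).congr
    fun x v => ?_
  · rw [rec_count (fun i => p x i v)]
    exact ((Finset.card_filter_le _ _).trans (by simp)).trans hk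
  · rw [rec_count (fun i => p x i v)]

theorem Feas.div {f g : List A → (Fin r → ℕ) → ℕ} (hf : Feas f) (hg : Feas g) :
    Feas (fun x v => f x v / g x v) := by
  classical
  refine Feas.comp2 (F := fun a b => a / b) ?_ hf hg
  have h1 : Feas (fun (x : List A) (v : Fin 2 → ℕ) =>
      Nat.findGreatest (fun i => i * v 1 ≤ v 0) (v 0)) :=
    Feas.findGreatest (p := fun _ i v => i * v 1 ≤ v 0) (Feas.proj 0)
      (FeasP.le ((Feas.proj 0).mul (Feas.proj 2)) (Feas.proj 1))
  refine (Feas.ite0 (Feas.proj 1) (Feas.const 0) h1).congr fun x v => ?_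
  split_ifs with h
  · rw [h, Nat.div_zero]
  · symm
    rw [Nat.findGreatest_eq_iff]
    have hpos : 0 < v 1 := Nat.pos_of_ne_zero h
    refine ⟨Nat.div_le_self _ _, fun _ => Nat.div_mul_le_self _ _, fun n hn _ hc => ?_⟩
    exact absurd ((Nat.le_div_iff_mul_le hpos).2 hc) (not_le.2 hn)

theorem Feas.mod {f g : List A → (Fin r → ℕ) → ℕ} (hf : Feas f) (hg : Feas g) :
    Feas (fun x v => f x v % g x v) :=
  (hf.sub (hg.mul (hf.div hg))).congr fun x v => by
    have := Nat.mod_add_div (f x v) (g x v)
    omega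

theorem Feas.pow {f : List A → (Fin r → ℕ) → ℕ} (hf : Feas f) (k : ℕ) :
    Feas (fun x v => f x v ^ k) := by
  induction k with
  | zero => exact (Feas.const 1).congr fun x v => by simp
  | succ k ih => exact (ih.mul hf).congr fun x v => by rw [pow_succ]

/-- Primality is feasible (in unary). -/
theorem FeasP.prime {f : List A → (Fin r → ℕ) → ℕ} (hf : Feas f) :
    FeasP fun x v => (f x v).Prime := by
  have h1 : FeasP (fun (x : List A) (v : Fin 1 → ℕ) =>
      2 ≤ v 0 ∧ ∀ i < v 0, (2 ≤ i → ¬ v 0 % i = 0)) := by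
    refine (FeasP.le (Feas.const 2) (Feas.proj 0)).and (FeasP.ball
      (p := fun _ i v => 2 ≤ i → ¬ v 0 % i = 0) (Feas.proj 0) ?_)
    exact (FeasP.le (Feas.const 2) (Feas.proj 0)).imp
      (FeasP.eq0 (Feas.mod (Feas.proj 1) (Feas.proj 0))).not
  have h2 : FeasP (fun (x : List A) (v : Fin 1 → ℕ) => (v 0).Prime) := by
    refine h1.congr fun x v => ?_
    rw [Nat.prime_def_lt']
    refine and_congr_right fun _ => ?_
    constructor
    · intro h i hi h2 h3
      exact h i h2 hi (Nat.dvd_of_mod_eq_zero h3)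
    · intro h i h2 hi h3
      exact h i hi h2 (Nat.mod_eq_zero_of_dvd h3)
  exact FeasP.of (Feas.comp1 (F := fun n => if n.Prime then 1 else 0) h2.feas hf)

theorem rec_capped (n k : ℕ) :
    Nat.rec (motive := fun _ => ℕ) 1 (fun _ acc => if 2 * acc ≤ n then 2 * acc else n + 1) k =
      if 2 ^ k ≤ n then 2 ^ k else if k = 0 then 1 else n + 1 := by
  induction k with
  | zero => simp
  | succ k ih =>
    simp only [ih]
    have e : 2 ^ (k + 1) = 2 * 2 ^ k := by ring
    by_cases h1 : 2 ^ k ≤ n
    · rw [if_pos h1, e]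
      simp
    · rw [if_neg h1, if_neg (show ¬ 2 ^ (k + 1) ≤ n by rw [e]; omega),
        if_neg (Nat.succ_ne_zero k)]
      by_cases h2 : k = 0
      · subst h2
        rw [if_pos rfl]
        have : n = 0 := by simpa using h1
        subst this
        rfl
      · rw [if_neg h2, if_neg (by omega)]

/-- The integer logarithm is feasible. -/
theorem Feas.log {f : List A → (Fin r → ℕ) → ℕ} (hf : Feas f) :
    Feas fun x v => Nat.log 2 (f x v) := by
  classical
  refine Feas.comp1 (F := fun n => Nat.log 2 n) ?_ hf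
  have h1 : Feas (fun (x : List A) (v : Fin 2 → ℕ) =>
      if 2 ^ (v 0) ≤ v 1 then 2 ^ (v 0) else if v 0 = 0 then 1 else v 1 + 1) := by
    refine (Feas.rec' (r := 2) (a := fun _ _ => 1) (n := fun _ v => v 0) (B := fun _ v => v 1 + 1)
      (G := fun _ _ acc v => if 2 * acc ≤ v 1 then 2 * acc else v 1 + 1) (Feas.const 1)
      (Feas.proj 0) ?_ (Feas.succ (r := 2) 1) (fun x v k _ => ?_)).congr fun x v => ?_
    · exact Feas.ite (FeasP.le ((Feas.const 2).mul (Feas.proj 1)) (Feas.proj 3))
        ((Feas.const 2).mul (Feas.proj 1)) (Feas.succ (r := 4) 3)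
    · rw [rec_capped]
      split_ifs <;> omega
    · rw [rec_capped]
  have h2 : FeasP (fun (x : List A) (w : Fin 2 → ℕ) => 2 ^ (w 0) ≤ w 1) := by
    refine ((FeasP.le h1 (Feas.proj 1)).and
      ((FeasP.eq0 (Feas.proj 1)).not)).congr fun x v => ?_
    have hp : 0 < 2 ^ (v 0) := by positivity
    split_ifs with h3 h4
    · refine ⟨fun h => ⟨h, by omega⟩, fun h => h.1⟩
    · rw [h4, pow_zero]
      omega
    · omega
  refine (Feas.findGreatest (p := fun _ i v => 2 ^ i ≤ v 0) (Feas.proj 0) h2).congr fun x v => ?_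
  symm
  rw [Nat.findGreatest_eq_iff]
  refine ⟨Nat.log_le_self _ _, fun h => ?_, fun n hn _ hc => ?_⟩
  · exact Nat.pow_log_le_self 2 (by
      intro h0
      rw [h0] at h
      simp at h)
  · have : v 0 ≠ 0 := by
      have : 0 < 2 ^ n := by positivity
      omega
    exact absurd (Nat.le_log_of_pow_le (by norm_num) hc) (not_le.2 hn)

end Pool.Agent.Lib.MP_70d3b5_lc
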