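import Pool.Agent.Lib.MP_70d3b5_lc.Circuit

/-!
# The lower bound for one input length
-/

open Finset

namespace Pool.Agent.Lib.MP_70d3b5_lc

section enc

variable {k q : ℕ}

/-- The number of the variable that belongs to `v`. -/
def pos (h : ℕ) (v : Fin k × ZMod q) : ℕ := h + v.1 * q + v.2.val

theorem pos_inj [NeZero q] (h : ℕ) : Function.Injective (pos h : Fin k × ZMod q → ℕ) := by
  intro v v' e
  unfold pos at e
  have h1 := ZMod.val_lt v.2
  have h2 := ZMod.val_lt v'.2
  have h0 : (v.1 : ℕ) * q + v.2.val = (v'.1 : ℕ) * q + v'.2.val := by omega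
  have h3 : (v.1 : ℕ) = v'.1 := by
    have e1 : ((v.1 : ℕ) * q + v.2.val) / q = v.1 := by
      rw [mul_comm, Nat.mul_add_div (NeZero.pos q), Nat.div_eq_of_lt h1, add_zero]
    have e2 : ((v'.1 : ℕ) * q + v'.2.val) / q = v'.1 := by
      rw [mul_comm, Nat.mul_add_div (NeZero.pos q), Nat.div_eq_of_lt h2, add_zero]
    rw [← e1, ← e2, h0]
  have h4 : v.2.val = v'.2.val := by
    rw [h3] at h0
    omega
  exact Prod.ext (Fin.ext h3) (ZMod.val_injective q h4)

theorem pos_lt [NeZero q] {h n : ℕ} (hn : h + k * q ≤ n) (v : Fin k × ZMod q) :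
    pos h v < n := by
  have h1 := ZMod.val_lt v.2
  have h2 : ((v.1 : ℕ) + 1) * q ≤ k * q := Nat.mul_le_mul_right q v.1.2
  rw [Nat.add_mul, one_mul] at h2
  unfold pos
  omega

open Classical in
/-- The input string of length `n` that belongs to a set `X`: the bit `s` is set, and the
positions from `h` on describe `X`. -/
noncomputable def enc (h s n : ℕ) (X : Finset (Fin k × ZMod q)) : List Bool :=
  (List.range n).map fun p => decide (p = s ∨ ∃ v ∈ X, pos h v = p)

/-- The functions on the input wires. -/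
def inputs (h s n : ℕ) : List (Finset (Fin k × ZMod q) → Prop) :=
  (List.range n).map fun p X => p = s ∨ ∃ v ∈ X, pos h v = p

theorem length_enc (h s n : ℕ) (X : Finset (Fin k × ZMod q)) : (enc h s n X).length = n := by
  simp [enc]

theorem getD_enc {h s n : ℕ} (X : Finset (Fin k × ZMod q)) {p : ℕ} (hp : p < n) :
    (enc h s n X).getD p false = true ↔ p = s ∨ ∃ v ∈ X, pos h v = p := by
  simp [enc, List.getD_eq_getElem?_getD, hp]

theorem match_enc (h s n : ℕ) (X : Finset (Fin k × ZMod q)) :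
    Match (enc h s n X) (inputs h s n) X := by
  refine ⟨by simp [enc, inputs], fun i => ?_⟩
  by_cases hi : i < n
  · rw [getD_enc X hi]
    simp [wire, inputs, List.getD_eq_getElem?_getD, hi]
  · simp [enc, wire, inputs, List.getD_eq_getElem?_getD, hi]

theorem inputs_mc [NeZero q] (h s n : ℕ) : ∃ F : List (Finset (Fin k × ZMod q) → Prop),
    MC 0 F ∧ ∀ i, wire (inputs h s n) i ∈ F := by
  classical
  have h1 : ∀ l : List (Fin k × ZMod q), ∃ F : List (Finset (Fin k × ZMod q) → Prop), MC 0 F ∧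
      (∀ v ∈ l, (fun X : Finset (Fin k × ZMod q) => v ∈ X) ∈ F) ∧ (fun _ => False) ∈ F ∧
      (fun _ => True) ∈ F := by
    intro l
    induction l with
    | nil => exact ⟨_, MC.nil.ff.tt, by simp, by simp, by simp⟩
    | cons v l ih =>
      obtain ⟨F, a1, a2, a3, a4⟩ := ih
      refine ⟨_, a1.var v, ?_, List.mem_cons_of_mem _ a3, List.mem_cons_of_mem _ a4⟩
      intro u hu
      rcases List.mem_cons.1 hu with rfl | hu
      · exact List.mem_cons_self ..
      · exact List.mem_cons_of_mem _ (a2 u hu)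
  obtain ⟨F, a1, a2, a3, a4⟩ := h1 univ.toList
  refine ⟨F, a1, fun i => ?_⟩
  by_cases hi : i < n
  · have e : wire (inputs h s n) i =
        fun X : Finset (Fin k × ZMod q) => i = s ∨ ∃ v ∈ X, pos h v = i := by
      simp [wire, inputs, List.getD_eq_getElem?_getD, hi]
    rw [e]
    by_cases his : i = s
    · have : (fun X : Finset (Fin k × ZMod q) => i = s ∨ ∃ v ∈ X, pos h v = i) =
          fun _ => True := by
        funext X
        exact propext ⟨fun _ => trivial, fun _ => Or.inl his⟩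
      rw [this]
      exact a4
    by_cases hv : ∃ v : Fin k × ZMod q, pos h v = i
    · obtain ⟨v, hv⟩ := hv
      have : (fun X : Finset (Fin k × ZMod q) => i = s ∨ ∃ v ∈ X, pos h v = i) =
          fun X => v ∈ X := by
        funext X
        refine propext ⟨?_, fun h => Or.inr ⟨v, h, hv⟩⟩
        rintro (h0 | ⟨v', h1, h2⟩)
        · exact absurd h0 his
        · rwa [pos_inj h (hv.trans h2.symm)]
      rw [this]
      exact a2 v (by simp)
    · have : (fun X : Finset (Fin k × ZMod q) => i = s ∨ ∃ v ∈ X, pos h v = i) =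
          fun _ => False := by
        funext X
        refine propext ⟨?_, fun h => h.elim⟩
        rintro (h0 | ⟨v', h1, h2⟩)
        · exact his h0
        · exact hv ⟨v', h2⟩
      rw [this]
      exact a3
  · have e : wire (inputs h s n) i = fun _ : Finset (Fin k × ZMod q) => False := by
      simp [wire, inputs, List.getD_eq_getElem?_getD, hi]
    rw [e]
    exact a3

end enc

/-- The lower bound for one input length. -/
theorem no_circuit {h s n k q w b m N : ℕ} [Fact q.Prime] (hk : k ≤ q)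
    (hd : 2 * w ≤ q) (hw : 1 ≤ w) (hb : 2 ≤ b) (hm : 0 < m) (hN : 2 * b * m ≤ N)
    (hq : 4 * (2 * w * N) ≤ q) (gs : List Gate) (out : ℕ)
    (hC : ∀ X : Finset (Fin k × ZMod q), ((run (enc h s n X) gs).getD out false = true ↔
      ∃ c : Fin (2 * w) → ZMod q, graph k c ⊆ X))
    (Pt : Finset (List Bool))
    (hPt : ∀ X : Finset (Fin k × ZMod q), pattern (enc h s n X) gs ∈ Pt)
    (hη : (2 * Pt.card : ℕ) * (1 + m * (ands gs * ((1 / 4) ^ (w + 1) +
      numSets (Fin k × ZMod q) (2 * w) * (2 / 3) ^ b) +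
      (2 / 3) ^ b)) + m * ((q : ℝ) ^ (2 * w) * (1 / 2) ^ k) < (m : ℝ)) : False := by
  classical
  have hq0 : 0 < q := (Fact.out : q.Prime).pos
  have hN0 : 0 < N := lt_of_lt_of_le (by positivity) hN
  have : NeZero q := ⟨hq0.ne'⟩
  have hqR : (0 : ℝ) < q := by exact_mod_cast hq0
  obtain ⟨F₀, hF₀, hW₀⟩ := inputs_mc (k := k) (q := q) h s n
  let g : List Bool × Bool → Finset (Fin k × ZMod q) → Prop := fun p =>
    if p.2 = true then wire (simW gs (inputs h s n) p.1) out else simG gs (inputs h s n) p.1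
  set κ : ℝ := ((2 * w : ℕ) : ℝ) * N with hκ
  have hκ0 : 0 < κ := by
    have h1 : (0 : ℝ) < ((2 * w : ℕ) : ℝ) := by
      have : 0 < 2 * w := by omega
      exact_mod_cast this
    have h2 : (0 : ℝ) < N := by exact_mod_cast hN0
    positivity
  have hκq : 4 * κ ≤ q := by
    rw [hκ]
    exact_mod_cast hq
  have hκq' : κ / q ≤ 1 / 4 := by
    rw [div_le_div_iff₀ hqR (by norm_num)]
    linarith
  have hpow : (κ / q) ^ (w + 1) ≤ (1 / 4) ^ (w + 1) :=
    pow_le_pow_left₀ (by positivity) hκq' _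
  have hg : ∀ i ∈ Pt ×ˢ (univ : Finset Bool), ∃ F, MC (ands gs) F ∧ g i ∈ F := by
    rintro ⟨a, c⟩ _
    obtain ⟨F', h1, h2, h3, _⟩ := sim_mc gs 0 (inputs h s n) F₀ a hF₀ hW₀
    rw [zero_add] at h1
    refine ⟨F', h1, ?_⟩
    cases c
    · exact h3
    · exact h2 out
  have hη' : ((Pt ×ˢ (univ : Finset Bool)).card : ℝ) * (1 + m * (ands gs * ((κ / q) ^ (w + 1) +
      numSets (Fin k × ZMod q) (2 * w) * (2 / 3) ^ b) + (2 / 3) ^ b)) +
      m * ((q : ℝ) ^ (2 * w) * (1 / 2) ^ k) < m := by
    refine lt_of_le_of_lt ?_ hη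
    have hc : ((Pt ×ˢ (univ : Finset Bool)).card : ℝ) = (2 * Pt.card : ℕ) := by
      rw [card_product]
      simp [mul_comm]
    rw [hc]
    gcongr
  obtain ⟨X, u, hX, hgs⟩ := exists_pair (S := fun c : Fin (2 * w) → ZMod q => graph k c) (q := q)
    (κ := κ) (w := w) (N := N) (b := b) (m := m) hN0 hw hb hκ0 le_rfl hκq
    (spread_graph hk hd) (s := ands gs) (Pt ×ˢ (univ : Finset Bool)) g hg
    (fun X => ∃ c : Fin (2 * w) → ZMod q, graph k c ⊆ X)
    (η := (q : ℝ) ^ (2 * w) * (1 / 2) ^ k) (fun j hj => noise_bound hN hN0 hj) hη'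
  set Y := X ∪ graph k u with hY
  set a := pattern (enc h s n X) gs with ha
  have haP : a ∈ Pt := hPt X
  have t1 := sim_true gs (enc h s n X) (inputs h s n) (match_enc h s n X)
  rw [← ha] at t1
  have g1 := hgs (a, false) (mem_product.2 ⟨haP, mem_univ _⟩)
  have g2 := hgs (a, true) (mem_product.2 ⟨haP, mem_univ _⟩)
  simp only [g, Bool.false_eq_true, if_false, if_true] at g1 g2
  have h1 : ¬ simG gs (inputs h s n) a Y := fun h => t1.2 (g1 h)
  have hmono : ∀ i, wire (inputs h s n) i X → wire (inputs h s n) i Y := by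
    intro i
    exact hF₀.mono _ (hW₀ i) _ _ subset_union_left
  have h2 : pattern (enc h s n Y) gs = a :=
    sim_mono gs (enc h s n X) (enc h s n Y) (inputs h s n) (match_enc h s n X) (match_enc h s n Y) hmono h1
  have t2 := sim_true gs (enc h s n Y) (inputs h s n) (match_enc h s n Y)
  rw [h2] at t2
  have h3 : (run (enc h s n Y) gs).getD out false = true :=
    (hC Y).2 ⟨u, subset_union_right⟩
  have h4 := (t2.1.2 out).1 h3
  have h5 := (t1.1.2 out).2 (g2 h4)
  exact hX ((hC X).1 h5)

end Pool.Agent.Lib.MP_70d3b5_lc
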