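import Mathlib

/-!
# Circuits, NP and NEXP

The definitions used in the statement of the main theorem.
-/

open Turing

namespace Pool.Agent.Lib.MP_70d3b5_lc

/-! ### Circuits -/

/-- A gate of a circuit.  The arguments of a gate are numbers of wires: on `n` inputs, the wires
`0, …, n - 1` are the inputs, and the `j`-th gate (counted from `0`) of the circuit writes wire
`n + j`.  A gate that refers to a wire that has not been written yet reads `false`. -/
inductive Gate : Type
  | const (b : Bool) : Gate
  | and (i j : ℕ) : Gate
  | or (i j : ℕ) : Gate
  | not (i : ℕ) : Gate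

/-- The value of a gate, given the values of the earlier wires. -/
def Gate.eval (w : List Bool) : Gate → Bool
  | .const b => b
  | .and i j => w.getD i false && w.getD j false
  | .or i j => w.getD i false || w.getD j false
  | .not i => !w.getD i false

/-- The values of all wires, given the values of the first ones. -/
def run (w : List Bool) : List Gate → List Bool
  | [] => w
  | g :: gs => run (w ++ [g.eval w]) gs

/-- The values of the NOT gates, in order. -/
def pattern (w : List Bool) : List Gate → List Bool
  | [] => []
  | .not i :: gs => (!w.getD i false) :: pattern (w ++ [!w.getD i false]) gs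
  | g :: gs => pattern (w ++ [g.eval w]) gs

/-- The number of AND gates. -/
def ands : List Gate → ℕ
  | [] => 0
  | .and _ _ :: gs => ands gs + 1
  | _ :: gs => ands gs

/-- The number of OR gates. -/
def ors : List Gate → ℕ
  | [] => 0
  | .or _ _ :: gs => ors gs + 1
  | _ :: gs => ors gs

/-- The number of NOT gates. -/
def nots : List Gate → ℕ
  | [] => 0
  | .not _ :: gs => nots gs + 1
  | _ :: gs => nots gs

/-- The patterns of values of the NOT gates that occur on inputs of length `n`. -/
def patterns (n : ℕ) (gs : List Gate) : Finset (List Bool) :=
  (Finset.univ : Finset (Fin n → Bool)).image fun x => pattern (List.ofFn x) gs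

/-- The circuit with gates `gs` and output wire `out` decides `L` on the inputs of length `n`. -/
def Decides (L : Set (List Bool)) (n : ℕ) (gs : List Gate) (out : ℕ) : Prop :=
  ∀ x : List Bool, x.length = n → ((run x gs).getD out false = true ↔ x ∈ L)

/-- Slices of `L` are monotone Boolean functions: changing zeros to ones does not leave `L`. -/
def Monotonic (L : Set (List Bool)) : Prop :=
  ∀ x y : List Bool, x.length = y.length →
    (∀ i, x.getD i false = true → y.getD i false = true) → x ∈ L → y ∈ L

/-! ### Formulas over the wires of a circuit -/

/-- Formulas; a leaf is a constant or a wire, given by its number. -/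
inductive Form : Type
  | const (b : Bool) : Form
  | leaf (i : ℕ) : Form
  | and (f g : Form) : Form
  | or (f g : Form) : Form
  | not (f : Form) : Form

/-- The value of a formula, given the values of the wires. -/
def Form.eval (w : List Bool) : Form → Bool
  | .const b => b
  | .leaf i => w.getD i false
  | .and f g => f.eval w && g.eval w
  | .or f g => f.eval w || g.eval w
  | .not f => !f.eval w

/-- The number of AND gates of a formula. -/
def Form.ands : Form → ℕ
  | .const _ => 0
  | .leaf _ => 0
  | .and f g => f.ands + g.ands + 1
  | .or f g => f.ands + g.ands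
  | .not f => f.ands

/-- The number of NOT gates of a formula. -/
def Form.nots : Form → ℕ
  | .const _ => 0
  | .leaf _ => 0
  | .and f g => f.nots + g.nots
  | .or f g => f.nots + g.nots
  | .not f => f.nots + 1

open Classical in
/-- The probability of the event `Q` for the weights `D`. -/
noncomputable def prob {Y : Type} [Fintype Y] (D : Y → ℝ) (Q : Y → Prop) : ℝ :=
  ∑ y ∈ Finset.univ.filter Q, D y

/-! ### NP and NEXP -/

/-- The input string of a verifier: the string `x` followed by the certificate `y`, over the
alphabet with two copies of each bit. -/
def encPair (x y : List Bool) : List (Bool ⊕ Bool) := x.map Sum.inl ++ y.map Sum.inr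

/-- There is a deterministic (multi-stack Turing) machine `M` that, given `x` and a certificate `y`
with `|y| ≤ a |x|`, halts after at most `t |x|` steps with output the bit `V x y`, and `x ∈ L` iff
`V x y = 1` for some such `y`. -/
def Verifiable (L : Set (List Bool)) (a t : ℕ → ℕ) : Prop :=
  ∃ (M : FinTM2) (eIn : M.Γ M.k₀ ≃ Bool ⊕ Bool) (eOut : M.Γ M.k₁ ≃ Bool)
    (V : List Bool → List Bool → Bool),
    (∀ x y : List Bool, y.length ≤ a x.length → Nonempty (TM2OutputsInTime M
      ((encPair x y).map eIn.symm) (some [eOut.symm (V x y)]) (t x.length))) ∧
    ∀ x : List Bool, x ∈ L ↔ ∃ y : List Bool, y.length ≤ a x.length ∧ V x y = true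

/-- `L` is in NP. -/
def InNP (L : Set (List Bool)) : Prop :=
  ∃ p q : Polynomial ℕ, Verifiable L (fun n => p.eval n) (fun n => q.eval n)

/-- `L` is in NEXP. -/
def InNEXP (L : Set (List Bool)) : Prop :=
  ∃ p q : Polynomial ℕ, Verifiable L (fun n => 2 ^ p.eval n) (fun n => 2 ^ q.eval n)

end Pool.Agent.Lib.MP_70d3b5_lc
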