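import Pool.Agent.Lib.MP_70d3b5_lc.Code
import Pool.Agent.Lib.MP_70d3b5_lc.Defs

/-!
# Boolean circuits and their NOT patterns
-/

open Finset

namespace Pool.Agent.Lib.MP_70d3b5_lc

section sim

variable {V : Type}

/-- The function on wire `i`. -/
def wire (W : List (Finset V → Prop)) (i : ℕ) : Finset V → Prop := W.getD i fun _ => False

/-- Append a function to a list of functions. -/
def ext (W : List (Finset V → Prop)) (f : Finset V → Prop) : List (Finset V → Prop) := W ++ [f]

theorem wire_ext_cases (W : List (Finset V → Prop)) (f : Finset V → Prop) (i : ℕ) :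
    wire (ext W f) i = wire W i ∨ wire (ext W f) i = f ∨ wire (ext W f) i = fun _ => False := by
  unfold wire ext
  rcases lt_trichotomy i W.length with hi | hi | hi
  · rw [List.getD_append _ _ _ _ hi]
    exact Or.inl rfl
  · subst hi
    rw [List.getD_append_right _ _ _ _ le_rfl]
    refine Or.inr (Or.inl ?_)
    simp
  · rw [List.getD_append_right _ _ _ _ hi.le]
    have e1 : i - W.length = (i - W.length - 1) + 1 := by omega
    rw [e1]
    refine Or.inr (Or.inr ?_)
    simp

/-- Evaluation of a circuit in which the outputs of the NOT gates are replaced by the list `a`: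
the functions on all wires. -/
def simW : List Gate → List (Finset V → Prop) → List Bool → List (Finset V → Prop)
  | [], W, _ => W
  | .const b :: gs, W, a => simW gs (ext W (fun _ => b = true)) a
  | .and i j :: gs, W, a => simW gs (ext W (fun X => wire W i X ∧ wire W j X)) a
  | .or i j :: gs, W, a => simW gs (ext W (fun X => wire W i X ∨ wire W j X)) a
  | .not _ :: gs, W, a => simW gs (ext W (fun _ => a.headD false = true)) a.tail

/-- The disjunction of the inputs of those NOT gates whose output in the list `a` is true. -/
def simG : List Gate → List (Finset V → Prop) → List Bool → Finset V → Prop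
  | [], _, _, _ => False
  | .const b :: gs, W, a, X => simG gs (ext W (fun _ => b = true)) a X
  | .and i j :: gs, W, a, X => simG gs (ext W (fun X => wire W i X ∧ wire W j X)) a X
  | .or i j :: gs, W, a, X => simG gs (ext W (fun X => wire W i X ∨ wire W j X)) a X
  | .not i :: gs, W, a, X => (a.headD false = true ∧ wire W i X) ∨
      simG gs (ext W (fun _ => a.headD false = true)) a.tail X

/-- The list `w` is the value of the list of functions `W` at `X`. -/
def Match (w : List Bool) (W : List (Finset V → Prop)) (X : Finset V) : Prop :=
  w.length = W.length ∧ ∀ i, w.getD i false = true ↔ wire W i X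

theorem Match.append {w : List Bool} {W : List (Finset V → Prop)} {X : Finset V}
    (h : Match w W X) {b : Bool} {f : Finset V → Prop} (hb : b = true ↔ f X) :
    Match (w ++ [b]) (ext W f) X := by
  refine ⟨by simp [h.1, ext], fun i => ?_⟩
  unfold wire ext
  rcases lt_trichotomy i w.length with hi | hi | hi
  · rw [List.getD_append _ _ _ _ hi, List.getD_append _ _ _ _ (h.1 ▸ hi)]
    exact h.2 i
  · subst hi
    rw [List.getD_append_right _ _ _ _ le_rfl, List.getD_append_right _ _ _ _ h.1.ge, h.1]
    simpa using hb
  · rw [List.getD_append_right _ _ _ _ hi.le, List.getD_append_right _ _ _ _ (h.1 ▸ hi.le)]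
    have e1 : i - w.length = (i - w.length - 1) + 1 := by omega
    rw [← h.1, e1]
    simp

theorem sim_true {X : Finset V} (gs : List Gate) :
    ∀ (w : List Bool) (W : List (Finset V → Prop)), Match w W X →
      Match (run w gs) (simW gs W (pattern w gs)) X ∧ ¬ simG gs W (pattern w gs) X := by
  induction gs with
  | nil => intro w W h; exact ⟨h, fun h => h⟩
  | cons g gs ih =>
    intro w W h
    cases g with
    | const b =>
      exact ih _ _ (h.append (f := fun _ => b = true) Iff.rfl)
    | and i j =>
      refine ih _ _ (h.append (f := fun X => wire W i X ∧ wire W j X) ?_)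
      simp only [Gate.eval, Bool.and_eq_true, h.2]
    | or i j =>
      refine ih _ _ (h.append (f := fun X => wire W i X ∨ wire W j X) ?_)
      simp only [Gate.eval, Bool.or_eq_true, h.2]
    | not i =>
      have h1 := ih (w ++ [!w.getD i false]) (ext W (fun _ => (!w.getD i false) = true))
        (h.append (f := fun _ => (!w.getD i false) = true) Iff.rfl)
      refine ⟨h1.1, ?_⟩
      rintro (⟨h2, h3⟩ | h2)
      · rw [← h.2 i] at h3
        simp only [pattern, List.headD_cons] at h2
        rw [h3] at h2
        simp at h2
      · exact h1.2 h2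

theorem sim_mono {X Y : Finset V} (gs : List Gate) :
    ∀ (w w' : List Bool) (W : List (Finset V → Prop)), Match w W X → Match w' W Y →
      (∀ i, wire W i X → wire W i Y) → ¬ simG gs W (pattern w gs) Y →
      pattern w' gs = pattern w gs := by
  induction gs with
  | nil => intro w w' W _ _ _ _; rfl
  | cons g gs ih =>
    intro w w' W h h' hm hn
    have happ : ∀ {f : Finset V → Prop}, (f X → f Y) → ∀ i, wire (ext W f) i X →
        wire (ext W f) i Y := by
      intro f hf i
      rcases wire_ext_cases W f i with h | h | h <;> rw [h]
      · exact hm i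
      · exact hf
      · exact fun h => h
    cases g with
    | const b =>
      exact ih _ _ _ (h.append (f := fun _ => b = true) Iff.rfl)
        (h'.append (f := fun _ => b = true) Iff.rfl) (happ fun h => h) hn
    | and i j =>
      refine ih _ _ _ (h.append (f := fun X => wire W i X ∧ wire W j X) ?_)
        (h'.append (f := fun X => wire W i X ∧ wire W j X) ?_)
        (happ fun h => ⟨hm i h.1, hm j h.2⟩) hn
      · simp only [Gate.eval, Bool.and_eq_true, h.2]
      · simp only [Gate.eval, Bool.and_eq_true, h'.2]
    | or i j =>
      refine ih _ _ _ (h.append (f := fun X => wire W i X ∨ wire W j X) ?_)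
        (h'.append (f := fun X => wire W i X ∨ wire W j X) ?_)
        (happ fun h => h.imp (hm i) (hm j)) hn
      · simp only [Gate.eval, Bool.or_eq_true, h.2]
      · simp only [Gate.eval, Bool.or_eq_true, h'.2]
    | not i =>
      simp only [simG, pattern, List.headD_cons, List.tail_cons, not_or] at hn
      have e : (!w'.getD i false) = !w.getD i false := by
        cases hx : w.getD i false with
        | true =>
          have h1 : w'.getD i false = true := (h'.2 i).2 (hm i ((h.2 i).1 hx))
          rw [h1]
        | false =>
          have h1 : ¬ w'.getD i false = true := by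
            intro h2
            refine hn.1 ⟨?_, (h'.2 i).1 h2⟩
            rw [hx]; rfl
          rw [Bool.not_eq_true] at h1
          rw [h1]
      simp only [pattern]
      rw [e]
      exact congrArg _ (ih _ _ (ext W (fun _ => (!w.getD i false) = true))
        (h.append Iff.rfl) (h'.append Iff.rfl) (happ fun h => h) hn.2)

theorem sim_mc (gs : List Gate) : ∀ (s : ℕ) (W F : List (Finset V → Prop)) (a : List Bool),
    MC s F → (∀ i, wire W i ∈ F) → ∃ F', MC (s + ands gs) F' ∧
      (∀ i, wire (simW gs W a) i ∈ F') ∧ simG gs W a ∈ F' ∧ ∀ f ∈ F, f ∈ F' := by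
  induction gs with
  | nil =>
    intro s W F a hF hW
    refine ⟨_, hF.ff, fun i => List.mem_cons_of_mem _ (hW i), ?_,
      fun f hf => List.mem_cons_of_mem _ hf⟩
    have : (simG [] W a : Finset V → Prop) = fun _ => False := rfl
    rw [this]
    exact List.mem_cons_self ..
  | cons g gs ih =>
    intro s W F a hF hW
    have happ : ∀ {f : Finset V → Prop} {F' : List (Finset V → Prop)}, f ∈ F' →
        (∀ i, wire W i ∈ F') → (fun _ => False) ∈ F' → ∀ i, wire (ext W f) i ∈ F' := by
      intro f F' hf hF' hff i
      rcases wire_ext_cases W f i with h | h | h <;> rw [h]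
      · exact hF' i
      · exact hf
      · exact hff
    have hb : ∀ b : Bool, ∃ F', MC s F' ∧ (fun _ => b = true) ∈ F' ∧ (fun _ => False) ∈ F' ∧
        ∀ f ∈ F, f ∈ F' := by
      intro b
      cases b with
      | true =>
        refine ⟨_, hF.ff.tt, ?_, ?_, fun f hf => ?_⟩
        · simp
        · exact List.mem_cons_of_mem _ (List.mem_cons_self ..)
        · exact List.mem_cons_of_mem _ (List.mem_cons_of_mem _ hf)
      | false =>
        refine ⟨_, hF.ff, ?_, List.mem_cons_self .., fun f hf => List.mem_cons_of_mem _ hf⟩
        simp
    cases g with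
    | const b =>
      obtain ⟨F₀, h1, h2, h3, h4⟩ := hb b
      obtain ⟨F', h5, h6, h7, h8⟩ := ih s _ F₀ a h1 (happ h2 (fun i => h4 _ (hW i)) h3)
      exact ⟨F', h5, h6, h7, fun f hf => h8 f (h4 f hf)⟩
    | and i j =>
      have h1 : MC (s + 1) ((fun X => wire W i X ∧ wire W j X) :: (fun _ => False) :: F) :=
        MC.and hF.ff (List.mem_cons_of_mem _ (hW i)) (List.mem_cons_of_mem _ (hW j))
      obtain ⟨F', h2, h3, h4, h5⟩ := ih _ _ _ a h1 (happ (f := fun X => wire W i X ∧ wire W j X)
        (List.mem_cons_self ..) (fun i => List.mem_cons_of_mem _ (List.mem_cons_of_mem _ (hW i)))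
        (List.mem_cons_of_mem _ (List.mem_cons_self ..)))
      refine ⟨F', ?_, h3, h4,
        fun f hf => h5 f (List.mem_cons_of_mem _ (List.mem_cons_of_mem _ hf))⟩
      have : s + ands (.and i j :: gs) = s + 1 + ands gs := by simp only [ands]; omega
      rw [this]
      exact h2
    | or i j =>
      have h1 : MC s ((fun X => wire W i X ∨ wire W j X) :: (fun _ => False) :: F) :=
        MC.or hF.ff (List.mem_cons_of_mem _ (hW i)) (List.mem_cons_of_mem _ (hW j))
      obtain ⟨F', h2, h3, h4, h5⟩ := ih _ _ _ a h1 (happ (f := fun X => wire W i X ∨ wire W j X)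
        (List.mem_cons_self ..) (fun i => List.mem_cons_of_mem _ (List.mem_cons_of_mem _ (hW i)))
        (List.mem_cons_of_mem _ (List.mem_cons_self ..)))
      exact ⟨F', h2, h3, h4,
        fun f hf => h5 f (List.mem_cons_of_mem _ (List.mem_cons_of_mem _ hf))⟩
    | not i =>
      obtain ⟨F₀, h1, h2, h3, h4⟩ := hb (a.headD false)
      obtain ⟨F', h6, h7, h8, h9⟩ := ih s (ext W (fun _ => a.headD false = true)) F₀ a.tail
        h1 (happ (f := fun _ => a.headD false = true) h2 (fun i => h4 _ (hW i)) h3)
      have hw : (fun X => a.headD false = true ∧ wire W i X) ∈ F' := by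
        cases a.headD false with
        | true =>
          have : (fun X => true = true ∧ wire W i X) = wire W i := by funext X; simp
          rw [this]
          exact h9 _ (h4 _ (hW i))
        | false =>
          have : (fun X => false = true ∧ wire W i X) = fun _ => False := by funext X; simp
          rw [this]
          exact h9 _ h3
      exact ⟨_, MC.or h6 hw h8, fun i => List.mem_cons_of_mem _ (h7 i),
        List.mem_cons_self .., fun f hf => List.mem_cons_of_mem _ (h9 f (h4 f hf))⟩

end sim

end Pool.Agent.Lib.MP_70d3b5_lc
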