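import Pool.Agent.Lib.MP_70d3b5_lc.Hybrid

/-!
# Reed-Solomon codes as spread families
-/

open Finset

namespace Pool.Agent.Lib.MP_70d3b5_lc

/-- Evaluation of the polynomial with coefficients `c`. -/
def peval {q d : ℕ} (c : Fin d → ZMod q) (x : ZMod q) : ZMod q := ∑ j : Fin d, c j * x ^ (j : ℕ)

/-- The graph of the polynomial over the points `0, …, k - 1`. -/
def graph {q d : ℕ} (k : ℕ) (c : Fin d → ZMod q) : Finset (Fin k × ZMod q) :=
  univ.image fun i : Fin k => (i, peval c ((i : ℕ) : ZMod q))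

theorem mem_graph {q d k : ℕ} (c : Fin d → ZMod q) (p : Fin k × ZMod q) :
    p ∈ graph k c ↔ peval c ((p.1 : ℕ) : ZMod q) = p.2 := by
  simp only [graph, mem_image, mem_univ, true_and]
  constructor
  · rintro ⟨i, rfl⟩; rfl
  · intro h; exact ⟨p.1, by rw [h]⟩

theorem card_graph {q d : ℕ} (k : ℕ) (c : Fin d → ZMod q) : (graph k c).card = k := by
  rw [graph, card_image_of_injective]
  · simp
  · intro i j h
    exact (Prod.ext_iff.1 h).1

/-- Polynomials with fewer than `d` coefficients that agree at `d` points are equal. -/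
theorem peval_inj {q d : ℕ} [Fact q.Prime] (Y : Finset (ZMod q)) (hY : Y.card = d)
    (c c' : Fin d → ZMod q) (h : ∀ y ∈ Y, peval c y = peval c' y) : c = c' := by
  let P : (Fin d → ZMod q) → Polynomial (ZMod q) := fun c =>
    ∑ j : Fin d, Polynomial.C (c j) * Polynomial.X ^ (j : ℕ)
  have hdeg : ∀ c, (P c).degree < Y.card := by
    intro c
    rw [hY]
    refine (Polynomial.degree_sum_le _ _).trans_lt ?_
    rw [Finset.sup_lt_iff (by exact WithBot.bot_lt_coe d)]
    intro j _
    refine (Polynomial.degree_C_mul_X_pow_le _ _).trans_lt ?_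
    exact_mod_cast j.2
  have hev : ∀ c y, (P c).eval y = peval c y := by
    intro c y
    simp [P, peval, Polynomial.eval_finset_sum]
  have hP : P c = P c' :=
    Polynomial.eq_of_degrees_lt_of_eval_finset_eq Y (hdeg c) (hdeg c')
      (fun y hy => by rw [hev, hev]; exact h y hy)
  funext j
  have hco : ∀ c : Fin d → ZMod q, (P c).coeff j = c j := by
    intro c
    simp only [P, Polynomial.finset_sum_coeff, Polynomial.coeff_C_mul_X_pow]
    rw [Finset.sum_eq_single j]
    · simp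
    · intro i _ hi
      rw [if_neg]
      intro h
      exact hi (Fin.ext h.symm)
    · intro h; exact absurd (mem_univ j) h
  rw [← hco c, ← hco c', hP]

/-- The Reed-Solomon family is spread. -/
theorem spread_graph {q d k : ℕ} [Fact q.Prime] (hk : k ≤ q) (hd : d ≤ q) :
    Spread (fun c : Fin d → ZMod q => graph k c) (q : ℝ) d := by
  classical
  intro B hB
  have hq : 0 < q := (Fact.out : q.Prime).pos
  have hqR : (0 : ℝ) < q := by exact_mod_cast hq
  rw [Fintype.card_fun, ZMod.card, Fintype.card_fin]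
  set T : Finset (Fin d → ZMod q) := univ.filter fun c => B ⊆ graph k c with hT
  by_cases hne : T.Nonempty
  swap
  · rw [not_nonempty_iff_eq_empty.1 hne]
    simp
  obtain ⟨c₀, hc₀⟩ := hne
  have hc₀' : B ⊆ graph k c₀ := (mem_filter.1 hc₀).2
  -- the points
  let X : Finset (ZMod q) := B.image fun p => ((p.1 : ℕ) : ZMod q)
  have hX : X.card = B.card := by
    refine card_image_of_injOn ?_
    intro p hp p' hp' h
    simp only at h
    have h1 : (p.1 : ℕ) = p'.1 := by
      have := (ZMod.natCast_eq_natCast_iff' _ _ _).1 h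
      rwa [Nat.mod_eq_of_lt (p.1.2.trans_le hk), Nat.mod_eq_of_lt (p'.1.2.trans_le hk)] at this
    have h2 := (mem_graph c₀ p).1 (hc₀' hp)
    have h3 := (mem_graph c₀ p').1 (hc₀' hp')
    refine Prod.ext (Fin.ext h1) ?_
    rw [← h2, ← h3, h1]
  obtain ⟨Y, hXY, hYc⟩ := exists_superset_card_eq (s := X) (n := d) (by rw [hX]; exact hB)
    (by rw [ZMod.card]; exact hd)
  have hinj : Set.InjOn (fun (c : Fin d → ZMod q) (y : {y // y ∈ Y \ X}) => peval c y.1)
      (T : Set (Fin d → ZMod q)) := by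
    intro c hc c' hc' h
    refine peval_inj Y hYc c c' fun y hy => ?_
    by_cases hyX : y ∈ X
    · obtain ⟨p, hp, rfl⟩ := mem_image.1 hyX
      have h2 := (mem_graph c p).1 ((mem_filter.1 (mem_coe.1 hc)).2 hp)
      have h3 := (mem_graph c' p).1 ((mem_filter.1 (mem_coe.1 hc')).2 hp)
      rw [h2, h3]
    · exact congrFun h ⟨y, mem_sdiff.2 ⟨hy, hyX⟩⟩
  have hcard : T.card ≤ q ^ (d - B.card) := by
    have h1 := card_le_card_of_injOn (s := T) (t := univ)
      (fun (c : Fin d → ZMod q) (y : {y // y ∈ Y \ X}) => peval c y.1) (fun _ _ => mem_coe.2 (mem_univ _)) hinj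
    rw [card_univ, Fintype.card_fun, ZMod.card, Fintype.card_coe, card_sdiff_of_subset hXY, hYc, hX]
      at h1
    exact h1
  have h2 : (T.card : ℝ) ≤ (q : ℝ) ^ (d - B.card) := by exact_mod_cast hcard
  calc (T.card : ℝ) * (q : ℝ) ^ B.card ≤ (q : ℝ) ^ (d - B.card) * (q : ℝ) ^ B.card := by gcongr
    _ = (q : ℝ) ^ d := by rw [← pow_add, Nat.sub_add_cancel hB]
    _ = ((q ^ d : ℕ) : ℝ) := by push_cast; rfl

/-- The noise rarely contains the graph of a polynomial. -/
theorem noise_bound {q d k j b N m : ℕ} [Fact q.Prime] (hN : 2 * b * m ≤ N) (hN0 : 0 < N)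
    (hj : j < m) :
    pr (fun ω : Fin j → Fin b → (Fin k × ZMod q) → Fin N =>
      ∃ c : Fin d → ZMod q, graph k c ⊆ RR ω) ≤ (q : ℝ) ^ d * (1 / 2) ^ k := by
  have hq : 0 < q := (Fact.out : q.Prime).pos
  have hNR : (0 : ℝ) < N := by exact_mod_cast hN0
  have h1 : pr (fun ω : Fin j → Fin b → (Fin k × ZMod q) → Fin N =>
      ∃ c : Fin d → ZMod q, graph k c ⊆ RR ω) ≤
      pr (fun ω : Fin j → Fin b → (Fin k × ZMod q) → Fin N =>
      ∃ c ∈ (univ : Finset (Fin d → ZMod q)), graph k c ⊆ RR ω) :=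
    pr_mono fun ω ⟨c, hc⟩ => ⟨c, mem_univ _, hc⟩
  refine h1.trans ((pr_exists_le_of univ (fun c ω => graph k c ⊆ RR ω) ((1 / 2) ^ k) ?_).trans ?_)
  · intro c _
    rw [pr_subset_RR hN0, card_graph]
    have h2 : (1 : ℝ) + ((b * j : ℕ) : ℝ) * (-(1 / (N : ℝ))) ≤ (1 + -(1 / (N : ℝ))) ^ (b * j) := by
      refine one_add_mul_le_pow ?_ _
      have : 1 / (N : ℝ) ≤ 1 := by
        rw [div_le_one hNR]
        exact_mod_cast hN0
      linarith
    have h3 : ((b * j : ℕ) : ℝ) * (1 / (N : ℝ)) ≤ 1 / 2 := by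
      rw [mul_one_div, div_le_div_iff₀ hNR (by norm_num)]
      have : b * j * 2 ≤ 1 * N := by nlinarith
      exact_mod_cast this
    have h4 : (1 - (1 - 1 / (N : ℝ)) ^ (b * j)) ≤ 1 / 2 := by
      have e : (1 + -(1 / (N : ℝ))) = 1 - 1 / (N : ℝ) := by ring
      rw [e] at h2
      linarith
    refine pow_le_pow_left₀ ?_ h4 k
    have h5 : (1 - 1 / (N : ℝ)) ^ (b * j) ≤ 1 := by
      refine pow_le_one₀ ?_ ?_
      · have : 1 / (N : ℝ) ≤ 1 := by
          rw [div_le_one hNR]
          exact_mod_cast hN0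
        linarith
      · have : 0 ≤ 1 / (N : ℝ) := by positivity
        linarith
    linarith
  · rw [card_univ, Fintype.card_fun, ZMod.card, Fintype.card_fin]
    push_cast
    rfl

end Pool.Agent.Lib.MP_70d3b5_lc
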