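import Pool.Agent.Lib.MP_70d3b5_lc.Loop

/-!
# Feasible functions

`Feas f` says that the function `f : List A → (Fin r → ℕ) → ℕ` is computed by a loop program in
polynomial time (numbers are counters, i.e. written in unary) and is polynomially bounded.
-/

open Pool.Agent.Lib.PolyTM

namespace Pool.Agent.Lib.MP_70d3b5_lc

variable {A : Type}

/-- Size of the arguments. -/
def sz {r : ℕ} (x : List A) (v : Fin r → ℕ) : ℕ := x.length + ∑ i, v i

theorem le_sz {r : ℕ} (x : List A) (v : Fin r → ℕ) (i : Fin r) : v i ≤ sz x v :=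
  (Finset.single_le_sum (f := v) (fun _ _ => Nat.zero_le _) (Finset.mem_univ i)).trans
    (Nat.le_add_left _ _)

/-- Computability by loop programs in polynomial time. -/
def Cmp {r : ℕ} (f : List A → (Fin r → ℕ) → ℕ) : Prop :=
  ∀ (args : Fin r → ℕ) (out b : ℕ), (∀ i, args i < b) → out < b →
    ∃ (c : Lp A) (P : Polynomial ℕ), ∀ (x : List A) (ρ : ℕ → ℕ), (∀ j, b ≤ j → ρ j = 0) →
      c.exec x ρ = Function.update ρ out (f x fun i => ρ (args i)) ∧
      c.cost x ρ ≤ P.eval (sz x (fun i => ρ (args i)) + ρ out)

/-- Feasible functions. -/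
def Feas {r : ℕ} (f : List A → (Fin r → ℕ) → ℕ) : Prop :=
  Cmp f ∧ ∃ P : Polynomial ℕ, ∀ x v, f x v ≤ P.eval (sz x v)

theorem ev_mono (P : Polynomial ℕ) {a b : ℕ} (h : a ≤ b) : P.eval a ≤ P.eval b :=
  eval_mono P h

theorem PolyBdd.pe (P : Polynomial ℕ) {g : ℕ → ℕ} (hg : PolyBdd g) :
    PolyBdd fun n => P.eval (g n) :=
  PolyBdd.comp (f := fun n => P.eval n) ⟨P, fun _ => le_rfl⟩ hg

namespace Lp

/-- Clear a counter. -/
def clr (r : ℕ) : Lp A := rep r (dec r)

theorem exec_clr (x : List A) (r : ℕ) (ρ : ℕ → ℕ) : (clr r).exec x ρ = Function.update ρ r 0 := by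
  have : ∀ n, (exec x (dec r))^[n] ρ = Function.update ρ r (ρ r - n) := by
    intro n
    induction n with
    | zero => simp
    | succ n ih =>
      rw [Function.iterate_succ_apply', ih]
      simp only [exec, Function.update_self, Function.update_idem]
      congr 1
  have h2 := this (ρ r)
  rw [Nat.sub_self] at h2
  exact h2

theorem cost_clr (x : List A) (r : ℕ) (ρ : ℕ → ℕ) : (clr r).cost x ρ = ρ r * 3 + 1 := by
  simp only [clr, cost]
  simp
  ring

/-- Move a counter. -/
def mv (s t : ℕ) : Lp A := rep s (seq (dec s) (inc t))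

theorem exec_mv (x : List A) {s t : ℕ} (h : s ≠ t) (ρ : ℕ → ℕ) :
    (mv s t).exec x ρ = Function.update (Function.update ρ s 0) t (ρ t + ρ s) := by
  have : ∀ n ≤ ρ s, (exec x (seq (dec s) (inc t)))^[n] ρ =
      Function.update (Function.update ρ s (ρ s - n)) t (ρ t + n) := by
    intro n
    induction n with
    | zero => intro _; simp
    | succ n ih =>
      intro hn
      rw [Function.iterate_succ_apply', ih (by omega)]
      funext j
      simp only [exec, Function.update_apply]
      split_ifs <;> simp_all <;> omega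
  have h2 := this (ρ s) le_rfl
  rw [Nat.sub_self] at h2
  exact h2

theorem cost_mv (x : List A) (s t : ℕ) (ρ : ℕ → ℕ) : (mv s t).cost x ρ = ρ s * 4 + 1 := by
  simp only [mv, cost]
  simp
  ring

/-- Add a counter to another one. -/
def cp (s t : ℕ) : Lp A := rep s (inc t)

theorem exec_cp (x : List A) {s t : ℕ} (ρ : ℕ → ℕ) :
    (cp s t).exec x ρ = Function.update ρ t (ρ t + ρ s) := by
  have : ∀ n, (exec x (inc t))^[n] ρ = Function.update ρ t (ρ t + n) := by
    intro n
    induction n with
    | zero => simp
    | succ n ih =>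
      rw [Function.iterate_succ_apply', ih]
      simp only [exec, Function.update_self, Function.update_idem]
      congr 1
  exact this (ρ s)

theorem cost_cp (x : List A) (s t : ℕ) (ρ : ℕ → ℕ) : (cp s t).cost x ρ = ρ s * 3 + 1 := by
  simp only [cp, cost]
  simp
  ring

/-- Store the temporary counter `b` in `out`. -/
def store (b out : ℕ) : Lp A := seq (clr out) (mv b out)

theorem exec_store (x : List A) {b out : ℕ} (h : out ≠ b) {ρ : ℕ → ℕ} (hb : ρ b = 0) (v : ℕ) :
    (store b out).exec x (Function.update ρ b v) = Function.update ρ out v := by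
  simp only [store, exec, exec_clr, exec_mv x h.symm]
  funext j
  simp only [Function.update_apply]
  split_ifs <;> simp_all

theorem cost_store (x : List A) {b out : ℕ} (h : out ≠ b) (ρ : ℕ → ℕ) :
    (store b out).cost x ρ = ρ out * 3 + 1 + (ρ b * 4 + 1) := by
  simp only [store, cost, exec_clr, cost_clr, cost_mv]
  rw [Function.update_of_ne h.symm]

end Lp

open Lp

theorem Feas.proj {r : ℕ} (i : Fin r) : Feas (fun (_ : List A) v => v i) := by
  refine ⟨fun args out b ha ho => ?_, Polynomial.X, fun x v => by simpa using le_sz x v i⟩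
  refine ⟨seq (cp (args i) b) (store b out), Polynomial.C 10 * Polynomial.X + Polynomial.C 10,
    fun x ρ hρ => ⟨?_, ?_⟩⟩
  · have hb := hρ b le_rfl
    simp only [exec, exec_cp]
    rw [exec_store x (by omega) hb, hb, zero_add]
  · have h1 : ρ (args i) ≤ _ := le_sz x (fun i => ρ (args i)) i
    have hb := hρ b le_rfl
    simp only [cost, cost_cp, exec_cp, cost_store x (show out ≠ b by omega), Polynomial.eval_add,
      Polynomial.eval_mul, Polynomial.eval_C, Polynomial.eval_X, Function.update_self, hb]
    rw [Function.update_of_ne (show out ≠ b by omega)]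
    omega

/-- The program that adds the constant `n` to the counter `r`. -/
def Lp.incs (r : ℕ) : ℕ → Lp A
  | 0 => nop
  | n + 1 => seq (inc r) (incs r n)

theorem exec_incs (x : List A) (r n : ℕ) (ρ : ℕ → ℕ) :
    (incs r n).exec x ρ = Function.update ρ r (ρ r + n) := by
  induction n generalizing ρ with
  | zero => simp [incs, exec]
  | succ n ih =>
    simp only [incs, exec, ih, Function.update_self, Function.update_idem]
    congr 1
    omega

theorem cost_incs (x : List A) (r n : ℕ) (ρ : ℕ → ℕ) : (incs r n).cost x ρ = n + 1 := by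
  induction n generalizing ρ with
  | zero => simp [incs, cost]
  | succ n ih =>
    simp only [incs, cost, ih]
    omega

theorem Feas.const {r : ℕ} (n : ℕ) : Feas (fun (_ : List A) (_ : Fin r → ℕ) => n) := by
  refine ⟨fun args out b ha ho => ?_, Polynomial.C n, fun x v => by simp⟩
  refine ⟨seq (clr out) (incs out n), Polynomial.C 3 * Polynomial.X + Polynomial.C (n + 2),
    fun x ρ hρ => ⟨?_, ?_⟩⟩
  · simp only [exec, exec_clr, exec_incs, Function.update_self, Function.update_idem, zero_add]
  · simp only [cost, cost_clr, exec_clr, cost_incs, Polynomial.eval_add, Polynomial.eval_mul,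
      Polynomial.eval_C, Polynomial.eval_X]
    omega

open Classical in
theorem Feas.sym {r : ℕ} (i : Fin r) (s : Option A) :
    Feas (fun (x : List A) (v : Fin r → ℕ) => if x[v i]? = s then 1 else 0) := by
  refine ⟨fun args out b ha ho => ?_, Polynomial.C 1, fun x v => ?_⟩
  swap
  · simp only [Polynomial.eval_C]
    split_ifs <;> omega
  refine ⟨ifsym (args i) s (seq (clr out) (inc out)) (clr out),
    Polynomial.C 4 * Polynomial.X + Polynomial.C 10, fun x ρ hρ => ⟨?_, ?_⟩⟩
  · simp only [exec, exec_clr, Function.update_self, Function.update_idem, zero_add]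
    split_ifs <;> rfl
  · have h1 : ρ (args i) ≤ _ := le_sz x (fun i => ρ (args i)) i
    simp only [cost, cost_clr, Polynomial.eval_add, Polynomial.eval_mul,
      Polynomial.eval_C, Polynomial.eval_X]
    split_ifs <;> omega

theorem Feas.succ {r : ℕ} (i : Fin r) : Feas (fun (_ : List A) v => v i + 1) := by
  refine ⟨fun args out b ha ho => ?_, Polynomial.X + Polynomial.C 1,
    fun x v => by simpa using le_sz x v i⟩
  refine ⟨seq (cp (args i) b) (seq (inc b) (store b out)),
    Polynomial.C 10 * Polynomial.X + Polynomial.C 20,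
    fun x ρ hρ => ⟨?_, ?_⟩⟩
  · have hb := hρ b le_rfl
    simp only [exec, exec_cp, Function.update_self, Function.update_idem]
    rw [exec_store x (by omega) hb, hb, zero_add]
  · have h1 : ρ (args i) ≤ _ := le_sz x (fun i => ρ (args i)) i
    have hb := hρ b le_rfl
    simp only [cost, cost_cp, exec_cp, exec, cost_store x (show out ≠ b by omega),
      Polynomial.eval_add, Function.update_idem,
      Polynomial.eval_mul, Polynomial.eval_C, Polynomial.eval_X, Function.update_self, hb]
    rw [Function.update_of_ne (show out ≠ b by omega)]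
    omega

/-- Clear the counters `b, …, b + n - 1`. -/
def Lp.clrs (b : ℕ) : ℕ → Lp A
  | 0 => nop
  | n + 1 => seq (clrs b n) (clr (b + n))

theorem exec_clrs (x : List A) (b n : ℕ) (ρ : ℕ → ℕ) :
    (clrs b n).exec x ρ = fun j => if b ≤ j ∧ j < b + n then 0 else ρ j := by
  induction n generalizing ρ with
  | zero =>
    simp only [clrs, exec]
    funext j
    rw [if_neg (by omega)]
  | succ n ih =>
    simp only [clrs, exec, ih, exec_clr]
    funext j
    simp only [Function.update_apply]
    by_cases h1 : j = b + n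
    · subst h1; simp
    · rw [if_neg h1]
      by_cases h2 : b ≤ j ∧ j < b + n
      · rw [if_pos h2, if_pos (by omega)]
      · rw [if_neg h2, if_neg (by omega)]

theorem cost_clrs (x : List A) (b n : ℕ) (ρ : ℕ → ℕ) :
    (clrs b n).cost x ρ ≤ (∑ i ∈ Finset.range n, ρ (b + i)) * 3 + n + 1 := by
  induction n generalizing ρ with
  | zero => simp [clrs, cost]
  | succ n ih =>
    simp only [clrs, cost, cost_clr, exec_clrs]
    rw [if_neg (by omega), Finset.sum_range_succ]
    have := ih ρ
    omega

theorem Feas.comp {r s : ℕ} {f : List A → (Fin r → ℕ) → ℕ} (hf : Feas f)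
    {g : Fin r → List A → (Fin s → ℕ) → ℕ} (hg : ∀ i, Feas (g i)) :
    Feas (fun x v => f x fun i => g i x v) := by
  obtain ⟨hfc, Pf, hPf⟩ := hf
  choose hgc Pg hPg using hg
  -- a bound for the sum of the values of `g`
  have hsum0 : ∀ x v, ∑ i, g i x v ≤ ∑ i, (Pg i).eval (sz x v) :=
    fun x v => Finset.sum_le_sum fun i _ => hPg i x v
  have hsum : ∀ x v, sz x (fun i => g i x v) ≤ sz x v + ∑ i, (Pg i).eval (sz x v) := by
    intro x v
    have h1 := hsum0 x v
    have h2 : sz x (fun i => g i x v) = x.length + ∑ i, g i x v := rfl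
    have h3 : x.length ≤ sz x v := Nat.le_add_right _ _
    omega
  have hsP : PolyBdd fun n => ∑ i, (Pg i).eval n := by
    refine ⟨∑ i, Pg i, fun n => ?_⟩
    rw [Polynomial.eval_finsetSum]
  have hsumP : PolyBdd fun n => n + ∑ i, (Pg i).eval n := PolyBdd.id.add hsP
  refine ⟨?_, ?_⟩
  · intro args out b ha ho
    -- the programs for `g i`
    have hg' := fun i : Fin r => hgc i args (b + i) (b + r)
      (fun j => (ha j).trans_le (Nat.le_add_right _ _)) (by omega)
    choose cg Qg hcg using hg'
    obtain ⟨cf, Qf, hcf⟩ := hfc (fun i => b + i) out (b + r) (fun i => by omega) (by omega)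
    -- the first `n` of them
    let G : ℕ → Lp A := fun n => Nat.rec nop (fun k c => seq c (if h : k < r then cg ⟨k, h⟩ else nop)) n
    have hG0 : G 0 = nop := rfl
    have hGs : ∀ n, G (n + 1) = seq (G n) (if h : n < r then cg ⟨n, h⟩ else nop) := fun _ => rfl
    let st : ℕ → List A → (ℕ → ℕ) → ℕ → ℕ := fun n x ρ j =>
      if h : b ≤ j ∧ j < b + n ∧ j - b < r then g ⟨j - b, h.2.2⟩ x (fun i => ρ (args i)) else ρ j
    have hst1 : ∀ n x ρ j, j < b → st n x ρ j = ρ j := by
      intro n x ρ j hj
      simp only [st]
      rw [dif_neg (by omega)]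
    have hst2 : ∀ n x ρ j, b + n ≤ j → st n x ρ j = ρ j := by
      intro n x ρ j hj
      simp only [st]
      rw [dif_neg (by omega)]
    have hst3 : ∀ n x ρ (i : Fin r), (i : ℕ) < n → st n x ρ (b + i) = g i x (fun i => ρ (args i)) := by
      intro n x ρ i hi
      simp only [st]
      have h1 : b ≤ b + (i : ℕ) ∧ b + (i : ℕ) < b + n ∧ b + (i : ℕ) - b < r := by
        have := i.2
        omega
      rw [dif_pos h1]
      have h2 : (⟨b + (i : ℕ) - b, h1.2.2⟩ : Fin r) = i := Fin.ext (by simp)
      rw [h2]
    have key : ∀ n ≤ r, ∀ (x : List A) (ρ : ℕ → ℕ), (∀ j, b ≤ j → ρ j = 0) →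
        (G n).exec x ρ = st n x ρ ∧
        (G n).cost x ρ ≤ 1 + n * ∑ i, (Qg i).eval (sz x (fun i => ρ (args i))) := by
      intro n
      induction n with
      | zero =>
        intro _ x ρ hρ
        refine ⟨?_, ?_⟩
        · simp only [hG0, exec]
          funext j
          simp only [st]
          rw [dif_neg (by omega)]
        · simp [hG0, cost]
      | succ n ih =>
        intro hn x ρ hρ
        obtain ⟨h1, h2⟩ := ih (by omega) x ρ hρ
        obtain ⟨h3, h4⟩ := hcg ⟨n, by omega⟩ x (st n x ρ) (fun j hj => by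
          rw [hst2 n x ρ j (by omega)]
          exact hρ j (by omega))
        have e1 : (fun i => st n x ρ (args i)) = fun i => ρ (args i) :=
          funext fun i => hst1 n x ρ _ (ha i)
        rw [e1] at h3 h4
        have e2 : st n x ρ (b + n) = 0 := by
          rw [hst2 n x ρ _ le_rfl]
          exact hρ _ (by omega)
        refine ⟨?_, ?_⟩
        · rw [hGs, dif_pos (by omega : n < r)]
          simp only [exec]
          rw [h1, h3]
          funext j
          simp only [Function.update_apply]
          by_cases hj : j = b + n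
          · subst hj
            rw [if_pos rfl]
            exact (hst3 (n + 1) x ρ ⟨n, by omega⟩ (Nat.lt_succ_self n)).symm
          · rw [if_neg hj]
            simp only [st]
            by_cases hj' : b ≤ j ∧ j < b + n ∧ j - b < r
            · rw [dif_pos hj', dif_pos ⟨hj'.1, by omega, hj'.2.2⟩]
            · rw [dif_neg hj', dif_neg (by omega)]
        · rw [hGs, dif_pos (by omega : n < r)]
          simp only [cost]
          rw [h1]
          simp only [e2, add_zero] at h4
          have h5 : (Qg ⟨n, by omega⟩).eval (sz x (fun i => ρ (args i))) ≤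
              ∑ i, (Qg i).eval (sz x (fun i => ρ (args i))) :=
            Finset.single_le_sum (f := fun i => (Qg i).eval (sz x (fun i => ρ (args i))))
              (fun _ _ => Nat.zero_le _) (Finset.mem_univ _)
          have h6 : (n + 1) * ∑ i, (Qg i).eval (sz x (fun i => ρ (args i))) =
              n * ∑ i, (Qg i).eval (sz x (fun i => ρ (args i))) +
              ∑ i, (Qg i).eval (sz x (fun i => ρ (args i))) := by ring
          omega
    have hQP : PolyBdd fun n => ∑ i, (Qg i).eval n := by
      refine ⟨∑ i, Qg i, fun n => ?_⟩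
      rw [Polynomial.eval_finsetSum]
    have hfin : PolyBdd fun n => 1 + r * ∑ i, (Qg i).eval n +
        (Qf.eval ((n + ∑ i, (Pg i).eval n) + n) + ((∑ i, (Pg i).eval n) * 3 + r + 1)) :=
      ((PolyBdd.const 1).add ((PolyBdd.const r).mul hQP)).add
        ((PolyBdd.pe Qf (hsumP.add PolyBdd.id)).add
          (((hsP.mul (.const 3)).add (.const r)).add (.const 1)))
    obtain ⟨P, hP⟩ := hfin
    refine ⟨seq (G r) (seq cf (clrs b r)), P, fun x ρ hρ => ?_⟩
    obtain ⟨h1, h2⟩ := key r le_rfl x ρ hρ
    obtain ⟨h3, h4⟩ := hcf x (st r x ρ) (fun j hj => by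
      rw [hst2 r x ρ j hj]
      exact hρ j (by omega))
    have e1 : (fun i : Fin r => st r x ρ (b + i)) = fun i => g i x (fun i => ρ (args i)) :=
      funext fun i => hst3 r x ρ i i.2
    rw [e1] at h3 h4
    have e2 : st r x ρ out = ρ out := hst1 r x ρ out ho
    rw [e2] at h4
    refine ⟨?_, ?_⟩
    · simp only [exec]
      rw [h1, h3, exec_clrs]
      funext j
      by_cases hj : b ≤ j ∧ j < b + r
      · rw [if_pos hj, Function.update_of_ne (by omega), hρ j hj.1]
      · rw [if_neg hj]
        simp only [Function.update_apply]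
        by_cases hj' : j < b
        · rw [hst1 r x ρ j hj']
        · rw [hst2 r x ρ j (by omega)]
    · simp only [cost]
      rw [h1, h3]
      refine le_trans ?_ (hP _)
      beta_reduce
      set S := sz x (fun i => ρ (args i)) with hS
      have h5 := cost_clrs x b r (Function.update (st r x ρ) out
        (f x fun i => g i x fun i => ρ (args i)))
      have h6 : ∑ i ∈ Finset.range r, (Function.update (st r x ρ) out
          (f x fun i => g i x fun i => ρ (args i))) (b + i) ≤ ∑ i, (Pg i).eval S := by
        rw [Finset.sum_range]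
        refine Finset.sum_le_sum fun i _ => ?_
        rw [Function.update_of_ne (by omega), hst3 r x ρ i i.2]
        exact hPg i x _
      have h7 : sz x (fun i => g i x fun i => ρ (args i)) ≤ S + ∑ i, (Pg i).eval S :=
        hsum x (fun i => ρ (args i))
      have h8 : Qf.eval (sz x (fun i => g i x fun i => ρ (args i)) + ρ out) ≤
          Qf.eval (((S + ρ out) + ∑ i, (Pg i).eval (S + ρ out)) + (S + ρ out)) := by
        refine ev_mono Qf ?_
        have h9 : ∑ i, (Pg i).eval S ≤ ∑ i, (Pg i).eval (S + ρ out) :=
          Finset.sum_le_sum fun i _ => ev_mono _ (Nat.le_add_right _ _)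
        omega
      have h10 : r * ∑ i, (Qg i).eval S ≤ r * ∑ i, (Qg i).eval (S + ρ out) :=
        Nat.mul_le_mul_left _ (Finset.sum_le_sum fun i _ => ev_mono _ (Nat.le_add_right _ _))
      have h11 : ∑ i, (Pg i).eval S ≤ ∑ i, (Pg i).eval (S + ρ out) :=
        Finset.sum_le_sum fun i _ => ev_mono _ (Nat.le_add_right _ _)
      omega
  · obtain ⟨P, hP⟩ := PolyBdd.pe Pf hsumP
    exact ⟨P, fun x v => (hPf x _).trans ((ev_mono Pf (hsum x v)).trans (hP _))⟩

/-- Primitive recursion with polynomially bounded values. -/
theorem Feas.rec {r : ℕ} {a n : List A → (Fin r → ℕ) → ℕ} {G : List A → ℕ → ℕ → (Fin r → ℕ) → ℕ}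
    (ha : Feas a) (hn : Feas n)
    (hG : Feas (fun x (u : Fin (r + 2) → ℕ) => G x (u 0) (u 1) (fun i => u i.succ.succ)))
    (hb : ∃ P : Polynomial ℕ, ∀ x v, ∀ k ≤ n x v,
      Nat.rec (a x v) (fun i acc => G x i acc v) k ≤ P.eval (sz x v)) :
    Feas (fun x v => Nat.rec (a x v) (fun i acc => G x i acc v) (n x v)) := by
  obtain ⟨hac, Pa, hPa⟩ := ha
  obtain ⟨hnc, Pn, hPn⟩ := hn
  obtain ⟨hGc, PG, hPG⟩ := hG
  obtain ⟨Pb, hPb⟩ := hb
  refine ⟨?_, Pb, fun x v => hPb x v _ le_rfl⟩
  intro args out b hargs ho
  obtain ⟨ca, Qa, hca⟩ := hac args b (b + 3) (fun i => by have := hargs i; omega) (by omega)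
  obtain ⟨cn, Qn, hcn⟩ := hnc args (b + 1) (b + 3) (fun i => by have := hargs i; omega) (by omega)
  obtain ⟨cG, QG, hcG⟩ := hGc (Fin.cons (b + 2) (Fin.cons b args)) b (b + 3) (by
    intro i
    refine Fin.cases ?_ (fun i => ?_) i
    · simp
    · refine Fin.cases ?_ (fun i => ?_) i
      · simp
      · simp only [Fin.cons_succ]
        have := hargs i
        omega) (by omega)
  let val : List A → (Fin r → ℕ) → ℕ → ℕ := fun x v k => Nat.rec (a x v) (fun i acc => G x i acc v) k
  let body : Lp A := seq cG (inc (b + 2))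
  let st : List A → (ℕ → ℕ) → ℕ → ℕ → ℕ → ℕ := fun x ρ N k j =>
    if j = b then val x (fun i => ρ (args i)) k else if j = b + 1 then N
    else if j = b + 2 then k else ρ j
  have stargs : ∀ x ρ N k, (fun i => st x ρ N k (args i)) = fun i => ρ (args i) := by
    intro x ρ N k
    funext i
    have := hargs i
    simp only [st]
    rw [if_neg (by omega), if_neg (by omega), if_neg (by omega)]
  have hstep : ∀ x ρ N k, (∀ j, b ≤ j → ρ j = 0) →
      body.exec x (st x ρ N k) = st x ρ N (k + 1) ∧
      body.cost x (st x ρ N k) ≤ QG.eval (x.length + (k + (val x (fun i => ρ (args i)) k +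
        ∑ i, ρ (args i))) + val x (fun i => ρ (args i)) k) + 1 := by
    intro x ρ N k hρ
    obtain ⟨h1, h2⟩ := hcG x (st x ρ N k) (fun j hj => by
      simp only [st]
      rw [if_neg (by omega), if_neg (by omega), if_neg (by omega)]
      exact hρ j (by omega))
    have e0 : (fun i => st x ρ N k ((Fin.cons (b + 2) (Fin.cons b args) : Fin (r + 2) → ℕ) i)) =
        Fin.cons k (Fin.cons (val x (fun i => ρ (args i)) k) (fun i => ρ (args i))) := by
      funext i
      refine Fin.cases ?_ (fun i => ?_) i
      · simp only [Fin.cons_zero, st]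
        rw [if_neg (by omega), if_neg (by omega), if_pos trivial]
      · refine Fin.cases ?_ (fun i => ?_) i
        · simp only [Fin.cons_succ, Fin.cons_zero, st]
          rw [if_pos trivial]
        · simp only [Fin.cons_succ]
          exact congrFun (stargs x ρ N k) i
    rw [e0] at h1 h2
    refine ⟨?_, ?_⟩
    · simp only [body, exec]
      rw [h1]
      funext j
      simp only [Function.update_apply, st, Fin.cons_zero, Fin.cons_succ, Fin.cons_one]
      split_ifs <;> first | rfl | omega
    · simp only [body, cost]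
      refine Nat.add_le_add ?_ le_rfl
      refine h2.trans (ev_mono QG ?_)
      have e1 : st x ρ N k b = val x (fun i => ρ (args i)) k := by simp [st]
      rw [e1]
      unfold sz
      rw [Fin.sum_univ_succ, Fin.sum_univ_succ]
      simp
  have hiter : ∀ x ρ N k, (∀ j, b ≤ j → ρ j = 0) →
      (body.exec x)^[k] (st x ρ N 0) = st x ρ N k := by
    intro x ρ N k hρ
    induction k with
    | zero => rfl
    | succ k ih => rw [Function.iterate_succ_apply', ih, (hstep x ρ N k hρ).1]
  have hfin : PolyBdd fun n => Qa.eval n + (Qn.eval n + ((Pn.eval n + 1 +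
      Pn.eval n * (QG.eval (n + Pn.eval n + (Pb.eval n + Pb.eval n)) + 2)) +
      ((n * 3 + 1 + (Pb.eval n * 4 + 1)) + ((Pn.eval n * 3 + 1) + (Pn.eval n * 3 + 1))))) := by
    have p1 : PolyBdd fun n => Qa.eval n := PolyBdd.pe Qa PolyBdd.id
    have p2 : PolyBdd fun n => Qn.eval n := PolyBdd.pe Qn PolyBdd.id
    have p3 : PolyBdd fun n => Pn.eval n := PolyBdd.pe Pn PolyBdd.id
    have p4 : PolyBdd fun n => Pb.eval n := PolyBdd.pe Pb PolyBdd.id
    have p5 : PolyBdd fun n => QG.eval (n + Pn.eval n + (Pb.eval n + Pb.eval n)) :=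
      PolyBdd.pe QG ((PolyBdd.id.add p3).add (p4.add p4))
    exact p1.add (p2.add (((p3.add (.const 1)).add (p3.mul (p5.add (.const 2)))).add
      ((((PolyBdd.id.mul (.const 3)).add (.const 1)).add ((p4.mul (.const 4)).add (.const 1))).add
        (((p3.mul (.const 3)).add (.const 1)).add ((p3.mul (.const 3)).add (.const 1))))))
  obtain ⟨P, hP⟩ := hfin
  refine ⟨seq ca (seq cn (seq (rep (b + 1) body) (seq (store b out)
    (seq (clr (b + 1)) (clr (b + 2)))))), P, fun x ρ hρ => ?_⟩
  obtain ⟨v, hv⟩ : ∃ v : Fin r → ℕ, v = fun i => ρ (args i) := ⟨_, rfl⟩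
  obtain ⟨N, hN⟩ : ∃ N, N = n x v := ⟨_, rfl⟩
  obtain ⟨S, hS⟩ : ∃ S, S = sz x v := ⟨_, rfl⟩
  obtain ⟨h1, h2⟩ := hca x ρ (fun j hj => hρ j (by omega))
  rw [← hv] at h1 h2
  have e1 : (fun i => Function.update ρ b (a x v) (args i)) = v := by
    rw [hv]
    funext i
    have := hargs i
    rw [Function.update_of_ne (by omega)]
  obtain ⟨h3, h4⟩ := hcn x (Function.update ρ b (a x v)) (fun j hj => by
    rw [Function.update_of_ne (by omega)]
    exact hρ j (by omega))
  rw [e1] at h3 h4
  rw [Function.update_of_ne (by omega), hρ (b + 1) (by omega), add_zero] at h4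
  rw [hρ b le_rfl, add_zero] at h2
  rw [← hS] at h2 h4
  have e2 : Function.update (Function.update ρ b (a x v)) (b + 1) N = st x ρ N 0 := by
    funext j
    simp only [Function.update_apply, st, ← hv]
    have z := hρ (b + 2) (by omega)
    by_cases j1 : j = b
    · subst j1
      rw [if_neg (by omega), if_pos rfl, if_pos rfl]
      rfl
    · by_cases j2 : j = b + 1
      · subst j2
        rw [if_pos rfl, if_neg (by omega), if_pos rfl]
      · by_cases j3 : j = b + 2
        · subst j3
          rw [if_neg (by omega), if_neg (by omega), if_neg (by omega), if_neg (by omega),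
            if_pos rfl, z]
        · rw [if_neg j2, if_neg j1, if_neg j1, if_neg j2, if_neg j3]
  rw [← hN, e2] at h3
  have h5 : (rep (b + 1) body).exec x (st x ρ N 0) = st x ρ N N := by
    have e3 : st x ρ N 0 (b + 1) = N := by
      simp only [st]
      rw [if_neg (by omega), if_pos trivial]
    simp only [exec, e3]
    exact hiter x ρ N N hρ
  have hb' : b + 1 ≠ out := by omega
  have hb'' : b + 2 ≠ out := by omega
  have hbo : b ≠ out := by omega
  have h6 : (store b out).exec x (st x ρ N N) = fun j => if j = out then val x v N else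
      if j = b then 0 else st x ρ N N j := by
    simp only [store, exec, exec_clr, exec_mv x hbo]
    funext j
    simp only [Function.update_apply, st, ← hv]
    by_cases j1 : j = out
    · subst j1
      simp [hbo]
    · rw [if_neg j1, if_neg j1]
      by_cases j2 : j = b
      · subst j2
        simp [j1]
      · rw [if_neg j2, if_neg j2, if_neg j1]
  refine ⟨?_, ?_⟩
  · simp only [exec] at h5 ⊢
    rw [h1, h3, h5, h6]
    simp only [exec_clr]
    funext j
    simp only [Function.update_apply, st]
    have z1 := hρ b le_rfl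
    have z2 := hρ (b + 1) (by omega)
    have z3 := hρ (b + 2) (by omega)
    by_cases j3 : j = b + 2
    · subst j3
      rw [if_pos rfl, if_neg hb'', z3]
    · rw [if_neg j3]
      by_cases j2 : j = b + 1
      · subst j2
        rw [if_pos rfl, if_neg hb', z2]
      · rw [if_neg j2]
        by_cases j1 : j = out
        · rw [if_pos j1, if_pos j1, ← hv, ← hN]
        · rw [if_neg j1, if_neg j1]
          by_cases j0 : j = b
          · subst j0
            rw [if_pos rfl, z1]
          · rw [if_neg j0, if_neg j0, if_neg j2, if_neg j3]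
  · have hvb : ∀ k ≤ N, val x v k ≤ Pb.eval S := fun k hk => by
      rw [hS]; exact hPb x v k (hN ▸ hk)
    have hNb : N ≤ Pn.eval S := by rw [hN, hS]; exact hPn x v
    have hc : (rep (b + 1) body).cost x (st x ρ N 0) ≤ N + 1 +
        N * (QG.eval (S + Pn.eval S + (Pb.eval S + Pb.eval S)) + 2) := by
      have e3 : st x ρ N 0 (b + 1) = N := by
        simp only [st]
        rw [if_neg (by omega), if_pos trivial]
      simp only [cost, e3]
      refine Nat.add_le_add le_rfl ?_
      have h8 : ∀ k ∈ Finset.range N, body.cost x ((body.exec x)^[k] (st x ρ N 0)) + 1 ≤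
          QG.eval (S + Pn.eval S + (Pb.eval S + Pb.eval S)) + 2 := by
        intro k hk
        have hk' := Finset.mem_range.1 hk
        rw [hiter x ρ N k hρ]
        have h9 : body.cost x (st x ρ N k) ≤
            QG.eval (x.length + (k + (val x v k + ∑ i, v i)) + val x v k) + 1 := by
          have h13 := (hstep x ρ N k hρ).2
          rw [← hv] at h13
          exact h13
        have h10 : QG.eval (x.length + (k + (val x v k + ∑ i, v i)) + val x v k) ≤
            QG.eval (S + Pn.eval S + (Pb.eval S + Pb.eval S)) := by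
          refine ev_mono QG ?_
          have h11 := hvb k hk'.le
          have h12 : S = x.length + ∑ i, v i := hS
          omega
        omega
      refine (Finset.sum_le_sum h8).trans ?_
      simp
    have hst : (store b out).cost x (st x ρ N N) ≤ ρ out * 3 + 1 + (Pb.eval S * 4 + 1) := by
      rw [cost_store x hbo.symm]
      have e4 : st x ρ N N out = ρ out := by
        simp only [st]
        rw [if_neg hbo.symm, if_neg hb'.symm, if_neg hb''.symm]
      have e5 : st x ρ N N b = val x v N := by
        simp only [st]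
        rw [if_pos trivial, ← hv]
      rw [e4, e5]
      have := hvb N le_rfl
      omega
    simp only [cost] at hc ⊢
    simp only [exec] at h5 ⊢
    rw [h1, h3, h5, h6, ← hv, ← hS]
    simp only [cost_clr, exec_clr]
    rw [if_neg hb', if_neg (show ¬ b + 1 = b by omega),
      Function.update_of_ne (show b + 2 ≠ b + 1 by omega), if_neg hb'',
      if_neg (show ¬ b + 2 = b by omega)]
    have e6 : st x ρ N N (b + 1) = N := by
      simp only [st]
      rw [if_neg (by omega), if_pos trivial]
    have e7 : st x ρ N N (b + 2) = N := by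
      simp only [st]
      rw [if_neg (by omega), if_neg (by omega), if_pos trivial]
    rw [e6, e7]
    refine le_trans ?_ (hP _)
    beta_reduce
    have m1 : Qa.eval S ≤ Qa.eval (S + ρ out) := ev_mono _ (Nat.le_add_right _ _)
    have m2 : Qn.eval S ≤ Qn.eval (S + ρ out) := ev_mono _ (Nat.le_add_right _ _)
    have m3 : Pn.eval S ≤ Pn.eval (S + ρ out) := ev_mono _ (Nat.le_add_right _ _)
    have m4 : Pb.eval S ≤ Pb.eval (S + ρ out) := ev_mono _ (Nat.le_add_right _ _)
    have m5 : N * (QG.eval (S + Pn.eval S + (Pb.eval S + Pb.eval S)) + 2) ≤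
        Pn.eval (S + ρ out) * (QG.eval (S + ρ out + Pn.eval (S + ρ out) +
          (Pb.eval (S + ρ out) + Pb.eval (S + ρ out))) + 2) := by
      refine Nat.mul_le_mul (hNb.trans m3) (Nat.add_le_add (ev_mono QG ?_) le_rfl)
      omega
    omega

end Pool.Agent.Lib.MP_70d3b5_lc
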