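import Pool.Agent.Lib.MP_70d3b5_lc.Params

/-!
# The main theorem
-/

open Finset

namespace Pool.Agent.Lib.MP_70d3b5_lc

/-- The lower bound on the number of NOT patterns. -/
theorem lt_patterns {n : ℕ} {gs : List Gate} {out : ℕ} (hD : Decides Lang n gs out) :
    n < 23040 * (patterns n gs).card * (Nat.log 2 (max n (ands gs)) + 1) ^ 3 *
      (Nat.log 2 n + 1) ^ 2 := by
  by_contra h
  push Not at h
  have h1 := tradeoff hD (w := Nat.log 2 (max n (ands gs)) + 1) (by omega)
    ((Nat.log_mono_right (le_max_left _ _)).trans (Nat.le_succ _)) h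
  have h2 : max n (ands gs) < 2 ^ (Nat.log 2 (max n (ands gs)) + 1) :=
    Nat.lt_pow_succ_log_self (by norm_num) _
  have h3 : ands gs ≤ max n (ands gs) := le_max_right _ _
  omega

theorem length_pattern (gs : List Gate) (w : List Bool) : (pattern w gs).length = nots gs := by
  induction gs generalizing w with
  | nil => rfl
  | cons g gs ih =>
    cases g <;> simp [pattern, nots, ih]

theorem card_patterns_le (n : ℕ) (gs : List Gate) : (patterns n gs).card ≤ 2 ^ nots gs := by
  have h : patterns n gs ⊆ (univ : Finset (Fin (nots gs) → Bool)).image List.ofFn := by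
    intro p hp
    unfold patterns at hp
    obtain ⟨x, _, rfl⟩ := mem_image.1 hp
    refine mem_image.2 ⟨fun i => (pattern (List.ofFn x) gs).get
      (i.cast (length_pattern gs _).symm), mem_univ _, ?_⟩
    refine List.ext_get (by simp [length_pattern]) fun i h1 h2 => ?_
    simp
  refine (card_le_card h).trans (card_image_le.trans ?_)
  simp

theorem log_bound (k n s : ℕ) (hn : 1 ≤ n) (hs : s ≤ n ^ k + k) :
    Nat.log 2 (max n s) + 1 ≤ (2 * k + 3) * (Nat.log 2 n + 1) := by
  have h1 : max n s < 2 ^ ((2 * k + 2) * (Nat.log 2 n + 1)) := by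
    set l := Nat.log 2 n + 1 with hl
    have hnl : n < 2 ^ l := Nat.lt_pow_succ_log_self (by norm_num) n
    have hl1 : 1 ≤ l := by omega
    clear_value l
    have h2 : n ^ k ≤ 2 ^ (k * l) := by
      rw [mul_comm, pow_mul]
      exact Nat.pow_le_pow_left hnl.le k
    have h3 : k < 2 ^ (k * l) :=
      Nat.lt_two_pow_self.trans_le (Nat.pow_le_pow_right (by norm_num)
        (Nat.le_mul_of_pos_right k hl1))
    have h4 : (2 * k + 2) * l = l + (k * l + (k * l + l)) := by ring
    have h5 : 2 ^ 1 ≤ 2 ^ l := Nat.pow_le_pow_right (by norm_num) hl1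
    have h6 : 1 ≤ 2 ^ (k * l) := Nat.one_le_two_pow
    rw [max_lt_iff]
    constructor
    · refine hnl.trans_le (Nat.pow_le_pow_right (by norm_num) ?_)
      rw [h4]
      omega
    · rw [h4, pow_add, pow_add, pow_add]
      have h7 : s < 2 * 2 ^ (k * l) := by omega
      have h8 : 2 * 2 ^ (k * l) ≤ 2 ^ l * 2 ^ (k * l) := Nat.mul_le_mul_right _ h5
      have h9 : 2 ^ l * 2 ^ (k * l) ≤ 2 ^ l * (2 ^ (k * l) * (2 ^ (k * l) * 2 ^ l)) := by
        refine Nat.mul_le_mul_left _ (Nat.le_mul_of_pos_right _ (by positivity))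
      omega
  have h2 : Nat.log 2 (max n s) < (2 * k + 2) * (Nat.log 2 n + 1) := by
    refine Nat.log_lt_of_lt_pow ?_ h1
    have := le_max_left n s
    omega
  have h3 : (2 * k + 3) * (Nat.log 2 n + 1) =
      (2 * k + 2) * (Nat.log 2 n + 1) + (Nat.log 2 n + 1) := by ring
  omega

/-- The lower bound on the number of NOT gates of circuits of polynomial size. -/
theorem lt_nots (k : ℕ) : ∃ C : ℝ, ∀ (n : ℕ) (gs : List Gate) (out : ℕ), 2 ≤ n →
    Decides Lang n gs out → ands gs + ors gs ≤ n ^ k + k →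
    Real.logb 2 n - 5 * Real.logb 2 (Real.logb 2 n) - C ≤ nots gs := by
  refine ⟨Real.logb 2 (23040 * (2 * k + 3) ^ 3) + 5, fun n gs out hn hD hs => ?_⟩
  have h1 := lt_patterns hD
  have h2 := log_bound k n (ands gs) (by omega) (by omega)
  have h3 := card_patterns_le n gs
  set l := Nat.log 2 n + 1 with hl
  have h4 : n < 23040 * 2 ^ nots gs * ((2 * k + 3) * l) ^ 3 * l ^ 2 := by
    refine h1.trans_le ?_
    gcongr
  have h5 : (n : ℝ) < (23040 * (2 * k + 3) ^ 3) * 2 ^ nots gs * (l : ℝ) ^ 5 := by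
    have : (n : ℝ) < ((23040 * 2 ^ nots gs * ((2 * k + 3) * l) ^ 3 * l ^ 2 : ℕ) : ℝ) := by
      exact_mod_cast h4
    refine this.trans_le (le_of_eq ?_)
    push_cast
    ring
  have hnR : (2 : ℝ) ≤ n := by exact_mod_cast hn
  have hn0 : (0 : ℝ) < n := by linarith
  have hL1 : 1 ≤ Real.logb 2 n := by
    rw [Real.le_logb_iff_rpow_le (by norm_num) hn0]
    simpa using hnR
  have hlL : (l : ℝ) ≤ 2 * Real.logb 2 n := by
    have h6 : (Nat.log 2 n : ℝ) ≤ Real.logb 2 n := by
      rw [Real.le_logb_iff_rpow_le (by norm_num) hn0, Real.rpow_natCast]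
      exact_mod_cast Nat.pow_log_le_self 2 (by omega)
    rw [hl]
    push_cast
    linarith
  have hl0 : (0 : ℝ) < l := by
    rw [hl]; positivity
  have hK : (0 : ℝ) < 23040 * (2 * k + 3) ^ 3 := by positivity
  have h6 : Real.logb 2 n ≤ Real.logb 2 ((23040 * (2 * k + 3) ^ 3) * 2 ^ nots gs * (l : ℝ) ^ 5) :=
    Real.logb_le_logb_of_le (by norm_num) hn0 h5.le
  rw [Real.logb_mul (by positivity) (by positivity), Real.logb_mul (by positivity) (by positivity),
    Real.logb_pow, Real.logb_pow, Real.logb_self_eq_one (by norm_num)] at h6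
  have h7 : Real.logb 2 l ≤ 1 + Real.logb 2 (Real.logb 2 n) := by
    have h8 : Real.logb 2 l ≤ Real.logb 2 (2 * Real.logb 2 n) :=
      Real.logb_le_logb_of_le (by norm_num) hl0 hlL
    rwa [Real.logb_mul (by norm_num) (by positivity), Real.logb_self_eq_one (by norm_num)] at h8
  push_cast at h6
  linarith

end Pool.Agent.Lib.MP_70d3b5_lc
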