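import Pool.Agent.Lib.MP_70d3b5_lc.Approx

/-!
# The hybrid argument over the stages of the noise
-/

open Finset

namespace Pool.Agent.Lib.MP_70d3b5_lc

variable {U V : Type} [Fintype V] [DecidableEq V]

theorem MC.restrict (R : Finset V) {s : ℕ} {F : List (Finset V → Prop)} (h : MC s F) :
    MC s (F.map fun f X => f (R ∪ X)) := by
  induction h with
  | nil => exact MC.nil
  | @var s F v _ ih =>
    rw [List.map_cons]
    by_cases hv : v ∈ R
    · have : (fun X : Finset V => v ∈ R ∪ X) = fun _ => True := by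
        funext X; simp [hv]
      rw [this]
      exact ih.tt
    · have : (fun X : Finset V => v ∈ R ∪ X) = fun X => v ∈ X := by
        funext X; simp [hv]
      rw [this]
      exact ih.var v
  | tt _ ih => exact ih.tt
  | ff _ ih => exact ih.ff
  | or _ hf hg ih =>
    exact MC.or ih (List.mem_map_of_mem hf) (List.mem_map_of_mem hg)
  | and _ hf hg ih =>
    exact MC.and ih (List.mem_map_of_mem hf) (List.mem_map_of_mem hg)

/-- The noise of the first `j` stages. -/
def RR {j b N : ℕ} (ω : Fin j → Fin b → V → Fin N) : Finset V := univ.biUnion fun i => ZZ (ω i)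

theorem RR_cons {j b N : ℕ} (z : Fin b → V → Fin N) (ω : Fin j → Fin b → V → Fin N) :
    RR (Fin.cons z ω : Fin (j + 1) → Fin b → V → Fin N) = RR ω ∪ ZZ z := by
  ext v
  simp only [RR, mem_biUnion, mem_univ, true_and, mem_union]
  constructor
  · rintro ⟨i, hi⟩
    refine Fin.cases (fun hi => Or.inr (by simpa using hi)) (fun i hi => Or.inl ⟨i, by simpa using hi⟩)
      i hi
  · rintro (⟨i, hi⟩ | h)
    · exact ⟨i.succ, by simpa using hi⟩
    · exact ⟨0, by simpa using h⟩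

theorem pr_succ {j b N : ℕ} (P : Finset V → Prop) :
    pr (fun ω : Fin (j + 1) → Fin b → V → Fin N => P (RR ω)) =
      pr (fun p : (Fin j → Fin b → V → Fin N) × (Fin b → V → Fin N) => P (RR p.1 ∪ ZZ p.2)) := by
  let e : (Fin j → Fin b → V → Fin N) × (Fin b → V → Fin N) ≃ (Fin (j + 1) → Fin b → V → Fin N) :=
    (Equiv.prodComm _ _).trans (Fin.consEquiv (fun _ => Fin b → V → Fin N))
  rw [← pr_equiv e]
  refine pr_congr fun p => ?_
  have : e p = Fin.cons p.2 p.1 := rfl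
  rw [this, RR_cons]

theorem pr_diff {α : Type} [Fintype α] {P Q : α → Prop} (h : ∀ a, Q a → P a) :
    pr (fun a => P a ∧ ¬ Q a) = pr P - pr Q := by
  classical
  rw [pr_def, pr_def P, pr_def Q, ← sub_div]
  congr 1
  have : (univ.filter fun a => P a ∧ ¬ Q a) = univ.filter P \ univ.filter Q := by
    ext a; simp
  rw [this, card_sdiff_of_subset (monotone_filter_right _ fun a _ => h a), Nat.cast_sub]
  exact card_le_card (monotone_filter_right _ fun a _ => h a)

variable [Fintype U] [Nonempty U]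

/-- One stage of the hybrid argument. -/
theorem MC.stage {S : U → Finset V} {q κ : ℝ} {w N b : ℕ} (hN : 0 < N) (hw : 1 ≤ w)
    (hb : 2 ≤ b) (hκ : 0 < κ) (hκL : ((2 * w : ℕ) : ℝ) * N ≤ κ) (hκq : 4 * κ ≤ q)
    (hS : Spread S q (2 * w)) {s : ℕ} {F : List (Finset V → Prop)} (hF : MC s F)
    {f : Finset V → Prop} (hf : f ∈ F) (j : ℕ) :
    pr (fun p : (Fin j → Fin b → V → Fin N) × U => f (RR p.1 ∪ S p.2) ∧ ¬ f (RR p.1)) ≤
      pr (fun ω : Fin (j + 1) → Fin b → V → Fin N => f (RR ω)) -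
        pr (fun ω : Fin j → Fin b → V → Fin N => f (RR ω)) +
      (s * ((κ / q) ^ (w + 1) + numSets V (2 * w) * (2 / 3) ^ b) + (2 / 3) ^ b) := by
  set ε : ℝ := s * ((κ / q) ^ (w + 1) + numSets V (2 * w) * (2 / 3) ^ b) + (2 / 3) ^ b
  have hne : Nonempty (Fin N) := ⟨⟨0, hN⟩⟩
  have hmono := hF.mono f hf
  have h1 := pr_diff (α := (Fin j → Fin b → V → Fin N) × U)
    (P := fun p => f (RR p.1 ∪ S p.2)) (Q := fun p => f (RR p.1))
    (fun p h => hmono _ _ subset_union_left h)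
  rw [h1, pr_fst (fun ω : Fin j → Fin b → V → Fin N => f (RR ω)), pr_succ]
  have h2 : pr (fun p : (Fin j → Fin b → V → Fin N) × U => f (RR p.1 ∪ S p.2)) ≤
      pr (fun p : (Fin j → Fin b → V → Fin N) × (Fin b → V → Fin N) => f (RR p.1 ∪ ZZ p.2)) + ε := by
    rw [pr_prod (fun (ω : Fin j → Fin b → V → Fin N) (u : U) => f (RR ω ∪ S u)),
      pr_prod (fun (ω : Fin j → Fin b → V → Fin N) (z : Fin b → V → Fin N) => f (RR ω ∪ ZZ z))]
    have h3 : ∀ ω : Fin j → Fin b → V → Fin N, pr (fun u => f (RR ω ∪ S u)) ≤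
        pr (fun z : Fin b → V → Fin N => f (RR ω ∪ ZZ z)) + ε := by
      intro ω
      have h4 : (fun X => f (RR ω ∪ X)) ∈ F.map (fun (f : Finset V → Prop) X => f (RR ω ∪ X)) :=
        List.mem_map_of_mem (f := fun (f : Finset V → Prop) X => f (RR ω ∪ X)) hf
      have h5 := (hF.restrict (RR ω)).compare hN hw hb hκ hκL hκq hS (b := b) h4
      exact h5
    have h0 : (0 : ℝ) < Fintype.card (Fin j → Fin b → V → Fin N) := by
      have : 0 < Fintype.card (Fin j → Fin b → V → Fin N) := Fintype.card_pos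
      exact_mod_cast this
    rw [div_add' _ _ _ h0.ne']
    refine div_le_div_of_nonneg_right ?_ h0.le
    refine (sum_le_sum fun ω _ => h3 ω).trans ?_
    rw [sum_add_distrib]
    simp [mul_comm]
  linarith

/-- The main existence statement: a pair of nested sets that is separated by `f` and by none of
the monotone functions `g i`. -/
theorem exists_pair {S : U → Finset V} {q κ : ℝ} {w N b m : ℕ} (hN : 0 < N) (hw : 1 ≤ w)
    (hb : 2 ≤ b) (hκ : 0 < κ) (hκL : ((2 * w : ℕ) : ℝ) * N ≤ κ) (hκq : 4 * κ ≤ q)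
    (hS : Spread S q (2 * w)) {s : ℕ} {ι : Type} (I : Finset ι) (g : ι → Finset V → Prop)
    (hg : ∀ i ∈ I, ∃ F, MC s F ∧ g i ∈ F) (f : Finset V → Prop) {η : ℝ}
    (hf : ∀ j < m, pr (fun ω : Fin j → Fin b → V → Fin N => f (RR ω)) ≤ η)
    (hη : I.card * (1 + m * (s * ((κ / q) ^ (w + 1) + numSets V (2 * w) * (2 / 3) ^ b) +
      (2 / 3) ^ b)) + m * η < m) :
    ∃ (X : Finset V) (u : U), ¬ f X ∧ ∀ i ∈ I, g i (X ∪ S u) → g i X := by
  classical
  set ε : ℝ := s * ((κ / q) ^ (w + 1) + numSets V (2 * w) * (2 / 3) ^ b) + (2 / 3) ^ b with hε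
  have hne : Nonempty (Fin N) := ⟨⟨0, hN⟩⟩
  have h1 : ∀ i ∈ I, ∑ j ∈ range m, pr (fun p : (Fin j → Fin b → V → Fin N) × U =>
      g i (RR p.1 ∪ S p.2) ∧ ¬ g i (RR p.1)) ≤ 1 + m * ε := by
    intro i hi
    obtain ⟨F, hF, hgF⟩ := hg i hi
    refine (sum_le_sum fun j _ => hF.stage hN hw hb hκ hκL hκq hS (b := b) hgF j).trans ?_
    rw [← hε, sum_add_distrib,
      sum_range_sub (fun j => pr (fun ω : Fin j → Fin b → V → Fin N => g i (RR ω))) m]
    have a1 := pr_le_one (fun ω : Fin m → Fin b → V → Fin N => g i (RR ω))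
    have a2 := pr_nonneg (fun ω : Fin 0 → Fin b → V → Fin N => g i (RR ω))
    simp only [sum_const, card_range, nsmul_eq_mul]
    linarith
  have h2 : ∑ j ∈ range m, (∑ i ∈ I, pr (fun p : (Fin j → Fin b → V → Fin N) × U =>
      g i (RR p.1 ∪ S p.2) ∧ ¬ g i (RR p.1)) +
      pr (fun ω : Fin j → Fin b → V → Fin N => f (RR ω))) < ∑ j ∈ range m, (1 : ℝ) := by
    rw [sum_add_distrib, sum_comm]
    have a1 := sum_le_sum h1
    have a2 : ∑ j ∈ range m, pr (fun ω : Fin j → Fin b → V → Fin N => f (RR ω)) ≤ m * η := by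
      refine (sum_le_sum fun j hj => hf j (mem_range.1 hj)).trans ?_
      simp
    simp only [sum_const, nsmul_eq_mul, card_range, mul_one] at a1 ⊢
    linarith
  obtain ⟨j, hj, hlt⟩ := exists_lt_of_sum_lt h2
  have h3 : pr (fun p : (Fin j → Fin b → V → Fin N) × U =>
      (∃ i ∈ I, g i (RR p.1 ∪ S p.2) ∧ ¬ g i (RR p.1)) ∨ f (RR p.1)) < 1 := by
    refine lt_of_le_of_lt ((pr_or_le _ _).trans (add_le_add (pr_exists_le I _) (le_of_eq ?_))) hlt
    exact pr_fst (fun ω : Fin j → Fin b → V → Fin N => f (RR ω))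
  obtain ⟨p, hp⟩ := exists_not_of_pr_lt h3
  rw [not_or] at hp
  refine ⟨RR p.1, p.2, hp.2, fun i hi h => ?_⟩
  by_contra hc
  exact hp.1 ⟨i, hi, h, hc⟩

/-- The probability that the noise contains a given set. -/
theorem pr_subset_RR {j b N : ℕ} (hN : 0 < N) (A : Finset V) :
    pr (fun ω : Fin j → Fin b → V → Fin N => A ⊆ RR ω) =
      (1 - (1 - 1 / (N : ℝ)) ^ (b * j)) ^ A.card := by
  have hne : Nonempty (Fin N) := ⟨⟨0, hN⟩⟩
  let e : (V → Fin j → Fin b → Fin N) ≃ (Fin j → Fin b → V → Fin N) :=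
    { toFun := fun x i k v => x v i k
      invFun := fun x v i k => x i k v
      left_inv := fun _ => rfl
      right_inv := fun _ => rfl }
  rw [← pr_equiv e]
  have h1 : pr (fun x : V → Fin j → Fin b → Fin N => A ⊆ RR (e x)) =
      pr (fun x : V → Fin j → Fin b → Fin N => ∀ v ∈ A, ∃ i k, ((x v i k : Fin N) : ℕ) = 0) := by
    refine pr_congr fun x => ?_
    simp only [subset_iff, RR, ZZ, mem_biUnion, mem_univ, true_and, mem_Z]
    rfl
  rw [h1, pr_pi_forall_mem A (fun y : Fin j → Fin b → Fin N => ∃ i k, ((y i k : Fin N) : ℕ) = 0)]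
  congr 1
  have h2 : pr (fun y : Fin j → Fin b → Fin N => ¬ ∃ i k, ((y i k : Fin N) : ℕ) = 0) =
      (1 - 1 / (N : ℝ)) ^ (b * j) := by
    have h3 : pr (fun y : Fin j → Fin b → Fin N => ¬ ∃ i k, ((y i k : Fin N) : ℕ) = 0) =
        pr (fun y : Fin j → Fin b → Fin N => ∀ i, (∀ k, ¬ ((y i k : Fin N) : ℕ) = 0)) := by
      refine pr_congr fun y => ?_
      push Not
      rfl
    rw [h3, pr_pi_forall j (fun y : Fin b → Fin N => ∀ k, ¬ ((y k : Fin N) : ℕ) = 0),
      pr_pi_forall b (fun y : Fin N => ¬ (y : ℕ) = 0), pr_compl, pr_zero hN, pow_mul]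
  rw [pr_compl] at h2
  linarith

end Pool.Agent.Lib.MP_70d3b5_lc
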