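import Pool.Agent.Lib.PolyTM.Main

/-!
# Loop programs and their translation to `TM2` machines

`Lp A` is the language of loop programs over counters (numbered by natural numbers) that may also
look at the input string `x : List A`.
-/

open Turing StateTransition

namespace Pool.Agent.Lib.MP_70d3b5_lc

open Pool.Agent.Lib.PolyTM

/-- Loop programs. -/
inductive Lp (A : Type) : Type
  | nop : Lp A
  | inc (r : ℕ) : Lp A
  | dec (r : ℕ) : Lp A
  | seq (c d : Lp A) : Lp A
  | ifz (r : ℕ) (c d : Lp A) : Lp A
  | ifsym (r : ℕ) (s : Option A) (c d : Lp A) : Lp A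
  | rep (r : ℕ) (c : Lp A) : Lp A

namespace Lp

variable {A : Type}

open Classical in
/-- The effect of a program on the counters. -/
noncomputable def exec (x : List A) : Lp A → (ℕ → ℕ) → ℕ → ℕ
  | nop, ρ => ρ
  | inc r, ρ => Function.update ρ r (ρ r + 1)
  | dec r, ρ => Function.update ρ r (ρ r - 1)
  | seq c d, ρ => exec x d (exec x c ρ)
  | ifz r c d, ρ => if ρ r = 0 then exec x c ρ else exec x d ρ
  | ifsym r s c d, ρ => if x[ρ r]? = s then exec x c ρ else exec x d ρ
  | rep r c, ρ => (exec x c)^[ρ r] ρ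

open Classical in
/-- The number of steps. -/
noncomputable def cost (x : List A) : Lp A → (ℕ → ℕ) → ℕ
  | nop, _ => 1
  | inc _, _ => 1
  | dec _, _ => 1
  | seq c d, ρ => cost x c ρ + cost x d (exec x c ρ)
  | ifz r c d, ρ => 1 + if ρ r = 0 then cost x c ρ else cost x d ρ
  | ifsym r s c d, ρ => (ρ r + 1) + if x[ρ r]? = s then cost x c ρ else cost x d ρ
  | rep r c, ρ => (ρ r + 1) + ∑ i ∈ Finset.range (ρ r), (cost x c ((exec x c)^[i] ρ) + 1)

/-- All counters of the program are at most `M`. -/
def Regs (M : ℕ) : Lp A → Prop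
  | nop => True
  | inc r => r ≤ M
  | dec r => r ≤ M
  | seq c d => c.Regs M ∧ d.Regs M
  | ifz r c d => r ≤ M ∧ c.Regs M ∧ d.Regs M
  | ifsym r _ c d => r ≤ M ∧ c.Regs M ∧ d.Regs M
  | rep r c => r ≤ M ∧ c.Regs M

theorem Regs.mono {M M' : ℕ} (h : M ≤ M') : ∀ {c : Lp A}, c.Regs M → c.Regs M'
  | nop, _ => trivial
  | inc _, hc => le_trans hc h
  | dec _, hc => le_trans hc h
  | seq _ _, hc => ⟨Regs.mono h hc.1, Regs.mono h hc.2⟩
  | ifz _ _ _, hc => ⟨hc.1.trans h, Regs.mono h hc.2.1, Regs.mono h hc.2.2⟩
  | ifsym _ _ _ _, hc => ⟨hc.1.trans h, Regs.mono h hc.2.1, Regs.mono h hc.2.2⟩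
  | rep _ _, hc => ⟨hc.1.trans h, Regs.mono h hc.2⟩

theorem exists_regs : ∀ c : Lp A, ∃ M, c.Regs M
  | nop => ⟨0, trivial⟩
  | inc r => ⟨r, le_rfl⟩
  | dec r => ⟨r, le_rfl⟩
  | seq c d => by
    obtain ⟨M, h⟩ := exists_regs c
    obtain ⟨M', h'⟩ := exists_regs d
    exact ⟨max M M', h.mono (le_max_left _ _), h'.mono (le_max_right _ _)⟩
  | ifz r c d => by
    obtain ⟨M, h⟩ := exists_regs c
    obtain ⟨M', h'⟩ := exists_regs d
    exact ⟨max r (max M M'), le_max_left _ _, h.mono (by omega), h'.mono (by omega)⟩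
  | ifsym r _ c d => by
    obtain ⟨M, h⟩ := exists_regs c
    obtain ⟨M', h'⟩ := exists_regs d
    exact ⟨max r (max M M'), le_max_left _ _, h.mono (by omega), h'.mono (by omega)⟩
  | rep r c => by
    obtain ⟨M, h⟩ := exists_regs c
    exact ⟨max r M, le_max_left _ _, h.mono (le_max_right _ _)⟩

/-- The nesting depth of the loops. -/
def depth : Lp A → ℕ
  | nop => 0
  | inc _ => 0
  | dec _ => 0
  | seq c d => max c.depth d.depth
  | ifz _ c d => max c.depth d.depth
  | ifsym _ _ c d => max c.depth d.depth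
  | rep _ c => c.depth + 1

theorem exec_of_gt {M : ℕ} (x : List A) : ∀ {c : Lp A}, c.Regs M → ∀ (ρ : ℕ → ℕ) {j : ℕ}, M < j →
    exec x c ρ j = ρ j := by
  intro c
  induction c with
  | nop => intro _ ρ j _; rfl
  | inc r =>
    intro hc ρ j hj
    simp only [Regs] at hc
    simp only [exec]
    rw [Function.update_of_ne (by omega)]
  | dec r =>
    intro hc ρ j hj
    simp only [Regs] at hc
    simp only [exec]
    rw [Function.update_of_ne (by omega)]
  | seq c d ihc ihd =>
    intro hc ρ j hj
    simp only [exec]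
    rw [ihd hc.2 _ hj, ihc hc.1 _ hj]
  | ifz r c d ihc ihd =>
    intro hc ρ j hj
    simp only [exec]
    split_ifs
    · exact ihc hc.2.1 ρ hj
    · exact ihd hc.2.2 ρ hj
  | ifsym r s c d ihc ihd =>
    intro hc ρ j hj
    simp only [exec]
    split_ifs
    · exact ihc hc.2.1 ρ hj
    · exact ihd hc.2.2 ρ hj
  | rep r c ih =>
    intro hc ρ j hj
    simp only [exec]
    have : ∀ n : ℕ, ∀ ρ : ℕ → ℕ, ((exec x c)^[n] ρ) j = ρ j := by
      intro n
      induction n with
      | zero => intro ρ; rfl
      | succ n ihn =>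
        intro ρ
        rw [Function.iterate_succ_apply, ihn, ih hc.2 ρ hj]
    exact this _ _

end Lp

/-! ### Translation -/

/-- The rule for while loops with varying costs. -/
theorem does_whileT' {A T R : Type} [DecidableEq R] {q c : Prog A T R} {f : Mem A T R → Bool}
    (hq : Tests q f) (I : ℕ → Mem A T R) (n : ℕ) (t : ℕ → ℕ) (h0 : f (I 0) = false)
    (hs : ∀ i < n, f (I (i + 1)) = true) (hb : ∀ i < n, Does c (I (i + 1)) (t i) (I i)) :
    Does (whileT q c) (I n) (∑ i ∈ Finset.range n, (t i + 2) + 2) (I 0) := by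
  have key : ∀ k ≤ n, ∀ v : Var A T, v.1 = f (I k) → ∃ v' j,
      j ≤ ∑ i ∈ Finset.range k, (t i + 2) + 1 ∧
      Cmd.Run (.loop (fun v => v.1) (.seq c q)) v (I k).toStk j v' (I 0).toStk := by
    intro k
    induction k with
    | zero =>
      intro _ v hv
      exact ⟨v, 1, by simp, .loop_false (hv.trans h0)⟩
    | succ k ih =>
      intro hk v hv
      obtain ⟨v₁, n₁, hn₁, hr₁⟩ := hb k (by omega) v
      obtain ⟨v₂, h₂, h₃⟩ := hq (I k) v₁
      obtain ⟨v₃, n₃, hn₃, hr₃⟩ := ih (by omega) v₂ h₃
      refine ⟨v₃, n₁ + 1 + n₃ + 1, ?_, .loop_true (hv.trans (hs k (by omega))) (.seq hr₁ h₂) hr₃⟩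
      rw [Finset.sum_range_succ]
      omega
  intro v
  obtain ⟨v', h1, h2⟩ := hq (I n) v
  obtain ⟨v'', j, hj, hr⟩ := key n le_rfl v' h2
  exact ⟨v'', 1 + j, by omega, .seq h1 hr⟩

section comp

variable {A T : Type} {M D : ℕ}

/-- The counters of the machine: `M + 1` user counters and `D + 1` loop counters. -/
abbrev RV (M D : ℕ) : Type := Reg (Fin (M + 1) ⊕ Fin (D + 1))

/-- The machine counter of the user counter `r`. -/
def ur (M D r : ℕ) : RV M D := .a (.inl (Fin.ofNat (M + 1) r))

/-- The machine counter of the loop counter `i`. -/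
def lr (M D i : ℕ) : RV M D := .a (.inr (Fin.ofNat (D + 1) i))

/-- Add the counter `p` to `q`, using `t1`. -/
def copyReg (p q : RV M D) : Prog A T (RV M D) :=
  .seq (whileT (tReg p) (.seq (dec p) (.seq (inc .t1) (inc q)))) (mvReg .t1 p)

theorem does_copyReg {p q : RV M D} (hpq : p ≠ q) (hp : p ≠ .t1) (hq : q ≠ .t1)
    (m : Mem A T (RV M D)) (h1 : m.r .t1 = 0) :
    Does (copyReg p q) m (m.r p * 9 + 4)
      { m with r := Function.update m.r q (m.r q + m.r p) } := by
  let I : ℕ → Mem A T (RV M D) := fun i => { m with r := (fun x => if x = p then i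
    else if x = .t1 then m.r p - i else if x = q then m.r q + (m.r p - i) else m.r x) }
  have a1 : Does (whileT (tReg p) (.seq (dec p) (.seq (inc .t1) (inc q)))) m
      (m.r p * 5 + 2) (I 0) := by
    refine does_while (tests_tReg p) I (m.r p) 3 ?_ rfl (by simp [I])
      (by intro i _; simp [I]) ?_ (by omega)
    · refine Mem.ext rfl rfl rfl rfl rfl (funext fun x => ?_)
      simp only [I]
      split_ifs <;> simp_all
    · intro i hi
      refine Does.fin ((does_dec p _).seq ((does_inc .t1 _).seq (does_inc q _)))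
        (by omega) ?_
      refine Mem.ext rfl rfl rfl rfl rfl (funext fun x => ?_)
      simp only [I, Function.update_apply]
      split_ifs <;> simp_all <;> omega
  have a2 := does_mvReg (p := (.t1 : RV M D)) (q := p) hp.symm (I 0)
  have e1 : (I 0).r .t1 = m.r p := by simp [I, hp.symm]
  have e2 : (I 0).r p = 0 := by simp [I]
  rw [e1, e2] at a2
  refine Does.fin (a1.seq a2) (by omega) ?_
  refine Mem.ext rfl rfl rfl rfl rfl (funext fun x => ?_)
  simp only [I, Function.update_apply]
  split_ifs <;> simp_all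

/-- Translation of loop programs; loops at depth `i` use the loop counter `i`. -/
noncomputable def Lp.comp (M D : ℕ) : Lp A → ℕ → Prog A T (RV M D)
  | .nop, _ => skip
  | .inc r, _ => PolyTM.inc (ur M D r)
  | .dec r, _ => PolyTM.dec (ur M D r)
  | .seq c d, i => .seq (c.comp M D i) (d.comp M D i)
  | .ifz r c d, i => ifT (tReg (ur M D r)) (d.comp M D i) (c.comp M D i)
  | .ifsym r s c d, i => .seq (symTest (.inl (Fin.ofNat (M + 1) r)) s)
      (ifT (tReg .fl) (.seq (PolyTM.dec .fl) (c.comp M D i)) (d.comp M D i))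
  | .rep r c, i => .seq (copyReg (ur M D r) (lr M D i))
      (whileT (tReg (lr M D i)) (.seq (PolyTM.dec (lr M D i)) (c.comp M D (i + 1))))

/-- Change the user counters. -/
def updF (f : RV M D → ℕ) (ρ : ℕ → ℕ) : RV M D → ℕ
  | .a (.inl r) => ρ r
  | .a (.inr j) => f (.a (.inr j))
  | .nn => f .nn
  | .fl => f .fl
  | .t1 => f .t1
  | .t2 => f .t2
  | .b v => f (.b v)

/-- Change the user counters. -/
def upd (m : Mem A T (RV M D)) (ρ : ℕ → ℕ) : Mem A T (RV M D) := { m with r := updF m.r ρ }

theorem updF_updF (f : RV M D → ℕ) (ρ ρ' : ℕ → ℕ) : updF (updF f ρ) ρ' = updF f ρ' := by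
  funext y
  rcases y with _ | _ | _ | _ | (_ | _) | _ <;> rfl

theorem upd_upd (m : Mem A T (RV M D)) (ρ ρ' : ℕ → ℕ) : upd (upd m ρ) ρ' = upd m ρ' := by
  refine Mem.ext rfl rfl rfl rfl rfl ?_
  exact updF_updF m.r ρ ρ'

theorem updF_loop (f : RV M D → ℕ) (ρ ρ' : ℕ → ℕ) (i k k' : ℕ) :
    updF (Function.update (Function.update (updF f ρ) (lr M D i) k') (lr M D i) k) ρ' =
      Function.update (updF f ρ') (lr M D i) k := by
  rw [Function.update_idem]
  funext y
  rcases y with _ | _ | _ | _ | (r | j) | _
  case a.inr => simp [updF, lr, Function.update_apply]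
  all_goals simp [updF, lr]

theorem updF_self {f : RV M D → ℕ} {ρ : ℕ → ℕ} (h : ∀ r : Fin (M + 1), f (.a (.inl r)) = ρ r) :
    updF f ρ = f := by
  funext y
  rcases y with _ | _ | _ | _ | (r | _) | _
  case a.inl => exact (h r).symm
  all_goals rfl

theorem upd_self {m : Mem A T (RV M D)} {ρ : ℕ → ℕ} (h : ∀ r : Fin (M + 1), m.r (.a (.inl r)) = ρ r) :
    upd m ρ = m := by
  refine Mem.ext rfl rfl rfl rfl rfl ?_
  exact updF_self h

theorem ofNat_val {M r : ℕ} (h : r ≤ M) : ((Fin.ofNat (M + 1) r : Fin (M + 1)) : ℕ) = r :=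
  Nat.mod_eq_of_lt (by omega)

theorem updF_update {f : RV M D → ℕ} {ρ : ℕ → ℕ} (h : ∀ r : Fin (M + 1), f (.a (.inl r)) = ρ r)
    {r : ℕ} (hr : r ≤ M) (v : ℕ) :
    Function.update f (ur M D r) v = updF f (Function.update ρ r v) := by
  have e := ofNat_val hr
  funext y
  rcases y with _ | _ | _ | _ | (r' | _) | _
  case a.inl =>
    simp only [updF, ur, Function.update_apply]
    by_cases hr' : r' = Fin.ofNat (M + 1) r
    · subst hr'
      rw [if_pos rfl, if_pos e]
    · have h' : ¬ (r' : ℕ) = r := fun h2 => hr' (Fin.ext (by rw [e]; exact h2))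
      rw [if_neg (by simpa using hr'), if_neg h', h]
  all_goals exact Function.update_of_ne (by simp [ur]) _ _

/-- The memory is ready for a program at depth `i`. -/
structure Ready (x : List A) (i : ℕ) (m : Mem A T (RV M D)) : Prop where
  fl : m.r .fl = 0
  t1 : m.r .t1 = 0
  t2 : m.r .t2 = 0
  xs : m.xs = x.map some
  lr : ∀ j, i ≤ j → j ≤ D → m.r (lr M D j) = 0

theorem Ready.upd {x : List A} {i : ℕ} {m : Mem A T (RV M D)} (h : Ready x i m) (ρ : ℕ → ℕ) :
    Ready x i (upd m ρ) := ⟨h.fl, h.t1, h.t2, h.xs, h.lr⟩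

theorem Lp.does_comp (x : List A) : ∀ (c : Lp A), c.Regs M → ∀ (i : ℕ), i + c.depth ≤ D →
    ∀ (m : Mem A T (RV M D)) (ρ : ℕ → ℕ), (∀ r : Fin (M + 1), m.r (.a (.inl r)) = ρ r) →
    Ready x i m → Does (c.comp M D i) m (40 * c.cost x ρ) (MP_70d3b5_lc.upd m (c.exec x ρ)) := by
  intro c
  induction c with
  | nop =>
    intro _ i _ m ρ hm _
    exact Does.fin (does_skip m) (by simp [cost]) (upd_self hm).symm
  | inc r =>
    intro hc i _ m ρ hm _
    simp only [Regs] at hc
    have e := ofNat_val hc
    have hr : m.r (ur M D r) = ρ r := by rw [ur, hm, e]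
    refine Does.fin (does_inc (ur M D r) m) (by simp [cost]) ?_
    refine Mem.ext rfl rfl rfl rfl rfl ?_
    rw [hr]
    exact updF_update hm hc _
  | dec r =>
    intro hc i _ m ρ hm _
    simp only [Regs] at hc
    have e := ofNat_val hc
    have hr : m.r (ur M D r) = ρ r := by rw [ur, hm, e]
    refine Does.fin (does_dec (ur M D r) m) (by simp [cost]) ?_
    refine Mem.ext rfl rfl rfl rfl rfl ?_
    rw [hr]
    exact updF_update hm hc _
  | seq c d ihc ihd =>
    intro hc i hi m ρ hm hR
    simp only [depth] at hi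
    have h1 := ihc hc.1 i (by omega) m ρ hm hR
    have h2 := ihd hc.2 i (by omega) _ (exec x c ρ) (fun r => rfl) (hR.upd (exec x c ρ))
    refine Does.fin (h1.seq h2) (by simp only [cost]; omega) ?_
    rw [upd_upd]
    rfl
  | ifz r c d ihc ihd =>
    intro hc i hi m ρ hm hR
    simp only [depth] at hi
    have e := ofNat_val hc.1
    have hr : m.r (ur M D r) = ρ r := by rw [ur, hm, e]
    by_cases h0 : ρ r = 0
    · have h1 := ihc hc.2.1 i (by omega) m ρ hm hR
      refine Does.fin (does_ifT_false (tests_tReg _) (by simp [hr, h0]) h1) ?_ ?_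
      · simp only [cost, h0, if_true]; omega
      · simp only [exec, h0, if_true]
    · have h1 := ihd hc.2.2 i (by omega) m ρ hm hR
      refine Does.fin (does_ifT_true (tests_tReg _) (by simp [hr, h0]) h1) ?_ ?_
      · simp only [cost, h0, if_false]; omega
      · simp only [exec, h0, if_false]
  | ifsym r s c d ihc ihd =>
    intro hc i hi m ρ hm hR
    simp only [depth] at hi
    have e := ofNat_val hc.1
    have hr : m.r (.a (.inl (Fin.ofNat (M + 1) r))) = ρ r := by rw [hm, e]
    have h0 := does_symTest (Sum.inl (Fin.ofNat (M + 1) r)) s m hR.fl hR.t1 hR.t2 x hR.xs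
    rw [hr] at h0
    by_cases hs : x[ρ r]? = s
    · have ht : Test.eval 0 x (fun v => m.r (.a v))
          (.sym (Sum.inl (Fin.ofNat (M + 1) r)) s : Test A (Fin (M + 1) ⊕ Fin (D + 1))) = true := by
        simp only [Test.eval, decide_eq_true_eq]
        rw [hr]
        exact hs
      rw [ht] at h0
      simp only [cond_true] at h0
      have h2 := does_dec (Reg.fl : RV M D) { m with r := (Function.update m.r .fl 1) }
      have e2 : ({ m with r := (Function.update m.r .fl 1) } : Mem A T (RV M D)).r .fl = 1 := by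
        simp
      simp only [Function.update_self, Function.update_idem, Nat.sub_self] at h2
      have e3 : ({ m with r := Function.update m.r .fl 0 } : Mem A T (RV M D)) = m := by
        refine Mem.ext rfl rfl rfl rfl rfl ?_
        simp only
        rw [← hR.fl, Function.update_eq_self]
      rw [e3] at h2
      have h1 := ihc hc.2.1 i (by omega) m ρ hm hR
      refine Does.fin (h0.seq (does_ifT_true (tests_tReg _) (by simp) (h2.seq h1))) ?_ ?_
      · simp only [cost, hs, if_true]; omega
      · simp only [exec, hs, if_true]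
    · have ht : Test.eval 0 x (fun v => m.r (.a v))
          (.sym (Sum.inl (Fin.ofNat (M + 1) r)) s : Test A (Fin (M + 1) ⊕ Fin (D + 1))) = false := by
        simp only [Test.eval, decide_eq_false_iff_not]
        rw [hr]
        exact hs
      rw [ht] at h0
      simp only [cond_false] at h0
      have e3 : ({ m with r := Function.update m.r .fl 0 } : Mem A T (RV M D)) = m := by
        refine Mem.ext rfl rfl rfl rfl rfl ?_
        simp only
        rw [← hR.fl, Function.update_eq_self]
      rw [e3] at h0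
      have h1 := ihd hc.2.2 i (by omega) m ρ hm hR
      refine Does.fin (h0.seq (does_ifT_false (tests_tReg _) (by simp [hR.fl]) h1)) ?_ ?_
      · simp only [cost, hs, if_false]; omega
      · simp only [exec, hs, if_false]
  | rep r c ih =>
    intro hc i hi m ρ hm hR
    simp only [depth] at hi
    have e := ofNat_val hc.1
    have hr : m.r (ur M D r) = ρ r := by rw [ur, hm, e]
    have hne : ur M D r ≠ lr M D i := by simp [ur, lr]
    have h1 := does_copyReg (A := A) (T := T) hne (by simp [ur]) (by simp [lr]) m hR.t1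
    have hl0 : m.r (lr M D i) = 0 := hR.lr i le_rfl (by omega)
    rw [hl0, zero_add, hr] at h1
    -- the memory when `k` rounds remain
    let I : ℕ → Mem A T (RV M D) := fun k =>
      { MP_70d3b5_lc.upd m ((exec x c)^[ρ r - k] ρ) with
        r := Function.update (MP_70d3b5_lc.upd m ((exec x c)^[ρ r - k] ρ)).r (lr M D i) k }
    have hI0 : I (ρ r) = { m with r := Function.update m.r (lr M D i) (ρ r) } := by
      simp only [I, Nat.sub_self, Function.iterate_zero, id]
      rw [upd_self hm]
    have hI1 : I 0 = MP_70d3b5_lc.upd m ((rep r c).exec x ρ) := by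
      simp only [I, Nat.sub_zero, exec]
      refine Mem.ext rfl rfl rfl rfl rfl ?_
      simp only
      have : (MP_70d3b5_lc.upd m ((exec x c)^[ρ r] ρ)).r (lr M D i) = 0 := hl0
      rw [← this, Function.update_eq_self]
    have h2 := does_whileT' (tests_tReg (A := A) (T := T) (lr M D i)) I (ρ r)
      (c := .seq (PolyTM.dec (lr M D i)) (c.comp M D (i + 1)))
      (fun k => 1 + 40 * c.cost x ((exec x c)^[ρ r - (k + 1)] ρ)) (by simp [I])
      (fun k _ => by simp [I]) ?_
    · rw [hI0, hI1] at h2
      refine Does.fin (h1.seq h2) ?_ rfl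
      simp only [cost]
      have hs : ∑ k ∈ Finset.range (ρ r), (1 + 40 * c.cost x ((exec x c)^[ρ r - (k + 1)] ρ) + 2) =
          ∑ k ∈ Finset.range (ρ r), (1 + 40 * c.cost x ((exec x c)^[k] ρ) + 2) := by
        rw [← Finset.sum_range_reflect]
        refine Finset.sum_congr rfl fun k hk => ?_
        have hk' := Finset.mem_range.1 hk
        have : ρ r - (ρ r - 1 - k + 1) = k := by omega
        rw [this]
      rw [hs]
      have h3 : ∑ k ∈ Finset.range (ρ r), (1 + 40 * c.cost x ((exec x c)^[k] ρ) + 2) ≤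
          40 * ∑ k ∈ Finset.range (ρ r), (c.cost x ((exec x c)^[k] ρ) + 1) := by
        rw [Finset.mul_sum]
        exact Finset.sum_le_sum fun k _ => by omega
      omega
    · intro k hk
      have hsub : ρ r - k = (ρ r - (k + 1)) + 1 := by omega
      have h3 := does_dec (A := A) (T := T) (lr M D i) (I (k + 1))
      have e4 : (I (k + 1)).r (lr M D i) - 1 = k := by simp [I]
      rw [e4] at h3
      let m' : Mem A T (RV M D) :=
        { (I (k + 1)) with r := Function.update (I (k + 1)).r (lr M D i) k }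
      have hm' : ∀ r' : Fin (M + 1), m'.r (.a (.inl r')) = ((exec x c)^[ρ r - (k + 1)] ρ) r' := by
        intro r'
        simp only [m', I]
        rw [Function.update_of_ne (by simp [lr]), Function.update_of_ne (by simp [lr])]
        rfl
      have hR' : Ready x (i + 1) m' := by
        refine ⟨?_, ?_, ?_, hR.xs, ?_⟩
        · simp only [m', I]
          rw [Function.update_of_ne (by simp [lr]), Function.update_of_ne (by simp [lr])]
          exact hR.fl
        · simp only [m', I]
          rw [Function.update_of_ne (by simp [lr]), Function.update_of_ne (by simp [lr])]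
          exact hR.t1
        · simp only [m', I]
          rw [Function.update_of_ne (by simp [lr]), Function.update_of_ne (by simp [lr])]
          exact hR.t2
        · intro j hj hjD
          have hne' : lr M D j ≠ lr M D i := by
            simp only [lr, ne_eq, Reg.a.injEq, Sum.inr.injEq]
            intro h
            have := congrArg Fin.val h
            rw [ofNat_val hjD, ofNat_val (by omega)] at this
            omega
          simp only [m', I]
          rw [Function.update_of_ne hne', Function.update_of_ne hne']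
          exact hR.lr j (by omega) hjD
      have h4 := ih hc.2 (i + 1) (by omega) m' _ hm' hR'
      refine Does.fin (h3.seq h4) le_rfl ?_
      refine Mem.ext rfl rfl rfl rfl rfl ?_
      simp only [m', I, MP_70d3b5_lc.upd, hsub, Function.iterate_succ_apply']
      exact updF_loop m.r _ _ i k (k + 1)

end comp

end Pool.Agent.Lib.MP_70d3b5_lc
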