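import Pool.Agent.Lib.MP_70d3b5_lc.Arith

/-!
# Machines for feasible functions

`Feas.machine`: if `f` is feasible, then a `TM2` machine decides in polynomial time whether
`f x |x| ≠ 0`.
-/

open Turing StateTransition Pool.Agent.Lib.PolyTM

namespace Pool.Agent.Lib.MP_70d3b5_lc

variable {A : Type} {M D : ℕ}

/-- Run the program `c`, write the answer and clean up. -/
noncomputable def progD (c : Lp A) (M D : ℕ) : Prog A Bool (RV M D) :=
  .seq readInp (.seq (mvReg .t1 (ur M D 0)) (.seq (c.comp M D 0)
    (.seq (ifT (tReg (ur M D 1)) (emit true) (emit false))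
    (.seq (whileT tRev mvRev) (.seq (clear (ur M D 0)) (.seq (clear (ur M D 1))
      (whileT tXs popXs)))))))

theorem does_progD (hM : 1 ≤ M) (c : Lp A) (hc : c.Regs M) (hD : c.depth ≤ D) (x : List A) (F : ℕ)
    (hF : c.exec x (Function.update (fun _ => 0) 0 x.length) =
      Function.update (Function.update (fun _ => 0) 0 x.length) 1 F) :
    Does (progD c M D) ⟨x, [], [], [], [], fun _ => 0⟩
      (20 * x.length + 3 * F + 30 +
        40 * c.cost x (Function.update (fun _ => 0) 0 x.length))
      ⟨[], [], [], [], [decide (F ≠ 0)], fun _ => 0⟩ := by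
  have h01 : ur M D 0 ≠ ur M D 1 := by
    intro h
    simp only [ur, Reg.a.injEq, Sum.inl.injEq] at h
    have := congrArg Fin.val h
    rw [ofNat_val (Nat.zero_le _), ofNat_val hM] at this
    omega
  have hu0 : (Function.update (fun _ : RV M D => 0) (ur M D 0) x.length) =
      updF (fun _ => 0) (Function.update (fun _ => 0) 0 x.length) :=
    updF_update (fun _ => rfl) (Nat.zero_le _) _
  have b1 := does_readInp (T := Bool) (V := Fin (M + 1) ⊕ Fin (D + 1)) x
  have b2' := does_mvReg (A := A) (T := Bool) (p := (.t1 : RV M D)) (q := ur M D 0)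
    (by simp [ur]) ⟨[], x.map some, [], [], [], Function.update (fun _ => 0) .t1 x.length⟩
  have e2 : Function.update (Function.update (Function.update (fun _ : RV M D => 0) .t1 x.length)
      .t1 0) (ur M D 0) (Function.update (fun _ : RV M D => 0) .t1 x.length (ur M D 0) +
        Function.update (fun _ : RV M D => 0) .t1 x.length .t1) =
      Function.update (fun _ => 0) (ur M D 0) x.length := by
    funext y
    simp only [Function.update_apply, ur]
    split_ifs <;> simp_all
  have b2 : Does (mvReg .t1 (ur M D 0))
      (⟨[], x.map some, [], [], [], Function.update (fun _ => 0) .t1 x.length⟩ :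
        Mem A Bool (RV M D)) (x.length * 4 + 2)
      ⟨[], x.map some, [], [], [], Function.update (fun _ => 0) (ur M D 0) x.length⟩ := by
    refine Does.fin b2' (by simp) ?_
    refine Mem.ext rfl rfl rfl rfl rfl ?_
    exact e2
  have b3 := Lp.does_comp (T := Bool) (M := M) (D := D) x c hc 0 (by omega)
    ⟨[], x.map some, [], [], [], Function.update (fun _ => 0) (ur M D 0) x.length⟩
    (Function.update (fun _ => 0) 0 x.length) (by rw [hu0]; intro r; rfl)
    ⟨by simp [ur], by simp [ur], by simp [ur], rfl, by intro j _ _; simp [ur, lr]⟩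
  have e3 : upd (⟨[], x.map some, [], [], [], Function.update (fun _ => 0) (ur M D 0) x.length⟩ :
      Mem A Bool (RV M D)) (c.exec x (Function.update (fun _ => 0) 0 x.length)) =
      ⟨[], x.map some, [], [], [],
        Function.update (Function.update (fun _ => 0) (ur M D 0) x.length) (ur M D 1) F⟩ := by
    refine Mem.ext rfl rfl rfl rfl rfl ?_
    simp only [upd]
    rw [hF, hu0, updF_update (f := updF (fun _ => 0) (Function.update (fun _ => 0) 0 x.length))
      (ρ := Function.update (fun _ => 0) 0 x.length) (fun _ => rfl) hM]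
  rw [e3] at b3
  have b4 : Does (ifT (tReg (ur M D 1)) (emit true) (emit false))
      (⟨[], x.map some, [], [], [],
        Function.update (Function.update (fun _ => 0) (ur M D 0) x.length) (ur M D 1) F⟩ :
        Mem A Bool (RV M D)) 3
      ⟨[], x.map some, [], [decide (F ≠ 0)], [],
        Function.update (Function.update (fun _ => 0) (ur M D 0) x.length) (ur M D 1) F⟩ := by
    by_cases h : F = 0
    · refine Does.fin (does_ifT_false (tests_tReg _) (by simp [h]) (does_emit false _)) le_rfl ?_
      simp [h]
    · refine Does.fin (does_ifT_true (tests_tReg _) (by simp [h]) (does_emit true _)) le_rfl ?_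
      simp [h]
  have b5 := does_flush (A := A) (T := Bool) (R := RV M D)
    ⟨[], x.map some, [], [decide (F ≠ 0)], [],
        Function.update (Function.update (fun _ => 0) (ur M D 0) x.length) (ur M D 1) F⟩ rfl
  simp only [List.reverse_singleton, List.length_singleton] at b5
  have b6 := does_clear (A := A) (T := Bool) (ur M D 0)
    ⟨[], x.map some, [], [], [decide (F ≠ 0)],
        Function.update (Function.update (fun _ => 0) (ur M D 0) x.length) (ur M D 1) F⟩
  have e6 : Function.update (Function.update (fun _ : RV M D => 0) (ur M D 0) x.length)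
      (ur M D 1) F (ur M D 0) = x.length := by
    rw [Function.update_of_ne h01, Function.update_self]
  have e6' : Function.update (Function.update (Function.update (fun _ : RV M D => 0) (ur M D 0)
      x.length) (ur M D 1) F) (ur M D 0) 0 = Function.update (fun _ => 0) (ur M D 1) F := by
    rw [Function.update_comm h01.symm, Function.update_idem]
    congr 1
    exact Function.update_eq_self _ _
  simp only [e6, e6'] at b6
  have b7 := does_clear (A := A) (T := Bool) (ur M D 1)
    ⟨[], x.map some, [], [], [decide (F ≠ 0)], Function.update (fun _ => 0) (ur M D 1) F⟩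
  have e7 : Function.update (fun _ : RV M D => 0) (ur M D 1) 0 = fun _ => 0 :=
    Function.update_eq_self _ _
  simp only [Function.update_self, Function.update_idem, e7] at b7
  have b8 := does_clearXs (A := A) (T := Bool) (R := RV M D)
    ⟨[], x.map some, [], [], [decide (F ≠ 0)], fun _ => 0⟩
  simp only [List.length_map] at b8
  refine Does.fin (b1.seq (b2.seq (b3.seq (b4.seq (b5.seq (b6.seq (b7.seq b8)))))))
    ?_ rfl
  omega

/-- The machine that runs the program `P`. -/
noncomputable def mach {T R : Type} [DecidableEq R] [Fintype A] [Fintype T] [Fintype R]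
    (P : Prog A T R) : FinTM2 where
  K := Stk R
  k₀ := .inp
  k₁ := .out
  Γ := Gam A T R
  Λ := Option (Cmd.seq P (.load fun _ => (false, none, none))).Lab
  main := some (Cmd.seq P (.load fun _ => (false, none, none))).entry
  σ := Var A T
  initialState := (false, none, none)
  Γk₀Fin := inferInstanceAs (Fintype A)
  m
    | none => .halt
    | some l => (Cmd.seq P (.load fun _ => (false, none, none))).tr some none l

theorem mach_outputs {T R : Type} [DecidableEq R] [Fintype A] [Fintype T] [Fintype R]
    (P : Prog A T R) (x : List A) (o : List T) (t t' : ℕ)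
    (h : Does P ⟨x, [], [], [], [], fun _ => 0⟩ t ⟨[], [], [], [], o, fun _ => 0⟩)
    (ht : t + 2 ≤ t') :
    Nonempty (TM2OutputsInTime (mach P) x (some o) t') := by
  obtain ⟨v, n, hn, hr⟩ := h (false, none, none)
  have h1 := Cmd.Run.seq hr (Cmd.Run.load (fun _ => (false, none, none)) v _)
  have h2 := Cmd.tr_correct h1 (mach P).m some none (fun _ => rfl)
  have h3 : Cmd.Steps (mach P).m 1 ⟨some none, (false, none, none),
      Mem.toStk ⟨[], [], [], [], o, fun _ => 0⟩⟩
      ⟨none, (false, none, none), Mem.toStk ⟨[], [], [], [], o, fun _ => 0⟩⟩ :=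
    Cmd.Steps.one rfl
  have h4 := h2.trans h3
  have e1 : initList (mach P) x = ⟨some (some
      (Cmd.seq P (.load fun _ => (false, none, none))).entry), (false, none, none),
      Mem.toStk ⟨x, [], [], [], [], fun _ => 0⟩⟩ := by
    unfold initList
    congr 1
    funext k
    cases k <;> rfl
  have e2 : haltList (mach P) o =
      ⟨none, (false, none, none), Mem.toStk ⟨[], [], [], [], o, fun _ => 0⟩⟩ := by
    unfold haltList
    congr 1
    funext k
    cases k <;> rfl
  refine ⟨⟨⟨n + 1 + 1, ?_⟩, ?_⟩⟩
  · exact (congrArg (fun c => (flip bind (mach P).step)^[n + 1 + 1] (some c)) e1).trans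
      (Eq.trans h4 (congrArg some e2.symm))
  · change n + 1 + 1 ≤ _
    omega

/-- Feasible functions are computed by machines in polynomial time. -/
theorem Feas.machine [Fintype A] {f : List A → (Fin 1 → ℕ) → ℕ} (hf : Feas f) :
    ∃ (M : FinTM2) (eIn : M.Γ M.k₀ ≃ A) (eOut : M.Γ M.k₁ ≃ Bool) (p : Polynomial ℕ),
      ∀ x : List A, Nonempty (TM2OutputsInTime M (x.map eIn.symm)
        (some [eOut.symm (decide (f x (fun _ => x.length) ≠ 0))]) (p.eval x.length)) := by
  obtain ⟨hc, Q, hQ⟩ := hf
  obtain ⟨c, P, hP⟩ := hc (fun _ => 0) 1 2 (fun _ => by norm_num) (by norm_num)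
  obtain ⟨M₀, hM₀⟩ := Lp.exists_regs c
  set M := max 1 M₀ with hM
  have hreg : c.Regs M := hM₀.mono (le_max_right _ _)
  have hM1 : 1 ≤ M := le_max_left _ _
  refine ⟨mach (progD c M c.depth), Equiv.refl _, Equiv.refl _,
    Polynomial.C 20 * Polynomial.X + Polynomial.C 3 * Q.comp (Polynomial.C 2 * Polynomial.X) +
      Polynomial.C 32 + Polynomial.C 40 * P.comp (Polynomial.C 2 * Polynomial.X), fun x => ?_⟩
  have h1 := hP x (Function.update (fun _ => 0) 0 x.length) (fun j hj => by
    rw [Function.update_of_ne (by omega)])
  simp only [Function.update_self] at h1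
  have hs : sz x (fun _ : Fin 1 => x.length) = 2 * x.length := by
    simp [sz]
    ring
  have e1 : Function.update (fun _ : ℕ => 0) 0 x.length 1 = 0 := by
    rw [Function.update_of_ne (by norm_num)]
  rw [hs, e1, add_zero] at h1
  have h2 := does_progD hM1 c hreg le_rfl x (f x fun _ => x.length) h1.1
  have h3 := hQ x (fun _ => x.length)
  rw [hs] at h3
  have h4 := mach_outputs _ x _ _ ((Polynomial.C 20 * Polynomial.X +
    Polynomial.C 3 * Q.comp (Polynomial.C 2 * Polynomial.X) +
      Polynomial.C 32 + Polynomial.C 40 * P.comp (Polynomial.C 2 * Polynomial.X)).eval x.length)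
      h2 ?_
  · have e5 : ∀ l : List A, l = x → Nonempty (TM2OutputsInTime (mach (progD c M c.depth)) l
        (some [decide ((f x fun _ => x.length) ≠ 0)]) ((Polynomial.C 20 * Polynomial.X +
          Polynomial.C 3 * Q.comp (Polynomial.C 2 * Polynomial.X) +
          Polynomial.C 32 + Polynomial.C 40 * P.comp (Polynomial.C 2 * Polynomial.X)).eval
            x.length)) := by
      rintro _ rfl
      exact h4
    exact e5 _ (List.map_id x)
  · have h5 := h1.2
    simp only [Polynomial.eval_add, Polynomial.eval_mul, Polynomial.eval_C, Polynomial.eval_X,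
      Polynomial.eval_comp]
    omega

end Pool.Agent.Lib.MP_70d3b5_lc
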