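import Pool.Agent.Lib.MP_70d3b5_lc.Pr

/-!
# The second moment bound for random sets
-/

open Finset

namespace Pool.Agent.Lib.MP_70d3b5_lc

variable {U V : Type} [Fintype V] [DecidableEq V]

/-- The random subset of `V` given by `ω`; every element is in it with probability `1 / N`. -/
def Z {N : ℕ} (ω : V → Fin N) : Finset V := univ.filter fun v => (ω v : ℕ) = 0

omit [DecidableEq V] in
theorem mem_Z {N : ℕ} (ω : V → Fin N) (v : V) : v ∈ Z ω ↔ (ω v : ℕ) = 0 := by simp [Z]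

theorem pr_zero {N : ℕ} (hN : 0 < N) : pr (fun i : Fin N => (i : ℕ) = 0) = 1 / N := by
  classical
  rw [pr_def]
  congr 1
  · have : (univ.filter fun i : Fin N => (i : ℕ) = 0) = {⟨0, hN⟩} := by
      ext i; simp [Fin.ext_iff]
    rw [this]; simp
  · simp

theorem pr_subset_Z {N : ℕ} (hN : 0 < N) (A : Finset V) :
    pr (fun ω : V → Fin N => A ⊆ Z ω) = (1 / N) ^ A.card := by
  have : Nonempty (Fin N) := ⟨⟨0, hN⟩⟩
  rw [← pr_zero hN, ← pr_pi_forall_mem A]
  refine pr_congr fun ω => ?_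
  simp [subset_iff, mem_Z]

theorem sum_ind_Z {N : ℕ} (hN : 0 < N) (A : Finset V) :
    ∑ ω : V → Fin N, (if A ⊆ Z ω then (1 : ℝ) else 0) =
      (Fintype.card (V → Fin N) : ℝ) * (1 / N) ^ A.card := by
  have h0 : (0 : ℝ) < (Fintype.card (V → Fin N) : ℝ) := by
    have : Nonempty (Fin N) := ⟨⟨0, hN⟩⟩
    exact_mod_cast Fintype.card_pos
  rw [← pr_subset_Z hN A, pr_def, sum_boole]
  field_simp

/-- The second moment bound. -/
theorem hit_prob (T : Finset U) (A : U → Finset V) (hT : T.Nonempty) {N L : ℕ} (hN : 0 < N)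
    {κ C : ℝ} (hκ : 0 < κ) (hC : 0 ≤ C) (hL : ∀ u ∈ T, (A u).card ≤ L)
    (hs : ∀ B : Finset V, B.Nonempty →
      ((T.filter fun u => B ⊆ A u).card : ℝ) * κ ^ B.card ≤ C * T.card) :
    1 ≤ pr (fun ω : V → Fin N => ∃ u ∈ T, A u ⊆ Z ω) * (1 + C * ((1 + N / κ) ^ L - 1)) := by
  classical
  have hN' : (0 : ℝ) < N := by exact_mod_cast hN
  set Ω : ℝ := (Fintype.card (V → Fin N) : ℝ) with hΩ
  have hΩ0 : 0 < Ω := by
    have : Nonempty (Fin N) := ⟨⟨0, hN⟩⟩
    have h1 : 0 < Fintype.card (V → Fin N) := Fintype.card_pos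
    rw [hΩ]
    exact_mod_cast h1
  have hT0 : (0 : ℝ) < T.card := by exact_mod_cast hT.card_pos
  set Q : ℝ := 1 + C * ((1 + N / κ) ^ L - 1) with hQ
  set Y : (V → Fin N) → ℝ := fun ω => ∑ u ∈ T, (N : ℝ) ^ (A u).card * (if A u ⊆ Z ω then 1 else 0)
    with hY
  set H : Finset (V → Fin N) := univ.filter fun ω => ∃ u ∈ T, A u ⊆ Z ω with hH
  -- first moment
  have m1 : ∑ ω, Y ω = T.card * Ω := by
    simp only [hY]
    rw [sum_comm]
    simp only [← mul_sum]
    have : ∀ u ∈ T, (N : ℝ) ^ (A u).card * ∑ ω : V → Fin N, (if A u ⊆ Z ω then (1 : ℝ) else 0)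
        = Ω := by
      intro u _
      rw [sum_ind_Z hN, ← hΩ]
      rw [one_div, inv_pow]
      field_simp
    rw [sum_congr rfl this]
    simp
  -- second moment
  have m2 : ∑ ω, Y ω ^ 2 = Ω * ∑ u ∈ T, ∑ u' ∈ T, (N : ℝ) ^ (A u ∩ A u').card := by
    have e1 : ∀ ω, Y ω ^ 2 = ∑ u ∈ T, ∑ u' ∈ T, (N : ℝ) ^ ((A u).card + (A u').card) *
        (if A u ∪ A u' ⊆ Z ω then 1 else 0) := by
      intro ω
      simp only [hY, sq, sum_mul_sum]
      refine sum_congr rfl fun u _ => sum_congr rfl fun u' _ => ?_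
      by_cases h1 : A u ⊆ Z ω <;> by_cases h2 : A u' ⊆ Z ω <;>
        simp [h1, h2, union_subset_iff, pow_add]
    simp only [e1]
    rw [sum_comm, mul_sum]
    refine sum_congr rfl fun u _ => ?_
    rw [sum_comm, mul_sum]
    refine sum_congr rfl fun u' _ => ?_
    rw [← mul_sum, sum_ind_Z hN, ← hΩ, one_div, inv_pow]
    have hc := card_union_add_card_inter (A u) (A u')
    rw [← hc, pow_add]
    field_simp
  -- bound of the second moment
  have m3 : ∀ u ∈ T, ∑ u' ∈ T, (N : ℝ) ^ (A u ∩ A u').card ≤ T.card * Q := by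
    intro u hu
    have e1 : ∀ u' ∈ T, (N : ℝ) ^ (A u ∩ A u').card ≤
        ∑ B ∈ (A u).powerset, (N : ℝ) ^ B.card * (if B ⊆ A u' then 1 else 0) := by
      intro u' _
      have h1 : (N : ℝ) ^ (A u ∩ A u').card =
          (N : ℝ) ^ (A u ∩ A u').card * (if A u ∩ A u' ⊆ A u' then 1 else 0) := by
        rw [if_pos inter_subset_right, mul_one]
      rw [h1]
      exact single_le_sum (f := fun B : Finset V => (N : ℝ) ^ B.card * (if B ⊆ A u' then 1 else 0))
        (fun B _ => by positivity) (mem_powerset.2 inter_subset_left)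
    refine (sum_le_sum e1).trans ?_
    rw [sum_comm]
    simp only [← mul_sum]
    have e2 : ∀ B : Finset V, ∑ u' ∈ T, (if B ⊆ A u' then (1 : ℝ) else 0) =
        ((T.filter fun u' => B ⊆ A u').card : ℝ) := by
      intro B
      rw [sum_boole]
    simp only [e2]
    have e3 : ∀ B ∈ (A u).powerset.erase ∅, (N : ℝ) ^ B.card *
        ((T.filter fun u' => B ⊆ A u').card : ℝ) ≤ (C * T.card) * (N / κ) ^ B.card := by
      intro B hB
      have hB' : B.Nonempty := nonempty_iff_ne_empty.2 (mem_erase.1 hB).1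
      have h1 := hs B hB'
      rw [div_pow, mul_div_assoc', le_div_iff₀ (by positivity)]
      calc (N : ℝ) ^ B.card * ((T.filter fun u' => B ⊆ A u').card : ℝ) * κ ^ B.card
          = (((T.filter fun u' => B ⊆ A u').card : ℝ) * κ ^ B.card) * (N : ℝ) ^ B.card := by ring
        _ ≤ (C * T.card) * (N : ℝ) ^ B.card := by gcongr
    rw [← add_sum_erase _ _ (empty_mem_powerset (A u))]
    have e4 : (N : ℝ) ^ (∅ : Finset V).card * ((T.filter fun u' => (∅ : Finset V) ⊆ A u').card : ℝ)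
        = T.card := by
      simp
    have e5 : ∑ B ∈ (A u).powerset.erase ∅, ((N : ℝ) / κ) ^ B.card
        = (1 + N / κ) ^ (A u).card - 1 := by
      have h1 := sum_pow_mul_eq_add_pow ((N : ℝ) / κ) 1 (A u)
      rw [← add_sum_erase _ _ (empty_mem_powerset (A u))] at h1
      simp only [card_empty, pow_zero, one_pow, mul_one] at h1
      rw [add_comm (1 : ℝ) (N / κ), ← h1]
      ring
    rw [e4]
    refine (add_le_add le_rfl (sum_le_sum e3)).trans ?_
    rw [← mul_sum, e5, hQ]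
    have h1 : (1 + (N : ℝ) / κ) ^ (A u).card ≤ (1 + (N : ℝ) / κ) ^ L :=
      pow_le_pow_right₀ (by rw [le_add_iff_nonneg_right]; positivity) (hL u hu)
    have h2 : C * T.card * ((1 + (N : ℝ) / κ) ^ (A u).card - 1) ≤
        C * T.card * ((1 + (N : ℝ) / κ) ^ L - 1) := by
      have : 0 ≤ C * T.card := by positivity
      gcongr
    linarith [h2]
  have m4 : ∑ ω, Y ω ^ 2 ≤ Ω * (T.card * (T.card * Q)) := by
    rw [m2]
    have : ∑ u ∈ T, ∑ u' ∈ T, (N : ℝ) ^ (A u ∩ A u').card ≤ T.card * (T.card * Q) := by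
      refine (sum_le_sum m3).trans ?_
      simp
    gcongr
  -- Cauchy-Schwarz
  have m5 : ∑ ω ∈ H, Y ω = ∑ ω, Y ω := by
    refine sum_subset (subset_univ _) fun ω _ hω => ?_
    simp only [hH, mem_filter, mem_univ, true_and, not_exists, not_and] at hω
    simp only [hY]
    refine sum_eq_zero fun u hu => ?_
    rw [if_neg (hω u hu), mul_zero]
  have m6 : (∑ ω ∈ H, Y ω) ^ 2 ≤ H.card * ∑ ω ∈ H, Y ω ^ 2 := sq_sum_le_card_mul_sum_sq
  have m7 : ∑ ω ∈ H, Y ω ^ 2 ≤ ∑ ω, Y ω ^ 2 :=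
    sum_le_sum_of_subset_of_nonneg (subset_univ _) fun _ _ _ => sq_nonneg _
  rw [m5, m1] at m6
  have m8 : (T.card * Ω) ^ 2 ≤ H.card * (Ω * (T.card * (T.card * Q))) :=
    m6.trans (by gcongr; exact m7.trans m4)
  have m9 : Ω ≤ H.card * Q := by
    have h1 : (T.card * Ω) ^ 2 = (T.card * T.card * Ω) * Ω := by ring
    have h2 : H.card * (Ω * (T.card * (T.card * Q))) = (T.card * T.card * Ω) * (H.card * Q) := by
      ring
    rw [h1, h2] at m8
    exact le_of_mul_le_mul_left m8 (by positivity)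
  rw [pr_def, div_mul_eq_mul_div, le_div_iff₀ hΩ0, one_mul]
  exact m9

end Pool.Agent.Lib.MP_70d3b5_lc
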