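import Mathlib

/-!
# Counting probabilities
-/

open Finset

namespace Pool.Agent.Lib.MP_70d3b5_lc

open Classical in
/-- The fraction of the elements of a finite type that have the property `P`. -/
noncomputable def pr {α : Type*} [Fintype α] (P : α → Prop) : ℝ :=
  ((univ.filter P).card : ℝ) / (Fintype.card α : ℝ)

section pr

variable {α β : Type*} [Fintype α] [Fintype β]

theorem pr_def (P : α → Prop) [DecidablePred P] :
    pr P = ((univ.filter P).card : ℝ) / (Fintype.card α : ℝ) := by
  unfold pr
  congr!

theorem pr_nonneg (P : α → Prop) : 0 ≤ pr P := by unfold pr; positivity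

theorem pr_mono {P Q : α → Prop} (h : ∀ a, P a → Q a) : pr P ≤ pr Q := by
  classical
  unfold pr
  refine div_le_div_of_nonneg_right ?_ (by positivity)
  exact_mod_cast card_le_card (monotone_filter_right _ fun a _ => h a)

theorem pr_le_one (P : α → Prop) : pr P ≤ 1 := by
  classical
  unfold pr
  refine div_le_one_of_le₀ ?_ (by positivity)
  exact_mod_cast (card_le_univ _)

theorem pr_congr {P Q : α → Prop} (h : ∀ a, P a ↔ Q a) : pr P = pr Q :=
  le_antisymm (pr_mono fun a => (h a).1) (pr_mono fun a => (h a).2)

theorem pr_or_le (P Q : α → Prop) : pr (fun a => P a ∨ Q a) ≤ pr P + pr Q := by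
  classical
  rw [pr_def, pr_def P, pr_def Q, ← add_div]
  refine div_le_div_of_nonneg_right ?_ (by positivity)
  rw [filter_or]
  exact_mod_cast card_union_le _ _

theorem pr_exists_le {ι : Type*} (I : Finset ι) (P : ι → α → Prop) :
    pr (fun a => ∃ i ∈ I, P i a) ≤ ∑ i ∈ I, pr (P i) := by
  classical
  induction I using Finset.induction_on with
  | empty => simp [pr]
  | insert i I hi ih =>
    rw [sum_insert hi]
    refine (pr_mono ?_).trans ((pr_or_le (P i) (fun a => ∃ i ∈ I, P i a)).trans (by gcongr))
    intro a ha
    simpa [or_and_right, exists_or] using ha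

theorem pr_exists_le_of {ι : Type*} (I : Finset ι) (P : ι → α → Prop) (c : ℝ)
    (h : ∀ i ∈ I, pr (P i) ≤ c) : pr (fun a => ∃ i ∈ I, P i a) ≤ I.card * c := by
  refine (pr_exists_le I P).trans ((sum_le_sum h).trans ?_)
  simp

theorem pr_compl [Nonempty α] (P : α → Prop) : pr (fun a => ¬ P a) = 1 - pr P := by
  classical
  have h : (0 : ℝ) < Fintype.card α := by exact_mod_cast Fintype.card_pos
  rw [pr_def, pr_def P, eq_sub_iff_add_eq, ← add_div, div_eq_one_iff_eq h.ne', add_comm]
  exact_mod_cast card_filter_add_card_filter_not (s := (univ : Finset α)) P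

theorem exists_not_of_pr_lt [Nonempty α] {P : α → Prop} (h : pr P < 1) : ∃ a, ¬ P a := by
  classical
  by_contra hc
  push Not at hc
  have h1 : pr P = 1 := by
    have h0 : (0 : ℝ) < Fintype.card α := by exact_mod_cast Fintype.card_pos
    unfold pr
    rw [div_eq_one_iff_eq h0.ne', filter_true_of_mem (fun a _ => hc a), card_univ]
  exact absurd h1 h.ne

/-- Probability as an average over the first coordinate. -/
theorem pr_prod (P : α → β → Prop) :
    pr (fun p : α × β => P p.1 p.2) = (∑ a, pr (P a)) / Fintype.card α := by
  classical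
  unfold pr
  rw [← sum_div, div_div, Fintype.card_prod, Nat.cast_mul, mul_comm (Fintype.card α : ℝ)]
  congr 1
  have : (univ.filter fun p : α × β => P p.1 p.2).card
      = ∑ a, (univ.filter fun b => P a b).card := by
    rw [card_eq_sum_card_fiberwise (f := Prod.fst) (t := univ) (fun _ _ => mem_univ _)]
    refine sum_congr rfl fun a _ => ?_
    refine card_bij (fun p _ => p.2) ?_ ?_ ?_
    · rintro ⟨a', b⟩ h
      simp only [mem_filter, mem_univ, true_and] at h ⊢
      obtain ⟨h1, rfl⟩ := h
      exact h1
    · rintro ⟨a', b⟩ h ⟨a'', b'⟩ h' hb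
      simp only [mem_filter, mem_univ, true_and] at h h'
      simp only at hb
      rw [← h.2] at h'
      exact Prod.ext h'.2.symm hb
    · intro b hb
      simp only [mem_filter, mem_univ, true_and] at hb
      exact ⟨(a, b), by simp [hb], rfl⟩
  exact_mod_cast this

theorem pr_prod_le {P : α → β → Prop} {c : ℝ} (hc : 0 ≤ c) (h : ∀ a, pr (P a) ≤ c) :
    pr (fun p : α × β => P p.1 p.2) ≤ c := by
  rw [pr_prod]
  refine div_le_of_le_mul₀ (by positivity) hc ?_
  refine (sum_le_sum fun a _ => h a).trans ?_
  simp [mul_comm]

/-- Probability and bijections. -/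
theorem pr_equiv (e : α ≃ β) (P : β → Prop) : pr (fun a => P (e a)) = pr P := by
  classical
  unfold pr
  rw [Fintype.card_congr e]
  congr 2
  refine card_bij (fun a _ => e a) ?_ (fun a _ b _ h => e.injective h) ?_
  · intro a ha
    simpa using ha
  · intro b hb
    exact ⟨e.symm b, by simpa using hb, by simp⟩

theorem pr_swap (P : α → β → Prop) :
    pr (fun p : α × β => P p.1 p.2) = pr (fun p : β × α => P p.2 p.1) :=
  pr_equiv (Equiv.prodComm α β) (fun p : β × α => P p.2 p.1)

/-- Only the first coordinate matters. -/
theorem pr_fst [Nonempty β] (P : α → Prop) : pr (fun p : α × β => P p.1) = pr P := by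
  classical
  have h : (0 : ℝ) < Fintype.card β := by exact_mod_cast Fintype.card_pos
  rw [pr_prod (fun a (_ : β) => P a)]
  have : ∀ a, pr (fun _ : β => P a) = if P a then 1 else 0 := by
    intro a
    split_ifs with ha
    · unfold pr
      rw [filter_true_of_mem (fun _ _ => ha), card_univ, div_self h.ne']
    · unfold pr
      rw [filter_false_of_mem (fun _ _ => ha)]
      simp
  simp only [this, sum_boole]
  rfl

theorem pr_snd [Nonempty α] (P : β → Prop) : pr (fun p : α × β => P p.2) = pr P := by
  rw [pr_swap (fun (_ : α) (b : β) => P b)]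
  exact pr_fst P

/-- Independent copies. -/
theorem pr_pi_forall (b : ℕ) (P : α → Prop) : pr (fun ω : Fin b → α => ∀ i, P (ω i)) = pr P ^ b := by
  classical
  rw [pr_def, pr_def P]
  have : (univ.filter fun ω : Fin b → α => ∀ i, P (ω i)) =
      Fintype.piFinset fun _ => univ.filter P := by
    ext ω; simp
  rw [this, Fintype.card_piFinset, div_pow]
  simp

/-- Dependence on finitely many independent coordinates. -/
theorem pr_pi_forall_mem {ι : Type*} [Fintype ι] [DecidableEq ι] [Nonempty α] (A : Finset ι)
    (P : α → Prop) : pr (fun ω : ι → α => ∀ i ∈ A, P (ω i)) = pr P ^ A.card := by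
  classical
  have h : (0 : ℝ) < Fintype.card α := by exact_mod_cast Fintype.card_pos
  rw [pr_def, pr_def P]
  have e1 : (univ.filter fun ω : ι → α => ∀ i ∈ A, P (ω i)) =
      Fintype.piFinset fun i => if i ∈ A then univ.filter P else univ := by
    ext ω
    simp only [mem_filter, mem_univ, true_and, Fintype.mem_piFinset]
    refine forall_congr' fun i => ?_
    split_ifs with hi <;> simp [hi]
  rw [e1, Fintype.card_piFinset, Fintype.card_fun, div_pow]
  have e2 : ∏ i, (if i ∈ A then univ.filter P else univ : Finset α).card =
      (univ.filter P).card ^ A.card * Fintype.card α ^ (Fintype.card ι - A.card) := by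
    have : ∀ i, (if i ∈ A then univ.filter P else univ : Finset α).card =
        if i ∈ A then (univ.filter P).card else Fintype.card α := by
      intro i; split_ifs <;> simp
    simp only [this]
    rw [prod_ite, prod_const, prod_const, filter_mem_eq_inter, univ_inter]
    congr 2
    rw [← card_univ, ← card_sdiff_of_subset (subset_univ A)]
    congr 1
    ext i; simp
  rw [e2, div_eq_div_iff (by positivity) (by positivity)]
  push_cast
  rw [mul_assoc, ← pow_add, Nat.sub_add_cancel (card_le_univ A)]

end pr

end Pool.Agent.Lib.MP_70d3b5_lc
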