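import Pool.Agent.Lib.MP_70d3b5_lc.Machine
import Pool.Agent.Lib.MP_70d3b5_lc.Bound

/-!
# The language and its verifier
-/

open Finset Pool.Agent.Lib.PolyTM

namespace Pool.Agent.Lib.MP_70d3b5_lc

/-- The number of rows. -/
def kk (n w : ℕ) : ℕ := 2 * w * (Nat.log 2 n + 1) + 3

/-- The number of columns. -/
def qq (n w : ℕ) : ℕ := Nat.findGreatest Nat.Prime (n / 2 / kk n w)

/-- The condition for parameters `n` and `w`: there is a polynomial with `2w` coefficients over
`ZMod q` whose graph is contained in the set described by the second half of `x`. -/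
def InL (n w : ℕ) (x : List Bool) : Prop := (qq n w).Prime ∧
  ∃ c : Fin (2 * w) → ZMod (qq n w), ∀ i < kk n w,
    x.getD (n / 2 + i * qq n w + (peval c (i : ZMod (qq n w))).val) false = true

/-- The language: a bit `w` in the first half is set for which the second half satisfies the
condition `InL`. -/
def Lang : Set (List Bool) :=
  {x | ∃ w < x.length / 2, x.getD w false = true ∧ InL x.length w x}

theorem lang_monotonic : Monotonic Lang := by
  rintro x y hxy h ⟨w, h1, h2, h3⟩
  rw [hxy] at h1 h3
  obtain ⟨h3, c, h4⟩ := h3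
  exact ⟨w, h1, h _ h2, h3, c, fun i hi => h _ (h4 i hi)⟩

section verifier

variable {A : Type} {r : ℕ}

theorem Feas.comp2' {F : List A → ℕ → ℕ → ℕ}
    (hF : Feas (fun x (v : Fin 2 → ℕ) => F x (v 0) (v 1)))
    {g0 g1 : List A → (Fin r → ℕ) → ℕ} (h0 : Feas g0) (h1 : Feas g1) :
    Feas (fun x v => F x (g0 x v) (g1 x v)) := by
  refine (Feas.comp hF (g := fun i => if i = 0 then g0 else g1) fun i => ?_).congr fun x v => ?_
  · split_ifs <;> assumption
  · simp

theorem Feas.comp3 {F : List A → ℕ → ℕ → ℕ → ℕ}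
    (hF : Feas (fun x (v : Fin 3 → ℕ) => F x (v 0) (v 1) (v 2)))
    {g0 g1 g2 : List A → (Fin r → ℕ) → ℕ} (h0 : Feas g0) (h1 : Feas g1) (h2 : Feas g2) :
    Feas (fun x v => F x (g0 x v) (g1 x v) (g2 x v)) := by
  refine (Feas.comp hF (g := fun i => if i = 0 then g0 else if i = 1 then g1 else g2)
    fun i => ?_).congr fun x v => ?_
  · split_ifs <;> assumption
  · simp

theorem Feas.comp4 {F : List A → ℕ → ℕ → ℕ → ℕ → ℕ}
    (hF : Feas (fun x (v : Fin 4 → ℕ) => F x (v 0) (v 1) (v 2) (v 3)))
    {g0 g1 g2 g3 : List A → (Fin r → ℕ) → ℕ} (h0 : Feas g0) (h1 : Feas g1) (h2 : Feas g2)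
    (h3 : Feas g3) : Feas (fun x v => F x (g0 x v) (g1 x v) (g2 x v) (g3 x v)) := by
  refine (Feas.comp hF (g := fun i => if i = 0 then g0 else if i = 1 then g1 else
    if i = 2 then g2 else g3) fun i => ?_).congr fun x v => ?_
  · split_ifs <;> assumption
  · simp

theorem feas_kk {n w : List A → (Fin r → ℕ) → ℕ} (hn : Feas n) (hw : Feas w) :
    Feas (fun x v => kk (n x v) (w x v)) := by
  unfold kk
  exact (((Feas.const 2).mul hw).mul ((Feas.log hn).add (Feas.const 1))).add (Feas.const 3)

theorem feas_qq {n w : List A → (Fin r → ℕ) → ℕ} (hn : Feas n) (hw : Feas w) :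
    Feas (fun x v => qq (n x v) (w x v)) := by
  unfold qq
  exact Feas.findGreatest (p := fun _ i _ => i.Prime)
    ((hn.div (Feas.const 2)).div (feas_kk hn hw)) (FeasP.prime (Feas.proj 0))

/-- The alphabet of the verifier. -/
abbrev AA : Type := Bool ⊕ Bool

/-- The `j`-th coefficient given by the certificate. -/
def cf (s : List AA) (n q j : ℕ) : ℕ :=
  ((range q).filter fun p => s[n + (j * q + p)]? = some (Sum.inr true)).card

theorem feas_cf : Feas (fun (s : List AA) (v : Fin 3 → ℕ) => cf s (v 0) (v 1) (v 2)) := by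
  unfold cf
  exact Feas.count (p := fun s p v => s[v 0 + (v 2 * v 1 + p)]? = some (Sum.inr true))
    (Feas.proj 1)
    (FeasP.sym ((Feas.proj 1).add (((Feas.proj 3).mul (Feas.proj 2)).add (Feas.proj 0))) _)

/-- Evaluation of the polynomial by the scheme of Horner. -/
def hor (s : List AA) (n q w i : ℕ) (t : ℕ) : ℕ :=
  Nat.rec (motive := fun _ => ℕ) 0
    (fun t acc => if q = 0 then 0 else (acc * i + cf s n q (2 * w - 1 - t)) % q) t

theorem hor_le (s : List AA) (n q w i t : ℕ) : hor s n q w i t ≤ q := by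
  cases t with
  | zero => exact Nat.zero_le _
  | succ t =>
    change (if q = 0 then 0 else _) ≤ q
    split_ifs with h
    · exact Nat.zero_le _
    · exact (Nat.mod_lt _ (Nat.pos_of_ne_zero h)).le

theorem hor_lt (s : List AA) (n q w i t : ℕ) (hq : 0 < q) : hor s n q w i t < q := by
  cases t with
  | zero => exact hq
  | succ t =>
    change (if q = 0 then 0 else _) < q
    rw [if_neg hq.ne']
    exact Nat.mod_lt _ hq

theorem hor_cast (s : List AA) (n q w i t : ℕ) (hq : 0 < q) (ht : t ≤ 2 * w) :
    ((hor s n q w i t : ℕ) : ZMod q) =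
      ∑ j ∈ range t, ((cf s n q (2 * w - t + j) : ℕ) : ZMod q) * (i : ZMod q) ^ j := by
  induction t with
  | zero => simp [hor]
  | succ t ih =>
    have e : hor s n q w i (t + 1) =
        (hor s n q w i t * i + cf s n q (2 * w - 1 - t)) % q := by
      change (if q = 0 then 0 else _) = _
      rw [if_neg hq.ne']
      rfl
    rw [e, ZMod.natCast_mod, Nat.cast_add, Nat.cast_mul, ih (by omega), sum_range_succ', sum_mul]
    congr 1
    · refine sum_congr rfl fun j _ => ?_
      have e2 : 2 * w - (t + 1) + (j + 1) = 2 * w - t + j := by omega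
      rw [e2, pow_succ, mul_assoc]
    · have e3 : 2 * w - (t + 1) + 0 = 2 * w - 1 - t := by omega
      rw [e3, pow_zero, mul_one]

theorem hor_eq (s : List AA) (n q w i : ℕ) (hq : 0 < q) :
    hor s n q w i (2 * w) =
      (peval (fun j : Fin (2 * w) => ((cf s n q j : ℕ) : ZMod q)) (i : ZMod q)).val := by
  have : NeZero q := ⟨hq.ne'⟩
  have h1 := hor_cast s n q w i (2 * w) hq le_rfl
  have h2 : peval (fun j : Fin (2 * w) => ((cf s n q j : ℕ) : ZMod q)) (i : ZMod q) =
      ((hor s n q w i (2 * w) : ℕ) : ZMod q) := by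
    rw [h1, peval, Finset.sum_range]
    refine sum_congr rfl fun j _ => ?_
    rw [Nat.sub_self, zero_add]
  rw [h2, ZMod.val_natCast, Nat.mod_eq_of_lt (hor_lt s n q w i _ hq)]

theorem feas_hor : Feas (fun (s : List AA) (v : Fin 4 → ℕ) =>
    hor s (v 0) (v 1) (v 2) (v 3) (2 * v 2)) := by
  refine Feas.rec' (a := fun _ _ => 0) (n := fun _ v => 2 * v 2) (B := fun _ v => v 1)
    (G := fun s t acc v => if v 1 = 0 then 0 else
      (acc * v 3 + cf s (v 0) (v 1) (2 * v 2 - 1 - t)) % v 1)
    (Feas.const 0) ((Feas.const 2).mul (Feas.proj 2)) ?_ (Feas.proj 1)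
    (fun s v t _ => hor_le s (v 0) (v 1) (v 2) (v 3) t)
  refine Feas.ite (FeasP.eq0 (Feas.proj 3)) (Feas.const 0) (Feas.mod (Feas.add
    ((Feas.proj 1).mul (Feas.proj 5)) (Feas.comp3 feas_cf (Feas.proj 2) (Feas.proj 3)
      (((((Feas.const 2).mul (Feas.proj 4)).sub (Feas.const 1)).sub (Feas.proj 0))))) (Feas.proj 3))

/-- The test of the verifier for given parameters. -/
def Chk (s : List AA) (n w : ℕ) : Prop :=
  s[w]? = some (Sum.inl true) ∧ (qq n w).Prime ∧ ∀ i < kk n w,
    s[n / 2 + i * qq n w + hor s n (qq n w) w i (2 * w)]? = some (Sum.inl true)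

theorem feas_chk {n w : List AA → (Fin r → ℕ) → ℕ} (hn : Feas n) (hw : Feas w) :
    FeasP (fun s v => Chk s (n s v) (w s v)) := by
  have key : FeasP (fun (s : List AA) (v : Fin 2 → ℕ) => Chk s (v 0) (v 1)) := by
    unfold Chk
    refine (FeasP.sym (Feas.proj 1) _).and ((FeasP.prime (feas_qq (Feas.proj 0)
      (Feas.proj 1))).and (FeasP.ball (p := fun s i v =>
        s[v 0 / 2 + i * qq (v 0) (v 1) + hor s (v 0) (qq (v 0) (v 1)) (v 1) i (2 * v 1)]? =
          some (Sum.inl true)) (feas_kk (Feas.proj 0) (Feas.proj 1)) ?_))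
    refine FeasP.sym ?_ _
    have hq : Feas (fun (_ : List AA) (u : Fin 3 → ℕ) => qq (u 1) (u 2)) :=
      feas_qq (Feas.proj 1) (Feas.proj 2)
    exact (((Feas.proj 1).div (Feas.const 2)).add ((Feas.proj 0).mul hq)).add
      (Feas.comp4 (F := fun s n q w i => hor s n q w i (2 * w)) feas_hor (Feas.proj 1) hq
        (Feas.proj 2) (Feas.proj 0))
  classical
  exact FeasP.of (Feas.comp2' (F := fun s n w => if Chk s n w then 1 else 0) key.feas hn hw)

/-- The number of symbols of `s` that belong to the input. -/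
def lenx (s : List AA) (l : ℕ) : ℕ :=
  ((range l).filter fun i => s[i]? = some (Sum.inl true) ∨ s[i]? = some (Sum.inl false)).card

theorem feas_lenx {l : List AA → (Fin r → ℕ) → ℕ} (hl : Feas l) :
    Feas (fun s v => lenx s (l s v)) := by
  unfold lenx
  exact Feas.count (p := fun s i _ => s[i]? = some (Sum.inl true) ∨ s[i]? = some (Sum.inl false))
    hl ((FeasP.sym (Feas.proj 0) _).or (FeasP.sym (Feas.proj 0) _))

/-- Acceptance. -/
def Acc (s : List AA) : Prop := ∃ w < lenx s s.length / 2, Chk s (lenx s s.length) w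

theorem feas_acc : FeasP (fun (s : List AA) (v : Fin 1 → ℕ) =>
    ∃ w < lenx s (v 0) / 2, Chk s (lenx s (v 0)) w) := by
  refine (FeasP.ball (p := fun s w v => ¬ Chk s (lenx s (v 0)) w)
    (((feas_lenx (Feas.proj 0)).div (Feas.const 2))) ?_).not.congr fun s v => ?_
  · exact (feas_chk (feas_lenx (Feas.proj 1)) (Feas.proj 0)).not
  · simp only [not_forall, not_not, exists_prop]

/-! ### Correctness -/

theorem getElem_inl (x y : List Bool) (p : ℕ) (b : Bool) :
    (encPair x y)[p]? = some (Sum.inl b) ↔ x[p]? = some b := by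
  unfold encPair
  by_cases hp : p < x.length
  · rw [List.getElem?_append_left (by simpa using hp), List.getElem?_map,
      List.getElem?_eq_getElem hp]
    simp
  · push Not at hp
    rw [List.getElem?_append_right (by simpa using hp), List.getElem?_map,
      List.getElem?_eq_none hp]
    simp

theorem getElem_inr (x y : List Bool) (t : ℕ) (b : Bool) :
    (encPair x y)[x.length + t]? = some (Sum.inr b) ↔ y[t]? = some b := by
  unfold encPair
  rw [List.getElem?_append_right (by simp), List.getElem?_map]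
  simp

theorem getElem_getD (x y : List Bool) (p : ℕ) :
    (encPair x y)[p]? = some (Sum.inl true) ↔ x.getD p false = true := by
  rw [getElem_inl, List.getD_eq_getElem?_getD]
  cases x[p]? <;> simp

theorem length_encPair (x y : List Bool) : (encPair x y).length = x.length + y.length := by
  simp [encPair]

theorem lenx_eq (x y : List Bool) : lenx (encPair x y) (encPair x y).length = x.length := by
  unfold lenx
  have : ((range (encPair x y).length).filter fun i =>
      (encPair x y)[i]? = some (Sum.inl true) ∨ (encPair x y)[i]? = some (Sum.inl false)) =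
      range x.length := by
    ext i
    simp only [mem_filter, mem_range, getElem_inl, length_encPair]
    constructor
    · rintro ⟨_, h | h⟩
      · exact (List.getElem?_eq_some_iff.1 h).1
      · exact (List.getElem?_eq_some_iff.1 h).1
    · intro h
      refine ⟨by omega, ?_⟩
      rw [List.getElem?_eq_getElem h]
      cases x[i] <;> simp
  rw [this, card_range]

theorem chk_sound {x y : List Bool} {w : ℕ} (h : Chk (encPair x y) x.length w) :
    x.getD w false = true ∧ InL x.length w x := by
  obtain ⟨h1, h2, h3⟩ := h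
  refine ⟨(getElem_getD x y w).1 h1, h2,
    fun j => ((cf (encPair x y) x.length (qq x.length w) j : ℕ) : ZMod (qq x.length w)),
    fun i hi => ?_⟩
  have h4 := h3 i hi
  rw [hor_eq _ _ _ _ _ h2.pos, getElem_getD] at h4
  exact h4

/-- The certificate given by a polynomial. -/
def cert (w q : ℕ) (c : Fin (2 * w) → ZMod q) : List Bool :=
  (List.range (2 * w * q)).map fun t =>
    decide (t % q < if h : t / q < 2 * w then (c ⟨t / q, h⟩).val else 0)

theorem length_cert (w q : ℕ) (c : Fin (2 * w) → ZMod q) : (cert w q c).length = 2 * w * q := by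
  simp [cert]

theorem cf_cert (x : List Bool) (w q : ℕ) (hq : 0 < q) (c : Fin (2 * w) → ZMod q)
    (j : Fin (2 * w)) : cf (encPair x (cert w q c)) x.length q j = (c j).val := by
  have : NeZero q := ⟨hq.ne'⟩
  unfold cf
  have e : ((range q).filter fun p =>
      (encPair x (cert w q c))[x.length + ((j : ℕ) * q + p)]? = some (Sum.inr true)) =
      range (c j).val := by
    ext p
    simp only [mem_filter, mem_range, getElem_inr]
    have hc := ZMod.val_lt (c j)
    have key : p < q → ((cert w q c)[(j : ℕ) * q + p]? = some true ↔ p < (c j).val) := by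
      intro hp
      have hlt : (j : ℕ) * q + p < 2 * w * q := by
        have : ((j : ℕ) + 1) * q ≤ 2 * w * q := Nat.mul_le_mul_right q j.2
        rw [Nat.add_mul, one_mul] at this
        omega
      have e1 : ((j : ℕ) * q + p) % q = p := by
        rw [Nat.mul_add_mod_self_right, Nat.mod_eq_of_lt hp]
      have e2 : ((j : ℕ) * q + p) / q = j := by
        rw [mul_comm, Nat.mul_add_div hq, Nat.div_eq_of_lt hp, add_zero]
      unfold cert
      rw [List.getElem?_map, List.getElem?_range hlt]
      simp only [Option.map_some, Option.some.injEq, decide_eq_true_eq, e1, e2, j.2, dif_pos]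
    constructor
    · rintro ⟨h1, h2⟩
      exact (key h1).1 h2
    · intro h1
      exact ⟨h1.trans hc, (key (h1.trans hc)).2 h1⟩
  rw [e, card_range]

theorem kk_mul_qq (n w : ℕ) : kk n w * qq n w ≤ n / 2 := by
  have h1 : qq n w ≤ n / 2 / kk n w := Nat.findGreatest_le _
  exact (Nat.mul_le_mul_left _ h1).trans (Nat.mul_div_le _ _)

theorem chk_complete {x : List Bool} {w : ℕ} (h1 : x.getD w false = true)
    (h2 : InL x.length w x) :
    ∃ y : List Bool, y.length ≤ x.length ∧ Chk (encPair x y) x.length w := by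
  obtain ⟨h2, c, h3⟩ := h2
  have hq := h2.pos
  have : NeZero (qq x.length w) := ⟨hq.ne'⟩
  refine ⟨cert w (qq x.length w) c, ?_, (getElem_getD _ _ _).2 h1, h2, fun i hi => ?_⟩
  · rw [length_cert]
    have h4 := kk_mul_qq x.length w
    have h5 : 2 * w ≤ kk x.length w := by
      unfold kk
      nlinarith [Nat.zero_le (2 * w * Nat.log 2 x.length)]
    have h6 := Nat.mul_le_mul_right (qq x.length w) h5
    omega
  · rw [hor_eq _ _ _ _ _ hq, getElem_getD]
    have e : (fun j : Fin (2 * w) => ((cf (encPair x (cert w (qq x.length w) c)) x.length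
        (qq x.length w) j : ℕ) : ZMod (qq x.length w))) = c := by
      funext j
      rw [cf_cert x w _ hq c j, ZMod.natCast_zmod_val]
    rw [e]
    exact h3 i hi

open Classical in
/-- The verifier as a function. -/
noncomputable def verif (x y : List Bool) : Bool := decide (Acc (encPair x y))

theorem verif_sound {x y : List Bool} (h : verif x y = true) : x ∈ Lang := by
  classical
  have h : Acc (encPair x y) := by
    unfold verif at h
    simpa using h
  obtain ⟨w, h1, h2⟩ := h
  rw [lenx_eq] at h1 h2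
  exact ⟨w, h1, chk_sound h2⟩

theorem verif_complete {x : List Bool} (h : x ∈ Lang) :
    ∃ y : List Bool, y.length ≤ x.length ∧ verif x y = true := by
  obtain ⟨w, h1, h2, h3⟩ := h
  obtain ⟨y, hy, h4⟩ := chk_complete h2 h3
  refine ⟨y, hy, ?_⟩
  have h : Acc (encPair x y) := by
    refine ⟨w, ?_, ?_⟩
    · rwa [lenx_eq]
    · rwa [lenx_eq]
  unfold verif
  simpa using h

theorem verif_machine : ∃ (M : Turing.FinTM2) (eIn : M.Γ M.k₀ ≃ Bool ⊕ Bool)
    (eOut : M.Γ M.k₁ ≃ Bool) (p : Polynomial ℕ), ∀ x y : List Bool,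
      Nonempty (Turing.TM2OutputsInTime M ((encPair x y).map eIn.symm)
        (some [eOut.symm (verif x y)]) (p.eval (x.length + y.length))) := by
  classical
  obtain ⟨M, eIn, eOut, p, hp⟩ := Feas.machine (FeasP.feas feas_acc)
  refine ⟨M, eIn, eOut, p, fun x y => ?_⟩
  have h := hp (encPair x y)
  rw [length_encPair] at h
  convert h using 5
  unfold verif Acc
  rw [length_encPair]
  by_cases hA : ∃ w < lenx (encPair x y) (x.length + y.length) / 2,
      Chk (encPair x y) (lenx (encPair x y) (x.length + y.length)) w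
  · simp [hA]
  · simp [hA]

theorem outputs_mono {M : Turing.FinTM2} {l : List (M.Γ M.k₀)} {o : Option (List (M.Γ M.k₁))}
    {t t' : ℕ} (h : Nonempty (Turing.TM2OutputsInTime M l o t)) (ht : t ≤ t') :
    Nonempty (Turing.TM2OutputsInTime M l o t') := by
  obtain ⟨h⟩ := h
  exact ⟨⟨h.toEvalsTo, h.steps_le_m.trans ht⟩⟩

theorem lang_inNP : InNP Lang := by
  obtain ⟨M, eIn, eOut, p, hp⟩ := verif_machine
  refine ⟨Polynomial.X, p.comp (Polynomial.C 2 * Polynomial.X), M, eIn, eOut, verif,
    fun x y hy => ?_, fun x => ⟨fun h => ?_, fun ⟨y, _, hy⟩ => verif_sound hy⟩⟩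
  · refine outputs_mono (hp x y) ?_
    simp only [Polynomial.eval_X, Polynomial.eval_comp, Polynomial.eval_mul,
      Polynomial.eval_C] at hy ⊢
    exact ev_mono p (by omega)
  · obtain ⟨y, hy, h'⟩ := verif_complete h
    exact ⟨y, by simpa using hy, h'⟩

theorem eval_two_pow (p : Polynomial ℕ) (m : ℕ) :
    p.eval (2 ^ m) ≤ 2 ^ (p.eval 1 + p.natDegree * m) := by
  have h1 : p.eval (2 ^ m) ≤ p.eval 1 * (2 ^ m) ^ p.natDegree := by
    rw [Polynomial.eval_eq_sum_range, Polynomial.eval_eq_sum_range, sum_mul]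
    refine sum_le_sum fun i hi => ?_
    rw [one_pow, mul_one]
    refine Nat.mul_le_mul_left _ (Nat.pow_le_pow_right (by positivity) ?_)
    exact Nat.lt_succ_iff.1 (mem_range.1 hi)
  refine h1.trans ?_
  rw [pow_add, ← pow_mul, mul_comm m]
  exact Nat.mul_le_mul_right _ Nat.lt_two_pow_self.le

theorem lang_inNEXP : InNEXP Lang := by
  obtain ⟨M, eIn, eOut, p, hp⟩ := verif_machine
  refine ⟨Polynomial.X, Polynomial.C (p.eval 1) + Polynomial.C p.natDegree *
    (Polynomial.X + Polynomial.C 1), M, eIn, eOut, verif,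
    fun x y hy => ?_, fun x => ⟨fun h => ?_, fun ⟨y, _, hy⟩ => verif_sound hy⟩⟩
  · refine outputs_mono (hp x y) ?_
    simp only [Polynomial.eval_X, Polynomial.eval_mul, Polynomial.eval_add,
      Polynomial.eval_C] at hy ⊢
    refine (ev_mono p ?_).trans (eval_two_pow p (x.length + 1))
    have : x.length < 2 ^ x.length := Nat.lt_two_pow_self
    rw [pow_succ]
    omega
  · obtain ⟨y, hy, h'⟩ := verif_complete h
    refine ⟨y, ?_, h'⟩
    simp only [Polynomial.eval_X]
    exact hy.trans Nat.lt_two_pow_self.le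

end verifier

end Pool.Agent.Lib.MP_70d3b5_lc
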